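import Pool.Agent.WD.A4

/-! # Integrality and order (piece A5) -/

namespace Pool.Agent.WD

universe u

variable {p : ℕ} [Fact p.Prime] {k : Type u} [Field k] {r : ℕ}

/-- the series of order `≥ 0` -/
private noncomputable def A5_V (k : Type u) [Field k] :
    Valuation (Om k) (Multiplicative (WithTop ℚ)ᵒᵈ) :=
  (HahnSeries.addVal ℚ k).toValuation

private theorem A5_mem (x : Om k) : x ∈ (A5_V k).integer ↔ 0 ≤ x.orderTop := by
  rw [Valuation.mem_integer_iff]
  rfl

private theorem A5_pow (y : PowerSeries k) :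
    0 ≤ (algebraMap (PowerSeries k) (Om k) y).orderTop := by
  have h0 : algebraMap (PowerSeries k) (Om k) y = HahnSeries.ofPowerSeries ℚ k y := rfl
  rw [h0]
  by_contra hlt
  rw [not_le] at hlt
  set z := HahnSeries.ofPowerSeries ℚ k y with hz
  have hne : z.orderTop ≠ ⊤ := ne_top_of_lt hlt
  obtain ⟨q, hq⟩ := WithTop.ne_top_iff_exists.1 hne
  have h1 : z.coeff q ≠ 0 := HahnSeries.coeff_orderTop_ne hq.symm
  apply h1
  rw [← hq] at hlt
  have hq0 : q < 0 := by exact_mod_cast hlt
  rw [hz, HahnSeries.ofPowerSeries_apply, HahnSeries.embDomain_of_notMem_range]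
  rintro ⟨i, hi⟩
  have h2 : ((i : ℕ) : ℚ) = q := hi
  have h3 : (0 : ℚ) ≤ (i : ℕ) := Nat.cast_nonneg _
  linarith

/-- Use `HahnSeries.addVal`: if `x` has negative order, the leading term of a monic equation
has smaller order than all the others. -/
theorem orderTop_nonneg_of_isIntegral (x : Om k) (h : IsIntegral (PowerSeries k) x) :
    0 ≤ x.orderTop := by
  rw [← A5_mem]
  let φ : PowerSeries k →+* (A5_V k).integer :=
    (algebraMap (PowerSeries k) (Om k)).codRestrict (A5_V k).integer
      fun y => (A5_mem _).2 (A5_pow y)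
  have h1 : IsIntegral (A5_V k).integer x := by
    have h2 := IsIntegral.map_of_comp_eq (R := PowerSeries k) (S := Om k)
      (T := (A5_V k).integer) (U := Om k) φ (RingHom.id (Om k)) (by ext y; rfl) h
    exact h2
  exact (Valuation.integer.integers (A5_V k)).mem_of_integral h1

theorem exists_powerSeries (x : LaurentSeries k) (h : 0 ≤ (toOm k x).orderTop) :
    ∃ y : PowerSeries k, algebraMap (PowerSeries k) (LaurentSeries k) y = x := by
  refine ⟨PowerSeries.mk fun n => x.coeff (n : ℤ), ?_⟩
  change HahnSeries.ofPowerSeries ℤ k _ = x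
  ext j
  by_cases hj : 0 ≤ j
  · lift j to ℕ using hj
    have h1 := HahnSeries.ofPowerSeries_apply_coeff (Γ := ℤ)
      (PowerSeries.mk fun n => x.coeff (n : ℤ)) j
    rw [PowerSeries.coeff_mk] at h1
    exact h1
  · rw [HahnSeries.ofPowerSeries_apply, HahnSeries.embDomain_of_notMem_range]
    · have h2 : ((j : ℚ) : WithTop ℚ) < (toOm k x).orderTop := by
        refine lt_of_lt_of_le ?_ h
        have h3 : (j : ℚ) < 0 := by exact_mod_cast (not_le.1 hj)
        exact_mod_cast h3
      have h3 := HahnSeries.coeff_eq_zero_of_lt_orderTop h2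
      rw [toOm_coeff_int] at h3
      exact h3.symm
    · rintro ⟨i, hi⟩
      apply hj
      have : ((i : ℕ) : ℤ) = j := hi
      omega

variable [CharP k p] [PerfectRing k p]

theorem isIntegral_coe_iff (c : Par p r k) (x : Lc c) :
    IsIntegral (PowerSeries k) x ↔ IsIntegral (PowerSeries k) (x : Om k) := by
  haveI : IsScalarTower (PowerSeries k) (Lc c) (Om k) := by
    refine IsScalarTower.of_algebraMap_eq fun y => ?_
    rw [IsScalarTower.algebraMap_apply (PowerSeries k) (LaurentSeries k) (Lc c),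
      IsScalarTower.algebraMap_apply (PowerSeries k) (LaurentSeries k) (Om k)]
    rfl
  have h : Function.Injective (algebraMap (Lc c) (Om k)) := (algebraMap (Lc c) (Om k)).injective
  exact (isIntegral_algebraMap_iff (R := PowerSeries k) (A := Lc c) (B := Om k) h).symm

/-- The coefficients of `∏_σ (X - σ x)` are in `K` and have order `≥ 0`. -/
theorem isIntegral_of_conj (c : Par p r k) (x : Lc c)
    (h : ∀ σ : Lc c ≃ₐ[LaurentSeries k] Lc c, 0 ≤ ((σ x : Lc c) : Om k).orderTop) :
    IsIntegral (PowerSeries k) x := by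
  classical
  haveI := finiteDim_Lc c
  haveI := isGalois_Lc c
  haveI : Fintype (Lc c ≃ₐ[LaurentSeries k] Lc c) := Fintype.ofFinite _
  let V : Subring (Lc c) := (A5_V k).integer.comap (algebraMap (Lc c) (Om k))
  have hV : ∀ y : Lc c, y ∈ V ↔ 0 ≤ (y : Om k).orderTop := fun y => A5_mem (y : Om k)
  set P : Polynomial (Lc c) := ∏ σ : Lc c ≃ₐ[LaurentSeries k] Lc c,
    (Polynomial.X - Polynomial.C (σ x)) with hP
  have hmonic : P.Monic := Polynomial.monic_prod_of_monic _ _ fun σ _ => Polynomial.monic_X_sub_C _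
  have hroot : Polynomial.eval x P = 0 := by
    rw [hP, Polynomial.eval_prod]
    refine Finset.prod_eq_zero (Finset.mem_univ (AlgEquiv.refl : Lc c ≃ₐ[LaurentSeries k] Lc c)) ?_
    rw [Polynomial.eval_sub, Polynomial.eval_X, Polynomial.eval_C]
    simp
  have hfix : ∀ τ : Lc c ≃ₐ[LaurentSeries k] Lc c, ∀ i, τ (P.coeff i) = P.coeff i := by
    intro τ i
    have h1 : P.map (τ : Lc c →+* Lc c) = P := by
      rw [hP, Polynomial.map_prod]
      refine Fintype.prod_equiv (Equiv.mulLeft τ) _ _ fun σ => ?_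
      rw [Polynomial.map_sub, Polynomial.map_X, Polynomial.map_C]
      rfl
    conv_rhs => rw [← h1]
    rw [Polynomial.coeff_map]
    rfl
  have hcoef : ∀ i, P.coeff i ∈ V := by
    intro i
    have h1 : P = Polynomial.map V.subtype (∏ σ : Lc c ≃ₐ[LaurentSeries k] Lc c,
        (Polynomial.X - Polynomial.C (⟨σ x, (hV _).2 (h σ)⟩ : V))) := by
      rw [hP, Polynomial.map_prod]
      refine Finset.prod_congr rfl fun σ _ => ?_
      rw [Polynomial.map_sub, Polynomial.map_X, Polynomial.map_C]
      rfl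
    rw [h1, Polynomial.coeff_map]
    exact Subtype.property _
  have hlift : P ∈ Polynomial.lifts (algebraMap (PowerSeries k) (Lc c)) := by
    rw [Polynomial.lifts_iff_coeff_lifts]
    intro i
    obtain ⟨a, ha⟩ := (IsGalois.mem_range_algebraMap_iff_fixed (F := LaurentSeries k)
      (P.coeff i)).2 fun τ => hfix τ i
    have h1 : 0 ≤ (toOm k a).orderTop := by
      have h2 := (hV _).1 (hcoef i)
      rw [← ha] at h2
      exact h2
    obtain ⟨y, hy⟩ := exists_powerSeries a h1
    refine ⟨y, ?_⟩
    rw [← ha, ← hy, IsScalarTower.algebraMap_apply (PowerSeries k) (LaurentSeries k) (Lc c)]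
  obtain ⟨Q, hQ, _, hQm⟩ := Polynomial.lifts_and_degree_eq_and_monic hlift hmonic
  refine ⟨Q, hQm, ?_⟩
  rw [← Polynomial.eval_map, hQ, hroot]

end Pool.Agent.WD
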