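import Pool.Agent.WD.Defs

/-! # Constructible sets and classes of linear subspaces (piece B1) -/

namespace Pool.Agent.WD

open Polynomial

universe u

variable {k : Type u} [Field k] {ι κ : Type}

theorem IsConstr.univ : IsConstr (Set.univ : Set (ι → k)) := by
  have h := IsConstr.zeros (0 : MvPolynomial ι k)
  simpa using h

theorem IsConstr.empty : IsConstr (∅ : Set (ι → k)) := by
  have h := (IsConstr.univ (k := k) (ι := ι)).compl
  simpa using h

theorem IsConstr.union {S T : Set (ι → k)} (hS : IsConstr S) (hT : IsConstr T) :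
    IsConstr (S ∪ T) := by
  have h := (hS.compl.inter hT.compl).compl
  rwa [Set.compl_inter, compl_compl, compl_compl] at h

theorem IsConstr.biUnion {α : Type*} (t : Finset α) (S : α → Set (ι → k))
    (h : ∀ a ∈ t, IsConstr (S a)) : IsConstr (⋃ a ∈ t, S a) := by
  classical
  induction t using Finset.induction_on with
  | empty => simpa using IsConstr.empty
  | insert a t _ ih =>
    rw [Finset.set_biUnion_insert]
    exact (h a (Finset.mem_insert_self _ _)).union
      (ih fun b hb => h b (Finset.mem_insert_of_mem hb))

private theorem B1_biInter {α : Type*} (t : Finset α) (S : α → Set (ι → k))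
    (h : ∀ a ∈ t, IsConstr (S a)) : IsConstr (⋂ a ∈ t, S a) := by
  classical
  induction t using Finset.induction_on with
  | empty => simpa using IsConstr.univ
  | insert a t _ ih =>
    rw [Finset.set_biInter_insert]
    exact (h a (Finset.mem_insert_self _ _)).inter
      (ih fun b hb => h b (Finset.mem_insert_of_mem hb))

private theorem B1_ker [Fintype ι] (f : (ι → k) →ₗ[k] k) :
    IsConstr {x : ι → k | f x = 0} := by
  classical
  have h := IsConstr.zeros (∑ i, MvPolynomial.C (f fun j => if i = j then 1 else 0) *
    MvPolynomial.X i : MvPolynomial ι k)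
  convert h using 1
  ext x
  rw [Set.mem_ofPred_eq, Set.mem_ofPred_eq, map_sum, LinearMap.pi_apply_eq_sum_univ f x]
  simp only [smul_eq_mul, map_mul, MvPolynomial.eval_C, MvPolynomial.eval_X, mul_comm]

theorem isConstr_submodule [Fintype ι] (W : Submodule k (ι → k)) :
    IsConstr (W : Set (ι → k)) := by
  classical
  obtain ⟨W', hW⟩ := Submodule.exists_isCompl W
  set f := W'.subtype.comp (Submodule.projectionOnto W' W hW.symm) with hf
  have hker : ∀ x, x ∈ W ↔ f x = 0 := by
    intro x
    rw [hf, LinearMap.comp_apply, Submodule.subtype_apply, ZeroMemClass.coe_eq_zero,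
      Submodule.projectionOnto_apply_eq_zero_iff]
  have h := B1_biInter (Finset.univ : Finset ι)
    (fun i => {x : ι → k | ((LinearMap.proj i).comp f : (ι → k) →ₗ[k] k) x = 0})
    (fun i _ => B1_ker _)
  convert h using 1
  ext x
  simp only [SetLike.mem_coe, Set.mem_iInter, Set.mem_ofPred_eq, Finset.mem_univ,
    forall_true_left, LinearMap.comp_apply, LinearMap.proj_apply]
  rw [hker, funext_iff]
  rfl

theorem Realization.cls_empty [Fintype ι] (e : Realization k) :
    e.cls (∅ : Set (ι → k)) = 0 := by
  have h := e.cls_union (IsConstr.empty (k := k) (ι := ι)) IsConstr.empty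
    (Set.disjoint_empty _)
  rw [Set.union_empty] at h
  exact left_eq_add.1 h

theorem Realization.cls_equiv [Fintype ι] [Fintype κ] (e : Realization k)
    (A : (ι → k) ≃ₗ[k] (κ → k)) {S : Set (ι → k)} (hS : IsConstr S) :
    e.cls (A '' S) = e.cls S := e.cls_inj A.toLinearMap A.injective hS

private theorem B1_univ_equiv [Fintype ι] [Fintype κ] (e : Realization k) (s : ι ≃ κ) :
    e.cls (Set.univ : Set (ι → k)) = e.cls (Set.univ : Set (κ → k)) := by
  have h := e.cls_equiv (LinearEquiv.funCongrLeft k k s) (IsConstr.univ (k := k) (ι := κ))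
  rw [Set.image_univ_of_surjective (LinearEquiv.surjective _)] at h
  exact h

private theorem B1_univ_sum [Fintype ι] [Fintype κ] (e : Realization k) :
    e.cls (Set.univ : Set (ι ⊕ κ → k)) =
      e.cls (Set.univ : Set (ι → k)) * e.cls (Set.univ : Set (κ → k)) := by
  have h := e.cls_prod (IsConstr.univ (k := k) (ι := ι)) (IsConstr.univ (k := k) (ι := κ))
  rw [← h]
  congr 1
  ext x
  simp

private theorem B1_univ_fin (e : Realization k) (n : ℕ) :
    e.cls (Set.univ : Set (Fin n → k)) = X ^ (2 * n) := by
  induction n with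
  | zero =>
    rw [B1_univ_equiv e (Equiv.equivEmpty (Fin 0)), e.cls_point]
    simp
  | succ n ih =>
    rw [← B1_univ_equiv e (finSumFinEquiv : Fin n ⊕ Fin 1 ≃ Fin (n + 1)), B1_univ_sum, ih,
      B1_univ_equiv e (Equiv.equivPUnit (Fin 1) : Fin 1 ≃ Unit), e.cls_line]
    ring

theorem Realization.cls_univ [Fintype ι] (e : Realization k) :
    e.cls (Set.univ : Set (ι → k)) = X ^ (2 * Fintype.card ι) := by
  rw [B1_univ_equiv e (Fintype.equivFin ι), B1_univ_fin]

/-- additivity for a finite disjoint union -/
theorem Realization.cls_biUnion [Fintype ι] (e : Realization k) {α : Type*} (t : Finset α)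
    (S : α → Set (ι → k)) (h : ∀ a ∈ t, IsConstr (S a))
    (hd : ∀ a ∈ t, ∀ b ∈ t, a ≠ b → Disjoint (S a) (S b)) :
    e.cls (⋃ a ∈ t, S a) = ∑ a ∈ t, e.cls (S a) := by
  classical
  induction t using Finset.induction_on with
  | empty =>
    simp only [Finset.notMem_empty, Set.iUnion_of_empty, Set.iUnion_empty, Finset.sum_empty]
    exact e.cls_empty
  | insert a t ha ih =>
    have h1 : ∀ b ∈ t, IsConstr (S b) := fun b hb => h b (Finset.mem_insert_of_mem hb)
    rw [Finset.set_biUnion_insert, Finset.sum_insert ha,
      e.cls_union (h a (Finset.mem_insert_self _ _)) (IsConstr.biUnion t S h1), ih h1]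
    · intro b hb c hc hbc
      exact hd b (Finset.mem_insert_of_mem hb) c (Finset.mem_insert_of_mem hc) hbc
    · rw [Set.disjoint_iUnion₂_right]
      intro b hb
      exact hd a (Finset.mem_insert_self _ _) b (Finset.mem_insert_of_mem hb)
        (fun h => ha (h ▸ hb))

/-- `W` is the image of `k^d` under an injective linear map. -/
theorem Realization.cls_submodule [Fintype ι] (e : Realization k) (W : Submodule k (ι → k)) :
    e.cls (W : Set (ι → k)) = X ^ (2 * Module.finrank k W) := by
  set A : (Fin (Module.finrank k W) → k) →ₗ[k] (ι → k) :=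
    W.subtype.comp (Module.finBasis k W).equivFun.symm.toLinearMap with hA
  have h1 : Function.Injective A := by
    rw [hA, LinearMap.coe_comp]
    exact W.injective_subtype.comp (LinearEquiv.injective _)
  have h2 : A '' Set.univ = (W : Set (ι → k)) := by
    rw [Set.image_univ, ← LinearMap.coe_range, hA, LinearMap.range_comp,
      LinearEquiv.range, Submodule.map_top, Submodule.range_subtype]
  rw [← h2, e.cls_inj A h1 IsConstr.univ, e.cls_univ, Fintype.card_fin]

end Pool.Agent.WD
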