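import Pool.Agent.WD.Lev

/-! # The spaces `W_j` (piece B2) -/

namespace Pool.Agent.WD

universe u

variable {p : ℕ} {k : Type u} [Field k] {r n : ℕ}

/-- The conditions for `e = 1, ..., r` imply all the conditions: with
`X_e = (ℓ_{B,s}^{p^e})_s ∈ k^r` and `S_e = span(X_1, ..., X_e)`, if `X_{e+1} ∈ S_e` then (Frobenius)
`X_{e+2} ∈ span(X_2, ..., X_{e+1}) ⊆ S_e`; the dimensions of the `S_e` increase strictly until the
sequence is constant, so `S_r` contains all the `X_e`. -/
theorem tst_of_le [Fact p.Prime] [CharP k p] (ℓ : Fin n → Fin r → k) (B : Fin n) (x : Fin r → k)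
    (h : ∀ e, 1 ≤ e → e ≤ r → tst p ℓ B e x = 0) (e : ℕ) (he : 1 ≤ e) :
    tst p ℓ B e x = 0 := by
  classical
  have hnl : ¬ LinearIndependent k
      (fun (i : Fin (r + 1)) => fun s : Fin r => ℓ B s ^ p ^ ((i : ℕ) + 1)) := by
    intro hl
    have h1 := hl.fintype_card_le_finrank
    rw [Module.finrank_fin_fun, Fintype.card_fin] at h1
    omega
  rw [Fintype.not_linearIndependent_iff] at hnl
  obtain ⟨g, hg, i0, hi0⟩ := hnl
  obtain ⟨E, hE, hmax⟩ := Finset.exists_max_image (Finset.univ.filter fun i => g i ≠ 0)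
    (fun i => i) ⟨i0, Finset.mem_filter.2 ⟨Finset.mem_univ _, hi0⟩⟩
  have hE0 : g E ≠ 0 := (Finset.mem_filter.1 hE).2
  have hgt : ∀ i, E < i → g i = 0 := by
    intro i hi
    by_contra hne
    exact absurd (hmax i (Finset.mem_filter.2 ⟨Finset.mem_univ _, hne⟩)) (not_le.2 hi)
  have hrel : ∀ s, ∑ i, g i * ℓ B s ^ p ^ ((i : ℕ) + 1) = 0 := by
    intro s
    have h1 := congrFun hg s
    simpa [Finset.sum_apply, smul_eq_mul] using h1
  induction e using Nat.strong_induction_on with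
  | _ e ih =>
  rcases le_or_gt e r with her | her
  · exact h e he her
  have hEr := E.isLt
  obtain ⟨d, hd⟩ : ∃ d, e = (E : ℕ) + 1 + d := ⟨e - ((E : ℕ) + 1), by omega⟩
  have hrel2 : ∀ s, ∑ i, g i ^ p ^ d * ℓ B s ^ p ^ ((i : ℕ) + 1 + d) = 0 := by
    intro s
    have h1 : (∑ i, g i * ℓ B s ^ p ^ ((i : ℕ) + 1)) ^ p ^ d = 0 ^ p ^ d := by
      rw [hrel s]
    rw [sum_pow_char_pow, zero_pow (pow_ne_zero _ (Fact.out : p.Prime).ne_zero)] at h1
    rw [← h1]
    refine Finset.sum_congr rfl fun i _ => ?_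
    rw [mul_pow, ← pow_mul, ← pow_add]
  have hsum : ∑ i, g i ^ p ^ d * tst p ℓ B ((i : ℕ) + 1 + d) x = 0 := by
    have h1 : ∑ i, g i ^ p ^ d * tst p ℓ B ((i : ℕ) + 1 + d) x =
        ∑ s, (∑ i, g i ^ p ^ d * ℓ B s ^ p ^ ((i : ℕ) + 1 + d)) * x s := by
      simp_rw [tst, Finset.mul_sum, Finset.sum_mul]
      rw [Finset.sum_comm]
      refine Finset.sum_congr rfl fun s _ => Finset.sum_congr rfl fun i _ => ?_
      ring
    rw [h1]
    refine Finset.sum_eq_zero fun s _ => ?_
    rw [hrel2, zero_mul]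
  rw [Finset.sum_eq_single E] at hsum
  · rcases mul_eq_zero.1 hsum with h1 | h1
    · exact absurd h1 (pow_ne_zero _ hE0)
    · rw [hd]
      exact h1
  · intro i _ hi
    rcases lt_or_gt_of_ne hi with hlt | hlt
    · have h2 : (i : ℕ) < E := hlt
      rw [ih ((i : ℕ) + 1 + d) (by omega) (by omega), mul_zero]
    · rw [hgt i hlt, zero_pow (pow_ne_zero _ (Fact.out : p.Prime).ne_zero), zero_mul]
  · intro h1
    exact absurd (Finset.mem_univ _) h1

/-- The same for the thresholds. -/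
theorem mem_Wj_iff [Fact p.Prime] [CharP k p] (ℓ : Fin n → Fin r → k) (m : Fin n → ℕ)
    (M : Bx n m → ℕ) (j : ℕ) (x : Fin r → k) :
    x ∈ Wj p ℓ m M j ↔ ∀ b : Bx n m, ∀ e, 1 ≤ e → e ≤ r →
      p ^ e * M b < (b.1.2 : ℕ) * j → tst p ℓ b.1.1 e x = 0 := by
  constructor
  · intro h b e he _ hlt
    exact h b e he hlt
  · intro h b e he hlt
    rcases le_or_gt e r with her | her
    · exact h b e he her hlt
    · refine tst_of_le ℓ b.1.1 x (fun e' he' her' => h b e' he' her' ?_) e he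
      refine lt_of_le_of_lt ?_ hlt
      exact Nat.mul_le_mul_right _
        (Nat.pow_le_pow_right (Fact.out : p.Prime).pos (by omega))

private theorem B2_tst_smul (ℓ : Fin n → Fin r → k) (B : Fin n) (e : ℕ) (a : k)
    (x : Fin r → k) : tst p ℓ B e (fun s => a * x s) = a * tst p ℓ B e x := by
  rw [tst, tst, Finset.mul_sum]
  refine Finset.sum_congr rfl fun s _ => ?_
  ring

private theorem B2_tst_sub (ℓ : Fin n → Fin r → k) (B : Fin n) (e : ℕ)
    (x y : Fin r → k) :
    tst p ℓ B e (fun s => x s - y s) = tst p ℓ B e x - tst p ℓ B e y := by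
  rw [tst, tst, tst, ← Finset.sum_sub_distrib]
  refine Finset.sum_congr rfl fun s _ => ?_
  ring

private theorem B2_tst_frob [Fact p.Prime] [CharP k p] [PerfectRing k p]
    (ℓ : Fin n → Fin r → k) (B : Fin n) (e : ℕ) (x : Fin r → k) :
    tst p ℓ B e (fun s => (frobeniusEquiv k p).symm (x s)) =
      (frobeniusEquiv k p).symm (tst p ℓ B (e + 1) x) := by
  rw [tst, tst, map_sum]
  refine Finset.sum_congr rfl fun s _ => ?_
  rw [map_mul]
  congr 1
  rw [eq_comm, RingEquiv.symm_apply_eq, frobeniusEquiv_apply, frobenius_def, pow_succ, pow_mul]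

/-- A vector in the prime field contradicts faithfulness. -/
private theorem B2_prime [Fact p.Prime] [CharP k p] (ℓ : Fin n → Fin r → k)
    (m : Fin n → ℕ) (hf : Faithful p ℓ m) (x : Fin r → k)
    (h : ∀ b : Bx n m, tst p ℓ b.1.1 1 x = 0) (hx : ∀ s, x s ^ p = x s) : x = 0 := by
  have h1 : ∀ s, ∃ c : ZMod p, fp p k c = x s := by
    intro s
    have h2 : x s ∈ (⊥ : Subfield k) := (Subfield.mem_bot_iff_pow_eq_self k p).2 (hx s)
    rw [← ZMod.fieldRange_castHom_eq_bot p] at h2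
    obtain ⟨c, hc⟩ := h2
    exact ⟨c, hc⟩
  choose g hg using h1
  by_contra hne
  have hg0 : g ≠ 0 := by
    rintro rfl
    apply hne
    funext s
    rw [← hg s]
    simp
  refine hf g hg0 ?_
  have hell : ∀ b : Bx n m, ell ℓ b.1.1 g = 0 := by
    intro b
    have h2 : ell ℓ b.1.1 g ^ p = tst p ℓ b.1.1 1 x := by
      rw [ell, sum_pow_char, tst, pow_one]
      refine Finset.sum_congr rfl fun s _ => ?_
      rw [mul_pow, hg, hx, mul_comm]
    rw [h b] at h2
    exact (pow_eq_zero_iff (Fact.out : p.Prime).ne_zero).1 h2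
  ext ⟨B, i⟩ ⟨B', i'⟩
  rw [rho]
  simp only
  by_cases hB : B = B'
  · subst hB
    rw [if_pos rfl]
    by_cases hi : i = i'
    · subst hi
      rw [Matrix.one_apply_eq]
      simp
    · have hne2 : (⟨B, i⟩ : Ix n m) ≠ ⟨B, i'⟩ := by
        intro h3
        exact hi (eq_of_heq (Sigma.mk.inj h3).2)
      rw [Matrix.one_apply_ne hne2]
      have hi2 : (i : ℕ) ≠ i' := fun h3 => hi (Fin.ext h3)
      rcases lt_or_gt_of_ne hi2 with hlt | hlt
      · have h4 : ell ℓ B g = 0 := hell ⟨⟨B, i'⟩, by simp only; omega⟩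
        rw [h4, zero_pow (by omega), mul_zero]
      · rw [Nat.choose_eq_zero_of_lt hlt, Nat.cast_zero, zero_mul]
  · rw [if_neg hB, Matrix.one_apply_ne]
    intro h3
    exact hB (congrArg Sigma.fst h3)

/-- If the representation is faithful, no nonzero vector satisfies all the conditions: take one
with minimal support and a coordinate `1`; then `x^{1/p} - x` has smaller support. -/
theorem eq_zero_of_tst [Fact p.Prime] [CharP k p] [PerfectRing k p] (ℓ : Fin n → Fin r → k)
    (m : Fin n → ℕ) (hf : Faithful p ℓ m) (x : Fin r → k)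
    (h : ∀ b : Bx n m, ∀ e, 1 ≤ e → tst p ℓ b.1.1 e x = 0) : x = 0 := by
  classical
  obtain ⟨N, hN⟩ : ∃ N, (Finset.univ.filter fun s => x s ≠ 0).card = N := ⟨_, rfl⟩
  induction N using Nat.strong_induction_on generalizing x with
  | _ N ih =>
  by_contra hne
  obtain ⟨s0, hs0⟩ : ∃ s, x s ≠ 0 := by
    by_contra hcon
    push Not at hcon
    exact hne (funext hcon)
  set φ := (frobeniusEquiv k p).symm with hφ
  have hφ0 : ∀ a : k, φ a ^ p = a := by
    intro a
    have h1 := (frobeniusEquiv k p).apply_symm_apply a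
    rwa [frobeniusEquiv_apply, frobenius_def] at h1
  set x' : Fin r → k := fun s => (x s0)⁻¹ * x s with hx'
  have h' : ∀ b : Bx n m, ∀ e, 1 ≤ e → tst p ℓ b.1.1 e x' = 0 := by
    intro b e he
    rw [hx', B2_tst_smul, h b e he, mul_zero]
  have hx1 : x' s0 = 1 := inv_mul_cancel₀ hs0
  have hy : (fun s => φ (x' s) - x' s) = 0 := by
    refine ih _ ?_ _ ?_ rfl
    · rw [← hN]
      apply Finset.card_lt_card
      rw [Finset.ssubset_iff_of_subset]
      · refine ⟨s0, Finset.mem_filter.2 ⟨Finset.mem_univ _, hs0⟩, ?_⟩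
        intro h1
        apply (Finset.mem_filter.1 h1).2
        rw [hx1, map_one, sub_self]
      · intro s hs
        rw [Finset.mem_filter] at hs ⊢
        refine ⟨hs.1, fun h1 => hs.2 ?_⟩
        rw [hx']
        simp only
        rw [h1, mul_zero, map_zero, sub_zero]
    · intro b e he
      rw [B2_tst_sub, B2_tst_frob, h' b (e + 1) (by omega), h' b e he, map_zero, sub_zero]
  have hfix : ∀ s, x' s ^ p = x' s := by
    intro s
    have h1 := congrFun hy s
    have h2 : φ (x' s) = x' s := sub_eq_zero.1 h1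
    conv_lhs => rw [← h2]
    exact hφ0 _
  have h0 := B2_prime ℓ m hf x' (fun b => h' b 1 le_rfl) hfix
  rw [h0] at hx1
  exact zero_ne_one hx1

theorem Wj_eq_bot [Fact p.Prime] [CharP k p] [PerfectRing k p] (ℓ : Fin n → Fin r → k)
    (m : Fin n → ℕ) (hf : Faithful p ℓ m) (M : Bx n m → ℕ) (j : ℕ) (hj : bd p r M < j) :
    Wj p ℓ m M j = ⊥ := by
  rw [Submodule.eq_bot_iff]
  intro x hx
  refine eq_zero_of_tst ℓ m hf x fun b e he => ?_
  refine tst_of_le ℓ b.1.1 x (fun e' he' her' => hx b e' he' ?_) e he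
  have h1 : p ^ e' * M b ≤ bd p r M := by
    rw [bd]
    refine Nat.mul_le_mul (Nat.pow_le_pow_right (Fact.out : p.Prime).pos her') ?_
    exact Finset.single_le_sum (f := M) (fun _ _ => Nat.zero_le _) (Finset.mem_univ b)
  have h2 : 1 ≤ (b.1.2 : ℕ) := Nat.one_le_iff_ne_zero.2 b.2
  calc p ^ e' * M b ≤ bd p r M := h1
    _ < j := hj
    _ ≤ (b.1.2 : ℕ) * j := Nat.le_mul_of_pos_left _ h2

theorem Wj_mono (ℓ : Fin n → Fin r → k) (m : Fin n → ℕ) {M M' : Bx n m → ℕ} (h : M ≤ M')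
    (j : ℕ) : Wj p ℓ m M j ≤ Wj p ℓ m M' j := by
  intro x hx b e he hlt
  exact hx b e he (lt_of_le_of_lt (Nat.mul_le_mul_left _ (h b)) hlt)

/-- any larger bound gives the same sum -/
theorem nu_eq [Fact p.Prime] [CharP k p] [PerfectRing k p] (ℓ : Fin n → Fin r → k)
    (m : Fin n → ℕ) (hf : Faithful p ℓ m) (M : Bx n m → ℕ) (N : ℕ) (hN : bd p r M ≤ N) :
    nu p ℓ m M = ∑ j ∈ (Finset.range (N + 1)).filter (fun j => ¬ p ∣ j),
      Module.finrank k (Wj p ℓ m M j) := by
  rw [nu]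
  refine Finset.sum_subset ?_ ?_
  · intro j hj
    rw [Finset.mem_filter, Finset.mem_range] at hj ⊢
    exact ⟨by omega, hj.2⟩
  · intro j hj hj'
    rw [Finset.mem_filter, Finset.mem_range] at hj hj'
    have h1 : bd p r M < j := by
      by_contra hcon
      exact hj' ⟨by omega, hj.2⟩
    rw [Wj_eq_bot ℓ m hf M j h1, finrank_bot]

end Pool.Agent.WD
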