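import Pool.Agent.WD.B1
import Pool.Agent.WD.B2

/-! # The classes of the sets `lev ≤ M` (piece B3) -/

namespace Pool.Agent.WD

open Polynomial

universe u

variable {p : ℕ} [Fact p.Prime] {k : Type u} [Field k] [CharP k p] [PerfectRing k p] {r n : ℕ}

theorem ext_apply {N : ℕ} (x : Co p r N → k) (s : Fin r) (j : Jp p) (hj : j.1 < N + 1) :
    ext x (s, j) = x (s, ⟨⟨j.1, hj⟩, j.2⟩) :=
  Finsupp.embDomain_apply_self (coEmb p r N) (Finsupp.equivFunOnFinite.symm x)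
    (s, ⟨⟨j.1, hj⟩, j.2⟩)

theorem ext_apply_of_lt {N : ℕ} (x : Co p r N → k) (s : Fin r) (j : Jp p) (hj : N < j.1) :
    ext x (s, j) = 0 := by
  rw [ext]
  apply Finsupp.embDomain_notin_range
  rintro ⟨⟨s', ⟨j', hj'⟩⟩, h⟩
  have h1 : (j' : ℕ) = j.1 := congrArg (fun z : Fin r × Jp p => z.2.1) h
  have h2 := j'.2
  omega

/-- every parameter with pole orders `≤ N` is in the image of `ext` -/
theorem exists_ext {N : ℕ} (c : Par p r k) (h : ∀ s (j : Jp p), N < j.1 → c (s, j) = 0) :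
    ∃ x : Co p r N → k, ext x = c := by
  refine ⟨fun y => c (coEmb p r N y), ?_⟩
  refine Finsupp.ext ?_
  rintro ⟨s, j⟩
  by_cases hj : j.1 < N + 1
  · rw [ext_apply _ _ _ hj]
    rfl
  · rw [ext_apply_of_lt _ _ _ (by omega), h s j (by omega)]

/-- If the levels of `c` are `≤ M`, the pole orders are `≤ bd M`. -/
theorem pole_le (ℓ : Fin n → Fin r → k) (m : Fin n → ℕ) (hf : Faithful p ℓ m)
    (M : Bx n m → ℕ) (c : Par p r k) (h : ∀ b : Bx n m, lev ℓ c b.1.1 b.1.2 ≤ M b)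
    (s : Fin r) (j : Jp p) (hj : bd p r M < j.1) : c (s, j) = 0 := by
  have hp : 1 ≤ p := (Fact.out : p.Prime).one_lt.le
  have h1 : (fun s => c (s, j)) ∈ Wj p ℓ m M j.1 := by
    intro b e he hb
    exact (lev_le_iff hp).1 (h b) e he j hb
  rw [Wj_eq_bot ℓ m hf M j.1 hj, Submodule.mem_bot] at h1
  exact congrFun h1 s

/-- The subspace of the parameters whose coefficients at `t^{-j}` are in `W_j`. -/
private def levSub (p : ℕ) (ℓ : Fin n → Fin r → k) (m : Fin n → ℕ) (M : Bx n m → ℕ) (N : ℕ) :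
    Submodule k (Co p r N → k) where
  carrier := {x | ∀ j : {j : Fin (N + 1) // ¬ p ∣ (j : ℕ)},
    (fun s => x (s, j)) ∈ Wj p ℓ m M (j.1 : ℕ)}
  add_mem' := by
    intro x y hx hy j
    exact (Wj p ℓ m M (j.1 : ℕ)).add_mem (hx j) (hy j)
  zero_mem' := by
    intro j
    exact (Wj p ℓ m M (j.1 : ℕ)).zero_mem
  smul_mem' := by
    intro a x hx j
    exact (Wj p ℓ m M (j.1 : ℕ)).smul_mem a (hx j)

private def levEquiv (p : ℕ) (ℓ : Fin n → Fin r → k) (m : Fin n → ℕ) (M : Bx n m → ℕ) (N : ℕ) :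
    levSub p ℓ m M N ≃ₗ[k]
      ((j : {j : Fin (N + 1) // ¬ p ∣ (j : ℕ)}) → Wj p ℓ m M (j.1 : ℕ)) where
  toFun x j := ⟨fun s => x.1 (s, j), x.2 j⟩
  map_add' x y := rfl
  map_smul' a x := rfl
  invFun y := ⟨fun z => (y z.2).1 z.1, fun j => (y j).2⟩
  left_inv x := rfl
  right_inv y := rfl

private theorem levSub_eq (ℓ : Fin n → Fin r → k) (m : Fin n → ℕ) (M : Bx n m → ℕ) (N : ℕ) :
    {x : Co p r N → k | ∀ b : Bx n m, lev ℓ (ext x) b.1.1 b.1.2 ≤ M b} =
      (levSub p ℓ m M N : Set (Co p r N → k)) := by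
  have hp : 1 ≤ p := (Fact.out : p.Prime).one_lt.le
  ext x
  constructor
  · intro h j b e he hb
    have h1 := (lev_le_iff hp).1 (h b) e he ⟨(j.1 : ℕ), j.2⟩ hb
    have h2 : (fun s => ext x (s, (⟨(j.1 : ℕ), j.2⟩ : Jp p))) = fun s => x (s, j) := by
      funext s
      rw [ext_apply x s ⟨(j.1 : ℕ), j.2⟩ j.1.2]
    rw [h2] at h1
    exact h1
  · intro h b
    rw [lev_le_iff hp]
    intro e he j hb
    by_cases hj : j.1 < N + 1
    · have h1 := h ⟨⟨j.1, hj⟩, j.2⟩ b e he hb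
      have h2 : (fun s => ext x (s, j)) = fun s => x (s, ⟨⟨j.1, hj⟩, j.2⟩) := by
        funext s
        rw [ext_apply x s j hj]
      rw [h2]
      exact h1
    · have h2 : (fun s => ext x (s, j)) = fun _ => 0 := by
        funext s
        rw [ext_apply_of_lt x s j (by omega)]
      rw [h2, tst]
      exact Finset.sum_eq_zero fun s _ => mul_zero _

private theorem finrank_levSub (ℓ : Fin n → Fin r → k) (m : Fin n → ℕ)
    (hf : Faithful p ℓ m) (M : Bx n m → ℕ) (N : ℕ) (hN : bd p r M ≤ N) :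
    Module.finrank k (levSub p ℓ m M N) = nu p ℓ m M := by
  classical
  rw [(levEquiv p ℓ m M N).finrank_eq, Module.finrank_pi_fintype, nu_eq ℓ m hf M N hN]
  rw [Finset.sum_filter, ← Fin.sum_univ_eq_sum_range
    (fun j => if ¬ p ∣ j then Module.finrank k (Wj p ℓ m M j) else 0) (N + 1),
    ← Finset.sum_filter]
  exact (Finset.sum_subtype (Finset.univ.filter fun j : Fin (N + 1) => ¬ p ∣ (j : ℕ))
    (by simp) (fun j : Fin (N + 1) => Module.finrank k (Wj p ℓ m M (j : ℕ)))).symm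

/-- The set is a linear subspace, the product over `j` of the `W_j`. -/
theorem cls_level (e : Realization k) (ℓ : Fin n → Fin r → k) (m : Fin n → ℕ)
    (hf : Faithful p ℓ m) (M : Bx n m → ℕ) (N : ℕ) (hN : bd p r M ≤ N) :
    IsConstr {x : Co p r N → k | ∀ b : Bx n m, lev ℓ (ext x) b.1.1 b.1.2 ≤ M b} ∧
      e.cls {x : Co p r N → k | ∀ b : Bx n m, lev ℓ (ext x) b.1.1 b.1.2 ≤ M b} =
        X ^ (2 * nu p ℓ m M) := by
  rw [levSub_eq ℓ m M N]
  refine ⟨isConstr_submodule _, ?_⟩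
  rw [e.cls_submodule, finrank_levSub ℓ m hf M N hN]

end Pool.Agent.WD
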