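import Pool.Agent.WD.Comb

/-! # Products of geometric series (piece D0) -/

namespace Pool.Agent.WD

variable {β : Type} [Fintype β] [DecidableEq β]

private theorem D0_fin (n : ℕ) : ∀ x : Fin n → ℝ, (∀ b, 0 ≤ x b) → (∀ b, x b < 1) →
    HasSum (fun m : Fin n → ℕ => ∏ b, x b ^ m b) (∏ b, (1 - x b)⁻¹) := by
  induction n with
  | zero =>
    intro x _ _
    simp
  | succ n ih =>
    intro x h0 h1
    have h2 := ih (fun b => x b.succ) (fun b => h0 _) (fun b => h1 _)
    have h3 := hasSum_geometric_of_lt_one (h0 0) (h1 0)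
    have h4 : Summable fun y : ℕ × (Fin n → ℕ) =>
        x 0 ^ y.1 * ∏ b : Fin n, x b.succ ^ y.2 b :=
      Summable.mul_of_nonneg h3.summable h2.summable (fun m => pow_nonneg (h0 0) m)
        (fun m => Finset.prod_nonneg fun b _ => pow_nonneg (h0 _) _)
    have h5 := h3.mul h2 h4
    rw [← (Fin.consEquiv (fun _ : Fin (n + 1) => ℕ)).hasSum_iff, Fin.prod_univ_succ]
    have h6 : (fun m : Fin (n + 1) → ℕ => ∏ b, x b ^ m b) ∘
        (Fin.consEquiv (fun _ : Fin (n + 1) => ℕ)) = fun y : ℕ × (Fin n → ℕ) =>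
        x 0 ^ y.1 * ∏ b : Fin n, x b.succ ^ y.2 b := by
      funext y
      simp only [Function.comp_apply, Fin.consEquiv_apply, Fin.prod_univ_succ, Fin.cons_zero,
        Fin.cons_succ]
    rw [h6]
    exact h5

theorem hasSum_geom_pi (x : β → ℝ) (h0 : ∀ b, 0 ≤ x b) (h1 : ∀ b, x b < 1) :
    HasSum (fun m : β → ℕ => ∏ b, x b ^ m b) (∏ b, (1 - x b)⁻¹) := by
  have e := Fintype.equivFin β
  have h2 := D0_fin _ (fun i => x (e.symm i)) (fun i => h0 _) (fun i => h1 _)
  rw [← (Equiv.arrowCongr e.symm (Equiv.refl ℕ)).hasSum_iff]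
  have h3 : ∏ b, (1 - x b)⁻¹ = ∏ i, (1 - x (e.symm i))⁻¹ :=
    (e.symm.prod_comp fun b => (1 - x b)⁻¹).symm
  rw [h3]
  convert h2 using 1
  funext m
  simp only [Function.comp_apply]
  rw [← e.symm.prod_comp]
  refine Finset.prod_congr rfl fun i _ => ?_
  congr 1
  simp [Equiv.arrowCongr]

end Pool.Agent.WD
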