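import Pool.Agent.WD.Comb

/-! # Dual pairs of functions (piece D1) -/

namespace Pool.Agent.WD

open Polynomial

private theorem D1_pos {q : ℝ} (hq : 1 < q) : 0 < q ∧ q ≠ 1 ∧ 0 < q⁻¹ ∧ q⁻¹ ≠ 1 := by
  have h0 : 0 < q := by linarith
  refine ⟨h0, hq.ne', inv_pos.2 h0, ?_⟩
  intro h
  exact hq.ne' (inv_eq_one.1 h)

theorem Dual.add {F G F' G' : ℝ → ℝ} (h : Dual F G) (h' : Dual F' G') :
    Dual (fun q => F q + F' q) (fun q => G q + G' q) := by
  obtain ⟨A, B, hB, hq⟩ := h
  obtain ⟨A', B', hB', hq'⟩ := h'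
  refine ⟨A * B' + A' * B, B * B', ?_, ?_⟩
  · intro x hx hx1
    rw [map_mul]
    exact mul_ne_zero (hB x hx hx1) (hB' x hx hx1)
  · intro q h1
    obtain ⟨p1, p2, p3, p4⟩ := D1_pos h1
    have b1 := hB q p1 p2
    have b2 := hB q⁻¹ p3 p4
    have b3 := hB' q p1 p2
    have b4 := hB' q⁻¹ p3 p4
    simp only [map_add, map_mul]
    rw [(hq q h1).1, (hq' q h1).1, (hq q h1).2, (hq' q h1).2, div_add_div _ _ b1 b3,
      div_add_div _ _ b2 b4]
    exact ⟨by rw [mul_comm (aeval q B) (aeval q A')],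
      by rw [mul_comm (aeval q⁻¹ B) (aeval q⁻¹ A')]⟩

theorem Dual.mul {F G F' G' : ℝ → ℝ} (h : Dual F G) (h' : Dual F' G') :
    Dual (fun q => F q * F' q) (fun q => G q * G' q) := by
  obtain ⟨A, B, hB, hq⟩ := h
  obtain ⟨A', B', hB', hq'⟩ := h'
  refine ⟨A * A', B * B', ?_, ?_⟩
  · intro x hx hx1
    rw [map_mul]
    exact mul_ne_zero (hB x hx hx1) (hB' x hx hx1)
  · intro q h1
    simp only [map_mul]
    rw [(hq q h1).1, (hq' q h1).1, (hq q h1).2, (hq' q h1).2, div_mul_div_comm,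
      div_mul_div_comm]
    exact ⟨rfl, rfl⟩

theorem Dual.const (z : ℤ) : Dual (fun _ => (z : ℝ)) (fun _ => (z : ℝ)) := by
  refine ⟨C z, 1, ?_, ?_⟩
  · intro x _ _
    rw [map_one]
    exact one_ne_zero
  · intro q _
    simp

theorem Dual.zpow (z : ℤ) : Dual (fun q => q ^ z) (fun q => q ^ (-z)) := by
  rcases Int.eq_nat_or_neg z with ⟨n, rfl | rfl⟩
  · refine ⟨X ^ n, 1, ?_, ?_⟩
    · intro x _ _
      rw [map_one]
      exact one_ne_zero
    · intro q _
      simp
  · refine ⟨1, X ^ n, ?_, ?_⟩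
    · intro x hx _
      rw [map_pow, aeval_X]
      exact pow_ne_zero _ hx.ne'
    · intro q _
      simp

theorem Dual.inv_one_sub (l : ℤ) (hl : l ≠ 0) :
    Dual (fun q => (1 - q ^ (-l))⁻¹) (fun q => (1 - q ^ l)⁻¹) := by
  have key : ∀ n : ℕ, n ≠ 0 → ∀ x : ℝ, 0 < x → x ≠ 1 → x ^ n - 1 ≠ 0 := by
    intro n hn x hx hx1 h
    apply hx1
    rw [sub_eq_zero] at h
    exact (pow_eq_one_iff_of_nonneg hx.le hn).1 h
  rcases Int.eq_nat_or_neg l with ⟨n, rfl | rfl⟩
  · have hn : n ≠ 0 := by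
      rintro rfl
      exact hl rfl
    refine ⟨X ^ n, X ^ n - 1, ?_, ?_⟩
    · intro x hx hx1
      rw [map_sub, map_pow, aeval_X, map_one]
      exact key n hn x hx hx1
    · intro q h1
      obtain ⟨p1, p2, p3, p4⟩ := D1_pos h1
      have hq0 : q ^ n ≠ 0 := pow_ne_zero _ p1.ne'
      have k1 := key n hn q p1 p2
      have k2 := key n hn q⁻¹ p3 p4
      simp only [map_sub, map_pow, aeval_X, map_one, zpow_neg, zpow_natCast]
      constructor
      · have : 1 - (q ^ n)⁻¹ = (q ^ n - 1) / q ^ n := by field_simp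
        rw [this, inv_div]
      · have h3 : (q⁻¹) ^ n - 1 = (1 - q ^ n) / q ^ n := by
          rw [inv_pow]
          field_simp
        have h4 : (1 : ℝ) - q ^ n ≠ 0 := by
          intro h
          apply k1
          linarith
        rw [h3, inv_pow]
        field_simp
  · have hn : n ≠ 0 := by
      rintro rfl
      exact hl rfl
    refine ⟨1, 1 - X ^ n, ?_, ?_⟩
    · intro x hx hx1
      rw [map_sub, map_pow, aeval_X, map_one]
      intro h
      apply key n hn x hx hx1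
      linarith
    · intro q h1
      simp only [map_sub, map_pow, aeval_X, map_one, neg_neg, zpow_neg, zpow_natCast, one_div,
        inv_pow]
      exact ⟨trivial, trivial⟩

theorem Dual.congr {F G F' G' : ℝ → ℝ} (h : Dual F G) (h1 : ∀ q, 1 < q → F' q = F q)
    (h2 : ∀ q, 1 < q → G' q = G q) : Dual F' G' := by
  obtain ⟨A, B, hB, hq⟩ := h
  exact ⟨A, B, hB, fun q hq1 => ⟨by rw [h1 q hq1, (hq q hq1).1], by rw [h2 q hq1, (hq q hq1).2]⟩⟩

theorem Dual.sum {α : Type*} (t : Finset α) (F G : α → ℝ → ℝ) (h : ∀ a ∈ t, Dual (F a) (G a)) :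
    Dual (fun q => ∑ a ∈ t, F a q) (fun q => ∑ a ∈ t, G a q) := by
  classical
  induction t using Finset.induction_on with
  | empty =>
    refine (Dual.const 0).congr ?_ ?_ <;> simp
  | insert a s ha ih =>
    refine ((h a (Finset.mem_insert_self _ _)).add
      (ih fun b hb => h b (Finset.mem_insert_of_mem hb))).congr ?_ ?_
    · intro q _
      rw [Finset.sum_insert ha]
    · intro q _
      rw [Finset.sum_insert ha]

theorem Dual.prod {α : Type*} (t : Finset α) (F G : α → ℝ → ℝ) (h : ∀ a ∈ t, Dual (F a) (G a)) :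
    Dual (fun q => ∏ a ∈ t, F a q) (fun q => ∏ a ∈ t, G a q) := by
  classical
  induction t using Finset.induction_on with
  | empty =>
    refine (Dual.const 1).congr ?_ ?_ <;> simp
  | insert a s ha ih =>
    refine ((h a (Finset.mem_insert_self _ _)).mul
      (ih fun b hb => h b (Finset.mem_insert_of_mem hb))).congr ?_ ?_
    · intro q _
      rw [Finset.prod_insert ha]
    · intro q _
      rw [Finset.prod_insert ha]

theorem Dual.comp_sq {F G : ℝ → ℝ} (h : Dual F G) :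
    Dual (fun T => F (T ^ 2)) (fun T => G (T ^ 2)) := by
  obtain ⟨A, B, hB, hq⟩ := h
  have hc : ∀ (P : ℤ[X]) (x : ℝ), aeval x (P.comp (X ^ 2)) = aeval (x ^ 2) P := by
    intro P x
    rw [aeval_comp, map_pow, aeval_X]
  refine ⟨A.comp (X ^ 2), B.comp (X ^ 2), ?_, ?_⟩
  · intro x hx hx1
    rw [hc]
    refine hB _ (by positivity) ?_
    intro h
    apply hx1
    exact (pow_eq_one_iff_of_nonneg hx.le (by norm_num)).1 h
  · intro T hT
    have h1 : 1 < T ^ 2 := by nlinarith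
    rw [hc, hc, hc, hc, inv_pow]
    exact hq _ h1

end Pool.Agent.WD
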