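import Mathlib

/-!
# MP_827cb6_ag : wild duality, combinatorial definitions
-/

namespace Pool.Agent.WD

open Polynomial

noncomputable section

/-- `F` and `G` are given on `(1, ∞)` by `R(q)` and `R(1/q)` for one rational function `R`
without poles in `(0, ∞) \ {1}`. -/
def Dual (F G : ℝ → ℝ) : Prop :=
  ∃ A B : ℤ[X], (∀ x : ℝ, 0 < x → x ≠ 1 → aeval x B ≠ 0) ∧
    ∀ q : ℝ, 1 < q → F q = aeval q A / aeval q B ∧ G q = aeval q⁻¹ A / aeval q⁻¹ B

/-- integer linear functional -/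
def dot {β : Type} [Fintype β] (h : β → ℤ) (x : β → ℤ) : ℤ := ∑ b, h b * x b

/-- natural numbers to integers, coordinatewise -/
def nz {β : Type} (M : β → ℕ) : β → ℤ := fun b => (M b : ℤ)

/-- Piecewise odd quasi-linear functions `L` on `ℕ^β`: there are a finite set `F` of integer
linear functionals and a period `N` such that on (the closure of) each chamber `L` is the
restriction of a function `Λ` on `ℤ^β` which is odd and `N`-quasi-linear. -/
def PWwith {β : Type} [Fintype β] (L : (β → ℕ) → ℤ) (F : Finset (β → ℤ)) (N : ℕ) : Prop :=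
  0 < N ∧ ∀ x₀ : β → ℕ, ∃ Λ : (β → ℤ) → ℤ,
    (∀ x, Λ (-x) = -Λ x) ∧ (∀ x y, Λ (x + (N : ℤ) • y) = Λ x + Λ ((N : ℤ) • y)) ∧
    ∀ M : β → ℕ, (∀ h ∈ F, (0 ≤ dot h (nz x₀) → 0 ≤ dot h (nz M)) ∧
      (dot h (nz x₀) ≤ 0 → dot h (nz M) ≤ 0)) → L M = Λ (nz M)

/-- the same with positivity on the rays -/
def PWpos {β : Type} [Fintype β] (L : (β → ℕ) → ℤ) : Prop :=
  ∃ (F : Finset (β → ℤ)) (N : ℕ), PWwith L F N ∧ ∀ M : β → ℕ, M ≠ 0 → 0 < L (N • M)

section Cells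

variable {β : Type} [Fintype β] [DecidableEq β]

/-- lower `M` by one on `S` -/
def low (M : β → ℕ) (S : Finset β) : β → ℕ := fun b => if b ∈ S then M b - 1 else M b

/-- support of `M`  -/
def supp (M : β → ℕ) : Finset β := Finset.univ.filter fun b => M b ≠ 0

/-- the class of the cell `M`  -/
def cell (ν : (β → ℕ) → ℕ) (M : β → ℕ) : ℤ[X] :=
  ∑ S ∈ (supp M).powerset, (-1) ^ S.card * X ^ (2 * ν (low M S))

/-- the sum of all entries -/
def tot (M : β → ℕ) : ℕ := ∑ b, M b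

/-- the class of the level set `{v = a}` -/
def Pv (ν : (β → ℕ) → ℕ) (a : ℕ) : ℤ[X] := ∑ M ∈ Finset.piAntidiag Finset.univ a, cell ν M

/-- the class of the level set `{w = b}` -/
def Qw (ν : (β → ℕ) → ℕ) (b : ℤ) : ℤ[X] :=
  ∑ a ∈ Finset.range (Fintype.card β + (-b).toNat + 1),
    ∑ M ∈ (Finset.piAntidiag Finset.univ a).filter fun M => ((supp M).card : ℤ) - (a : ℤ) = b,
      cell ν M

/-- `L = tot - ν`  -/
def Lf (ν : (β → ℕ) → ℕ) (M : β → ℕ) : ℤ := (tot M : ℤ) - ν M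

end Cells

section Cones

variable {β : Type} [Fintype β] [DecidableEq β]

/-- A simplicial cone with integer generators `a i` and dual basis `lam i`. -/
structure SC (β : Type) [Fintype β] [DecidableEq β] where
  a : β → β → ℤ
  lam : β → β → ℚ
  pair : ∀ i j, ∑ b, lam i b * (a j b : ℚ) = if i = j then 1 else 0

/-- `h(x + ε ξ) > 0` for small positive `ε` -/
def posX (ξ : β → ℝ) (h : β → ℚ) (x : β → ℤ) : Prop :=
  0 < ∑ b, h b * (x b : ℚ) ∨ (∑ b, h b * (x b : ℚ) = 0 ∧ 0 < ∑ b, (h b : ℝ) * ξ b)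

/-- the half open cone `{x : x + ε ξ ∈ C}` -/
def inC (C : SC β) (ξ : β → ℝ) (x : β → ℤ) : Prop := ∀ i, posX ξ (C.lam i) x

/-- extension of `L` from `ℕ^β` to `ℤ^β` -/
def Lz (L : (β → ℕ) → ℤ) (x : β → ℤ) : ℤ := L fun b => (x b).toNat

/-- genericity -/
def Generic (ξ : β → ℝ) : Prop := ∀ h : β → ℚ, h ≠ 0 → ∑ b, (h b : ℝ) * ξ b ≠ 0

/-- reciprocity for the two half open cones -/
def GoodC (L : (β → ℕ) → ℤ) (ξ : β → ℝ) (C : SC β) : Prop :=
  ∃ F G : ℝ → ℝ, Dual F G ∧ ∀ q : ℝ, 1 < q →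
    HasSum (fun x : {x : β → ℤ // inC C ξ x} => q ^ (-Lz L x.1)) (F q) ∧
    HasSum (fun x : {x : β → ℤ // inC C (-ξ) x} => q ^ (-Lz L x.1))
      ((-1) ^ Fintype.card β * G q)

end Cones

end

end Pool.Agent.WD
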