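import Pool.Agent.WD.Final

/-!
# MP_827cb6_ag : the statement for sums of symmetric powers of planes

The same notions as in `Defs`, with the field `L_c` as a type of its own.
-/

namespace Pool.Agent.WD

open Polynomial Filter

noncomputable section

universe u

section

variable {p : ℕ} [Fact p.Prime] {k : Type u} [Field k] [CharP k p] [PerfectRing k p] {r n : ℕ}

/-- The field `L_c = K(z_1, ..., z_r)`, `K = k((t))`, where `z_s^p - z_s = f_s`. -/
def LT (c : Par p r k) : Type u := Lc c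

instance instFieldLT (c : Par p r k) : Field (LT c) := (Lc c).toField

instance instAlgKLT (c : Par p r k) : Algebra (LaurentSeries k) (LT c) := (Lc c).algebra'

instance instAlgOLT (c : Par p r k) : Algebra (PowerSeries k) (LT c) := (Lc c).algebra'

/-- the Galois group of `L_c / K` -/
abbrev GalT (c : Par p r k) : Type u := LT c ≃ₐ[LaurentSeries k] LT c

/-- `z_s` as an element of `L_c` -/
def zT (c : Par p r k) (s : Fin r) : LT c := rootL c s

/-- constants `k → L_c` -/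
def cT (c : Par p r k) : k →+* LT c := (algebraMap (LaurentSeries k) (LT c)).comp HahnSeries.C

/-- the relation between `σ ∈ Gal(L_c / K)` and `g ∈ (ℤ/p)^r` : `σ(z_s) = z_s + g_s` -/
def CorrT (c : Par p r k) (σ : GalT c) (g : Fin r → ZMod p) : Prop :=
  ∀ s, σ (zT c s) = zT c s + cT c (fp p k (g s))

/-- `x ∈ L_c^V` is in the tuning module `Ξ_c`: it is integral and `σ(x) = ρ(g) x` whenever `g`
corresponds to `σ`. -/
def Tuned (ℓ : Fin n → Fin r → k) (m : Fin n → ℕ) (c : Par p r k) (x : Ix n m → LT c) : Prop :=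
  (∀ a, IsIntegral (PowerSeries k) (x a)) ∧
    ∀ (σ : GalT c) (g : Fin r → ZMod p), CorrT c σ g →
      ∀ a, σ (x a) = ∑ b, cT c (rho ℓ m g a b) * x b

/-- the family `b` is a `k[[t]]`-basis of the tuning module -/
def TBasis (ℓ : Fin n → Fin r → k) (m : Fin n → ℕ) (c : Par p r k)
    (b : Ix n m → Ix n m → LT c) : Prop :=
  (∀ i, Tuned ℓ m c (b i)) ∧ ∀ x : Ix n m → LT c, Tuned ℓ m c x →
    ∃! u : Ix n m → PowerSeries k, ∀ a, x a = ∑ i, algebraMap (PowerSeries k) (LT c) (u i) * b i a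

/-- `v(c) = a`: the determinant of a `k[[t]]`-basis of `Ξ_c` is `t^a` times a unit of `k[[t]]`. -/
def VT (ℓ : Fin n → Fin r → k) (m : Fin n → ℕ) (c : Par p r k) (a : ℕ) : Prop :=
  ∃ (b : Ix n m → Ix n m → LT c) (v : (PowerSeries k)ˣ), TBasis ℓ m c b ∧
    Matrix.det b = algebraMap (PowerSeries k) (LT c) ((v : PowerSeries k) * PowerSeries.X ^ a)

/-- `V^H`, where `H ⊆ (ℤ/p)^r` is the image of the Galois group of `L_c / K` -/
def FixT (ℓ : Fin n → Fin r → k) (m : Fin n → ℕ) (c : Par p r k) :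
    Submodule k (Ix n m → k) :=
  Submodule.span k {x | ∀ (σ : GalT c) (g : Fin r → ZMod p), CorrT c σ g →
    (rho ℓ m g).mulVec x = x}

/-- `w(c) = b`, where `w(c) = codim V^H - v(c)` -/
def WT (ℓ : Fin n → Fin r → k) (m : Fin n → ℕ) (c : Par p r k) (b : ℤ) : Prop :=
  ∃ a : ℕ, VT ℓ m c a ∧ b = (dimV m : ℤ) - Module.finrank k (FixT ℓ m c) - a

end

/-- `M = ∑_a P_a L^(d - a)` converges: the dimension of its `a`-th term tends to `-∞` -/
def Converges (P : ℕ → ℤ[X]) : Prop :=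
  Tendsto (fun a : ℕ => 2 * (a : ℤ) - ((P a).natDegree : ℤ)) atTop atTop

/-- `∑_a P_a L^(d - a)` and `∑_b Q_b L^b`, `L = T^2`, converge for `T > 1` to rational functions
`R(T)` and `T^(2 d) R(T⁻¹)` -/
def DualSums (d : ℕ) (P : ℕ → ℤ[X]) (Q : ℤ → ℤ[X]) : Prop :=
  ∃ A B : ℤ[X], (∀ x : ℝ, 0 < x → x ≠ 1 → aeval x B ≠ 0) ∧ ∀ T : ℝ, 1 < T →
    HasSum (fun a : ℕ => aeval T (P a) * T ^ (2 * ((d : ℤ) - a))) (aeval T A / aeval T B) ∧
    HasSum (fun b : ℤ => aeval T (Q b) * T ^ (2 * b))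
      (T ^ (2 * d) * (aeval T⁻¹ A / aeval T⁻¹ B))

end

end Pool.Agent.WD
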