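import Pool.Agent.WD.Defs

/-! # The Frobenius of the field of Hahn series (piece A1) -/

namespace Pool.Agent.WD

universe u

variable {p : ℕ} [Fact p.Prime] {k : Type u} [Field k] [CharP k p]

omit [Fact p.Prime] in
private theorem A1_charP (p : ℕ) (k : Type u) [Field k] [CharP k p] : CharP (Om k) p := by
  have h : Function.Injective (HahnSeries.C : k →+* Om k) := HahnSeries.C_injective
  exact charP_of_injective_ringHom h p

private theorem A1_lt {k : Type u} [Field k] {y : Om k} {r : ℚ}
    (hy : ∀ e, r ≤ e → y.coeff e = 0) (n : ℕ) :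
    ∀ e : ℚ, (n + 1 : ℕ) * r ≤ e → (y ^ (n + 1)).coeff e = 0 := by
  induction n with
  | zero =>
    intro e he
    rw [pow_succ, pow_zero, one_mul]
    apply hy
    push_cast at he
    linarith
  | succ n ih =>
    intro e he
    rw [pow_succ, HahnSeries.coeff_mul]
    refine Finset.sum_eq_zero fun ij hij => ?_
    rw [Finset.mem_addAntidiagonal] at hij
    obtain ⟨h1, h2, h3⟩ := hij
    exfalso
    have h4 : ij.1 < (n + 1 : ℕ) * r := by
      by_contra hlt
      exact h1 (ih _ (not_lt.1 hlt))
    have h5 : ij.2 < r := by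
      by_contra hlt
      exact h2 (hy _ (not_lt.1 hlt))
    push_cast at he h4
    linarith

private theorem A1_gt {k : Type u} [Field k] {y : Om k} {r : ℚ}
    (hy : ∀ e, e ≤ r → y.coeff e = 0) (n : ℕ) :
    ∀ e : ℚ, e ≤ (n + 1 : ℕ) * r → (y ^ (n + 1)).coeff e = 0 := by
  induction n with
  | zero =>
    intro e he
    rw [pow_succ, pow_zero, one_mul]
    apply hy
    push_cast at he
    linarith
  | succ n ih =>
    intro e he
    rw [pow_succ, HahnSeries.coeff_mul]
    refine Finset.sum_eq_zero fun ij hij => ?_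
    rw [Finset.mem_addAntidiagonal] at hij
    obtain ⟨h1, h2, h3⟩ := hij
    exfalso
    have h4 : (n + 1 : ℕ) * r < ij.1 := by
      by_contra hlt
      exact h1 (ih _ (not_lt.1 hlt))
    have h5 : r < ij.2 := by
      by_contra hlt
      exact h2 (hy _ (not_lt.1 hlt))
    push_cast at he h4
    linarith

/-- Proof: `x = y + (a t^{q/p}) + w`, where `y` is the part of `x` with exponents `< q/p` and `w`
the part with exponents `> q/p`; the `p`-th power is additive (char `p`), all exponents of `y^p`
are `< q` and all exponents of `w^p` are `> q`. -/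
theorem coeff_pow_p (x : Om k) (q : ℚ) : (x ^ p).coeff q = (x.coeff (q / p)) ^ p := by
  classical
  haveI : CharP (Om k) p := A1_charP p k
  have hp : p.Prime := Fact.out
  have hp0 : (p : ℚ) ≠ 0 := by exact_mod_cast hp.ne_zero
  obtain ⟨n, hn⟩ : ∃ n, p = n + 1 := ⟨p - 1, by have := hp.pos; omega⟩
  set r : ℚ := q / p with hr
  have hpr : (p : ℚ) * r = q := by
    rw [hr]
    field_simp
  set y : Om k := HahnSeries.truncLT r x with hy
  set s : Om k := HahnSeries.single r (x.coeff r) with hs
  set w : Om k := x - y - s with hw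
  have hx : x = y + s + w := by
    rw [hw]
    ring
  have hyc : ∀ e, r ≤ e → y.coeff e = 0 := by
    intro e he
    rw [hy, HahnSeries.coeff_truncLT, if_neg (not_lt.2 he)]
  have hwc : ∀ e, e ≤ r → w.coeff e = 0 := by
    intro e he
    rw [hw, HahnSeries.coeff_sub, HahnSeries.coeff_sub, hy, HahnSeries.coeff_truncLT, hs,
      HahnSeries.coeff_single]
    rcases he.lt_or_eq with h | h
    · rw [if_pos h, if_neg h.ne, sub_self, sub_self]
    · rw [if_neg (by rw [h]; exact lt_irrefl _), if_pos h, h, sub_zero, sub_self]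
  have h1 : (y ^ p).coeff q = 0 := by
    have := A1_lt hyc n q (by rw [← hn, hpr])
    rwa [← hn] at this
  have h2 : (w ^ p).coeff q = 0 := by
    have := A1_gt hwc n q (by rw [← hn, hpr])
    rwa [← hn] at this
  have h3 : (s ^ p).coeff q = x.coeff r ^ p := by
    rw [hs, HahnSeries.single_pow, HahnSeries.coeff_single, if_pos]
    rw [nsmul_eq_mul, hpr]
  have h4 : x ^ p = y ^ p + s ^ p + w ^ p := by
    conv_lhs => rw [hx]
    rw [add_pow_char, add_pow_char]
  rw [h4, HahnSeries.coeff_add, HahnSeries.coeff_add, h1, h2, h3, zero_add, add_zero]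

end Pool.Agent.WD
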