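import Pool.Agent.WD.A6

/-! # The fixed space (piece A10) -/

namespace Pool.Agent.WD

universe u

variable {p : ℕ} [Fact p.Prime] {k : Type u} [Field k] [CharP k p] [PerfectRing k p] {r n : ℕ}

omit [PerfectRing k p] in
private theorem A10_mulVec (ℓ : Fin n → Fin r → k) {m : Fin n → ℕ} (g : Fin r → ZMod p)
    (x : Ix n m → k) (B : Fin n) (i : Fin (m B)) :
    (rho ℓ m g).mulVec x ⟨B, i⟩ = ∑ j : Fin (m B),
      ((j : ℕ).choose (i : ℕ) : k) * ell ℓ B g ^ ((j : ℕ) - (i : ℕ)) * x ⟨B, j⟩ := by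
  rw [Matrix.mulVec, dotProduct, Fintype.sum_sigma]
  rw [Finset.sum_eq_single B]
  · refine Finset.sum_congr rfl fun j _ => ?_
    rw [rho, if_pos rfl]
  · intro B' _ hB'
    refine Finset.sum_eq_zero fun j _ => ?_
    rw [rho, if_neg (fun h => hB' h.symm), zero_mul]
  · intro h
    exact absurd (Finset.mem_univ _) h

/-- A vector fixed by `g` has only the constant coordinate in the blocks on which `g` acts
nontrivially. -/
private theorem A10_fixed (ℓ : Fin n → Fin r → k) {m : Fin n → ℕ} (hm : ∀ B, m B ≤ p)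
    (g : Fin r → ZMod p) (x : Ix n m → k) (hx : (rho ℓ m g).mulVec x = x) (B : Fin n)
    (hg : ell ℓ B g ≠ 0) : ∀ (d : ℕ) (i : Fin (m B)), m B ≤ (i : ℕ) + d → (i : ℕ) ≠ 0 →
      x ⟨B, i⟩ = 0 := by
  intro d
  induction d with
  | zero =>
    intro i hi _
    have := i.2
    omega
  | succ d ih =>
    intro i hi h0
    have hi1 : (i : ℕ) - 1 < m B := by
      have := i.2
      omega
    set i' : Fin (m B) := ⟨(i : ℕ) - 1, hi1⟩ with hi'
    have hv : (i' : ℕ) = (i : ℕ) - 1 := rfl
    have h1 : (rho ℓ m g).mulVec x ⟨B, i'⟩ = x ⟨B, i'⟩ := congrFun hx _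
    rw [A10_mulVec] at h1
    have hne : i' ≠ i := by
      intro h
      have h2 : (i' : ℕ) = (i : ℕ) := congrArg (fun t : Fin (m B) => (t : ℕ)) h
      omega
    rw [Fintype.sum_eq_add i' i hne] at h1
    · rw [Nat.choose_self, Nat.sub_self, pow_zero, Nat.cast_one, one_mul, one_mul] at h1
      have h2 : ((i : ℕ).choose (i' : ℕ) : k) * ell ℓ B g ^ ((i : ℕ) - (i' : ℕ)) * x ⟨B, i⟩
          = 0 := by
        have h3 := h1
        rwa [add_eq_left] at h3
      have h4 : (i : ℕ) - (i' : ℕ) = 1 := by omega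
      have h5 : (i : ℕ).choose (i' : ℕ) = (i : ℕ) := by
        obtain ⟨t, ht⟩ : ∃ t, (i : ℕ) = t + 1 := ⟨(i : ℕ) - 1, by omega⟩
        have h6 : (i' : ℕ) = t := by omega
        rw [h6, ht]
        exact Nat.choose_succ_self_right t
      rw [h4, h5, pow_one] at h2
      have h6 : ((i : ℕ) : k) ≠ 0 := by
        intro h7
        rw [CharP.cast_eq_zero_iff k p] at h7
        have h8 := Nat.le_of_dvd (by omega) h7
        have h9 := hm B
        have h10 := i.2
        omega
      rcases mul_eq_zero.1 h2 with h7 | h7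
      · rcases mul_eq_zero.1 h7 with h8 | h8
        · exact absurd h8 h6
        · exact absurd h8 hg
      · exact h7
    · rintro j ⟨hj1, hj2⟩
      rcases lt_or_ge (j : ℕ) (i' : ℕ) with h2 | h2
      · rw [Nat.choose_eq_zero_of_lt h2, Nat.cast_zero, zero_mul, zero_mul]
      · have h3 : (j : ℕ) ≠ (i' : ℕ) := fun h => hj1 (Fin.ext h)
        have h4 : (j : ℕ) ≠ (i : ℕ) := fun h => hj2 (Fin.ext h)
        rw [ih j (by omega) (by omega), mul_zero]

/-- A polynomial of degree `< p` with `P(X + a) = P(X)`, `a ≠ 0`, is constant. -/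
theorem mem_fixedSp_iff (ℓ : Fin n → Fin r → k) {m : Fin n → ℕ} (hm : ∀ B, m B ≤ p)
    (c : Par p r k) (x : Ix n m → k) :
    x ∈ fixedSp ℓ m c ↔ ∀ a, lev ℓ c a.1 a.2 ≠ 0 → x a = 0 := by
  constructor
  · rintro hx ⟨B, i⟩ ha
    have h0 : (i : ℕ) ≠ 0 := by
      intro h
      apply ha
      simp only
      rw [h, lev_zero]
    have h1 : hB ℓ c B ≠ 0 := by
      intro h
      exact ha ((hB_eq_zero_iff ℓ c B i (by omega)).1 h)
    have h2 : ∃ g ∈ Hc c, ell ℓ B g ≠ 0 := by
      by_contra hcon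
      push Not at hcon
      exact h1 (hB_eq_zero_of_fixed ℓ c B hcon)
    obtain ⟨g, hg, hg2⟩ := h2
    exact A10_fixed ℓ hm g x (hx g hg) B hg2 (m B) i (by omega) h0
  · intro hx g hg
    funext a
    obtain ⟨B, i⟩ := a
    rw [A10_mulVec]
    by_cases h1 : ell ℓ B g = 0
    · rw [Finset.sum_eq_single i]
      · rw [Nat.choose_self, Nat.sub_self, pow_zero, Nat.cast_one, one_mul, one_mul]
      · intro j _ hj
        rcases lt_or_ge (j : ℕ) (i : ℕ) with h2 | h2
        · rw [Nat.choose_eq_zero_of_lt h2, Nat.cast_zero, zero_mul, zero_mul]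
        · have h3 : (j : ℕ) ≠ (i : ℕ) := fun h => hj (Fin.ext h)
          rw [h1, zero_pow (by omega), mul_zero, zero_mul]
      · intro h
        exact absurd (Finset.mem_univ _) h
    · have h2 : hB ℓ c B ≠ 0 := fun h => h1 (ell_eq_zero_of_hB ℓ c B h g hg)
      have h3 : ∀ j : Fin (m B), (j : ℕ) ≠ 0 → x ⟨B, j⟩ = 0 := by
        intro j hj
        apply hx
        intro h4
        exact h2 ((hB_eq_zero_iff ℓ c B j (by omega)).2 h4)
      by_cases h4 : (i : ℕ) = 0
      · rw [Finset.sum_eq_single i]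
        · rw [Nat.choose_self, Nat.sub_self, pow_zero, Nat.cast_one, one_mul, one_mul]
        · intro j _ hj
          have h5 : (j : ℕ) ≠ (i : ℕ) := fun h => hj (Fin.ext h)
          rw [h3 j (by omega), mul_zero]
        · intro h
          exact absurd (Finset.mem_univ _) h
      · rw [h3 i h4]
        refine Finset.sum_eq_zero fun j _ => ?_
        by_cases h5 : (j : ℕ) = 0
        · rw [h5, Nat.choose_eq_zero_of_lt (by omega), Nat.cast_zero, zero_mul, zero_mul]
        · rw [h3 j h5, mul_zero]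

open Classical in
theorem codim_eq (ℓ : Fin n → Fin r → k) {m : Fin n → ℕ} (hm : ∀ B, m B ≤ p)
    (c : Par p r k) :
    (dimV m : ℤ) - Module.finrank k (fixedSp ℓ m c) =
      ((Finset.univ.filter fun b : Bx n m => lev ℓ c b.1.1 b.1.2 ≠ 0).card : ℤ) := by
  set I : Set (Ix n m) := {a | lev ℓ c a.1 a.2 = 0} with hI
  set J : Set (Ix n m) := {a | lev ℓ c a.1 a.2 ≠ 0} with hJ
  have hd : Disjoint I J := by
    rw [Set.disjoint_left]
    intro a ha hb
    exact hb ha
  have hu : Set.univ ⊆ I ∪ J := fun a _ => Classical.em (a ∈ I)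
  have h1 : fixedSp ℓ m c =
      ⨅ i ∈ J, LinearMap.ker (LinearMap.proj (R := k) (φ := fun _ => k) i) := by
    ext x
    rw [mem_fixedSp_iff ℓ hm]
    simp only [Submodule.mem_iInf, LinearMap.mem_ker, LinearMap.proj_apply]
    rfl
  have h2 : Module.finrank k (fixedSp ℓ m c) = Fintype.card I := by
    rw [h1, (LinearMap.iInfKerProjEquiv k (fun _ : Ix n m => k) hd hu).finrank_eq]
    exact Module.finrank_fintype_fun_eq_card k
  have h3 : dimV m = Fintype.card (Ix n m) := by
    rw [Fintype.card_sigma, dimV]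
    exact Finset.sum_congr rfl fun B _ => (Fintype.card_fin _).symm
  have h4 : (Finset.univ.filter fun b : Bx n m => lev ℓ c b.1.1 b.1.2 ≠ 0).card =
      Fintype.card J := by
    rw [← Fintype.card_subtype]
    refine Fintype.card_congr ⟨fun b => ⟨b.1.1, b.2⟩, fun a => ⟨⟨a.1, ?_⟩, a.2⟩,
      fun _ => rfl, fun _ => rfl⟩
    intro h
    apply a.2
    change lev ℓ c a.1.1 a.1.2 = 0
    rw [h, lev_zero]
  have h5 : Fintype.card I + Fintype.card J = Fintype.card (Ix n m) := by
    have h6 := Fintype.card_subtype_compl (fun a : Ix n m => a ∈ I)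
    have h7 : Fintype.card {a : Ix n m // ¬ a ∈ I} = Fintype.card J := Fintype.card_congr
      (Equiv.refl _)
    have h8 : Fintype.card {a : Ix n m // a ∈ I} ≤ Fintype.card (Ix n m) :=
      Fintype.card_subtype_le _
    have h9 : Fintype.card I = Fintype.card {a : Ix n m // a ∈ I} := rfl
    omega
  rw [h2, h3, h4, ← h5]
  push_cast
  ring

end Pool.Agent.WD
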