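import Pool.Agent.WD.A1

/-! # The roots of the Artin-Schreier equations (piece A2) -/

namespace Pool.Agent.WD

universe u

variable {p : ℕ} [Fact p.Prime] {k : Type u} [Field k] [CharP k p] [PerfectRing k p] {r : ℕ}

omit [CharP k p] [PerfectRing k p] [Field k] in
private theorem A2_exp {j j' n m : ℕ} (hj : ¬ p ∣ j) (hj' : ¬ p ∣ j')
    (h : -(j : ℚ) / (p : ℚ) ^ (n + 1) = -(j' : ℚ) / (p : ℚ) ^ (m + 1)) : j = j' ∧ n = m := by
  have hp : p.Prime := Fact.out
  have hp0 : (p : ℚ) ≠ 0 := by exact_mod_cast hp.ne_zero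
  rw [div_eq_div_iff (pow_ne_zero _ hp0) (pow_ne_zero _ hp0)] at h
  have h1 : (j : ℚ) * (p : ℚ) ^ (m + 1) = (j' : ℚ) * (p : ℚ) ^ (n + 1) := by linarith
  have h2 : j * p ^ (m + 1) = j' * p ^ (n + 1) := by exact_mod_cast h1
  have key : ∀ (a b x y : ℕ), ¬ p ∣ a → a * p ^ (x + 1) = b * p ^ (y + 1) → y ≤ x := by
    intro a b x y ha hab
    by_contra hlt
    push Not at hlt
    obtain ⟨d, rfl⟩ := Nat.exists_eq_add_of_lt hlt
    apply ha
    have h3 : a * p ^ (x + 1) = (b * p ^ d * p) * p ^ (x + 1) := by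
      rw [hab]; ring
    have h4 := Nat.eq_of_mul_eq_mul_right (pow_pos hp.pos _) h3
    exact ⟨b * p ^ d, by rw [h4]; ring⟩
  have h3 := key j j' m n hj h2
  have h4 := key j' j n m hj' h2.symm
  have h5 : n = m := le_antisymm h3 h4
  subst h5
  exact ⟨Nat.eq_of_mul_eq_mul_right (pow_pos hp.pos _) h2, rfl⟩

omit [CharP k p] [PerfectRing k p] [Field k] in
private theorem A2_exp' {j n m : ℕ} (hj : j ≠ 0)
    (h : -(j : ℚ) / (p : ℚ) ^ (n + 1) = -(j : ℚ) / (p : ℚ) ^ (m + 1)) : n = m := by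
  have hp : p.Prime := Fact.out
  have hp0 : (p : ℚ) ≠ 0 := by exact_mod_cast hp.ne_zero
  rw [div_eq_div_iff (pow_ne_zero _ hp0) (pow_ne_zero _ hp0)] at h
  have h1 : (j : ℚ) * (p : ℚ) ^ (m + 1) = (j : ℚ) * (p : ℚ) ^ (n + 1) := by linarith
  have h2 : j * p ^ (m + 1) = j * p ^ (n + 1) := by exact_mod_cast h1
  have h3 := Nat.eq_of_mul_eq_mul_left (Nat.pos_of_ne_zero hj) h2
  have h4 := Nat.pow_right_injective hp.two_le h3
  omega

private theorem A2_iter (a : k) (m : ℕ) :
    ((fun x : k => (frobeniusEquiv k p).symm x)^[m] a) ^ p ^ m = a := by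
  induction m with
  | zero => simp
  | succ m ih =>
    rw [Function.iterate_succ_apply', pow_succ', pow_mul, frobeniusEquiv_symm_pow_p, ih]

theorem asSeries_coeff_at (j : ℕ) (hj : j ≠ 0) (a : k) (n : ℕ) :
    ((asSeries p j a).coeff (-(j : ℚ) / (p : ℚ) ^ (n + 1))) ^ (p ^ (n + 1)) = a := by
  classical
  have h1 : ∃ m : ℕ, -(j : ℚ) / (p : ℚ) ^ (n + 1) = -(j : ℚ) / (p : ℚ) ^ (m + 1) := ⟨n, rfl⟩
  have h2 : (asSeries p j a).coeff (-(j : ℚ) / (p : ℚ) ^ (n + 1)) =
      (fun x : k => (frobeniusEquiv k p).symm x)^[n + 1] a := by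
    show asCoeff p j a _ = _
    unfold asCoeff
    rw [dif_pos h1]
    have h3 := Nat.find_spec h1
    have h4 := A2_exp' hj h3
    rw [← h4]
  rw [h2, A2_iter]

theorem asSeries_coeff_ne (j : ℕ) (a : k) (q : ℚ)
    (h : ∀ n : ℕ, q ≠ -(j : ℚ) / (p : ℚ) ^ (n + 1)) : (asSeries p j a).coeff q = 0 := by
  show asCoeff p j a q = 0
  unfold asCoeff
  rw [dif_neg]
  rintro ⟨n, hn⟩
  exact h n hn

/-- Compare coefficients with `coeff_pow_p`. -/
theorem asSeries_eq (j : ℕ) (hj : ¬ p ∣ j) (a : k) :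
    asSeries p j a ^ p - asSeries p j a = toOm k (HahnSeries.single (-(j : ℤ)) a) := by
  classical
  have hp : p.Prime := Fact.out
  have hp0 : (p : ℚ) ≠ 0 := by exact_mod_cast hp.ne_zero
  have hj0 : j ≠ 0 := fun h => hj (h ▸ dvd_zero p)
  have hjq : (j : ℚ) ≠ 0 := by exact_mod_cast hj0
  ext q
  rw [HahnSeries.coeff_sub, coeff_pow_p]
  -- the exponent `-j` is not of the form `-j / p ^ (n + 1)`
  have hne : ∀ n : ℕ, -(j : ℚ) ≠ -(j : ℚ) / (p : ℚ) ^ (n + 1) := by
    intro n h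
    rw [eq_div_iff (pow_ne_zero _ hp0)] at h
    have h1 : (p : ℚ) ^ (n + 1) = 1 := by
      have h2 : -(j : ℚ) * (p : ℚ) ^ (n + 1) = -(j : ℚ) * 1 := by rw [h, mul_one]
      exact mul_left_cancel₀ (neg_ne_zero.2 hjq) h2
    have h3 : p ^ (n + 1) = 1 := by exact_mod_cast h1
    have h4 := Nat.one_lt_pow (Nat.succ_ne_zero n) hp.one_lt
    exact (ne_of_gt h4) h3
  by_cases hq : q = -(j : ℚ)
  · subst hq
    have h1 : (toOm k (HahnSeries.single (-(j : ℤ)) a)).coeff (-(j : ℚ)) = a := by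
      have h2 := toOm_coeff_int (HahnSeries.single (-(j : ℤ)) a) (-(j : ℤ))
      rw [HahnSeries.coeff_single_same] at h2
      push_cast at h2
      exact h2
    rw [h1, asSeries_coeff_ne j a _ hne, sub_zero]
    have h2 := asSeries_coeff_at (p := p) j hj0 a 0
    simpa using h2
  · have h1 : (toOm k (HahnSeries.single (-(j : ℤ)) a)).coeff q = 0 := by
      by_cases hi : ∃ i : ℤ, q = i
      · obtain ⟨i, rfl⟩ := hi
        rw [toOm_coeff_int, HahnSeries.coeff_single_of_ne]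
        intro h
        apply hq
        rw [h]
        push_cast
        rfl
      · push Not at hi
        exact toOm_coeff_not _ _ hi
    rw [h1, sub_eq_zero]
    by_cases hn : ∃ n : ℕ, q = -(j : ℚ) / (p : ℚ) ^ (n + 1)
    · obtain ⟨n, rfl⟩ := hn
      have h2 := asSeries_coeff_at (p := p) j hj0 a n
      have h3 := asSeries_coeff_at (p := p) j hj0 a (n + 1)
      have h4 : -(j : ℚ) / (p : ℚ) ^ (n + 1 + 1) = -(j : ℚ) / (p : ℚ) ^ (n + 1) / p := by
        rw [pow_succ _ (n + 1), div_div]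
      rw [h4, pow_succ' p (n + 1), pow_mul] at h3
      apply iterateFrobenius_inj k p (n + 1)
      rw [iterateFrobenius_def, iterateFrobenius_def, h2, h3]
    · push Not at hn
      rw [asSeries_coeff_ne j a q hn, asSeries_coeff_ne j a (q / p), zero_pow hp.ne_zero]
      intro n h
      rw [div_eq_iff hp0] at h
      rcases n with _ | n
      · apply hq
        rw [h, zero_add, pow_one, div_mul_cancel₀ _ hp0]
      · apply hn n
        rw [h, pow_succ _ (n + 1)]
        field_simp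

theorem root_eq (c : Par p r k) (s : Fin r) :
    root p c s ^ p - root p c s = algebraMap (LaurentSeries k) (Om k) (polar c s) := by
  classical
  have hp : p.Prime := Fact.out
  have : CharP (Om k) p := charP_of_injective_ringHom (f := (HahnSeries.C : k →+* Om k))
    HahnSeries.C_injective p
  have h0 : algebraMap (LaurentSeries k) (Om k) = toOm k := rfl
  rw [h0]
  unfold root polar
  rw [Finsupp.sum, Finsupp.sum, map_sum]
  have h1 : (∑ x ∈ c.support, if x.1 = s then asSeries p x.2.1 (c x) else 0) ^ p =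
      ∑ x ∈ c.support, (if x.1 = s then asSeries p x.2.1 (c x) else 0) ^ p := by
    exact map_sum (frobenius (Om k) p) _ _
  rw [h1, ← Finset.sum_sub_distrib]
  refine Finset.sum_congr rfl fun x _ => ?_
  split_ifs with hx
  · exact asSeries_eq x.2.1 x.2.2 (c x)
  · rw [zero_pow hp.ne_zero, sub_zero, map_zero]

private theorem A2_root_coeff (c : Par p r k) (s : Fin r) (q : ℚ) :
    (root p c s).coeff q =
      ∑ x ∈ c.support, if x.1 = s then (asSeries p x.2.1 (c x)).coeff q else 0 := by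
  classical
  unfold root
  rw [Finsupp.sum, HahnSeries.coeff_sum]
  refine Finset.sum_congr rfl fun x _ => ?_
  split_ifs
  · rfl
  · rfl

theorem root_coeff_at (c : Par p r k) (s : Fin r) (j : Jp p) (n : ℕ) :
    ((root p c s).coeff (-(j.1 : ℚ) / (p : ℚ) ^ (n + 1))) ^ (p ^ (n + 1)) = c (s, j) := by
  classical
  have hp : p.Prime := Fact.out
  have hj0 : j.1 ≠ 0 := fun h => j.2 (h ▸ dvd_zero p)
  have h1 : (root p c s).coeff (-(j.1 : ℚ) / (p : ℚ) ^ (n + 1)) =
      (asSeries p j.1 (c (s, j))).coeff (-(j.1 : ℚ) / (p : ℚ) ^ (n + 1)) := by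
    rw [A2_root_coeff, Finset.sum_eq_single (s, j)]
    · rw [if_pos rfl]
    · rintro ⟨s', j'⟩ _ hx
      split_ifs with hs
      · apply asSeries_coeff_ne
        intro m h
        apply hx
        have h2 := (A2_exp j.2 j'.2 h).1
        have hs' : s' = s := hs
        rw [hs', Subtype.ext h2]
      · rfl
    · intro h
      rw [if_pos rfl, Finsupp.notMem_support_iff.1 h]
      have h2 := asSeries_coeff_at (p := p) j.1 hj0 (0 : k) n
      exact pow_eq_zero_iff (pow_ne_zero _ hp.ne_zero) |>.1 h2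
  rw [h1]
  exact asSeries_coeff_at j.1 hj0 _ n

theorem root_coeff_ne (c : Par p r k) (s : Fin r) (q : ℚ)
    (h : ∀ (j : Jp p) (n : ℕ), q ≠ -(j.1 : ℚ) / (p : ℚ) ^ (n + 1)) :
    (root p c s).coeff q = 0 := by
  classical
  rw [A2_root_coeff]
  refine Finset.sum_eq_zero fun x _ => ?_
  split_ifs
  · exact asSeries_coeff_ne _ _ _ fun n => h x.2 n
  · rfl

end Pool.Agent.WD
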