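import Pool.Agent.WD.Lev
import Pool.Agent.WD.A2

/-! # The order of `h_B` (piece A3) -/

namespace Pool.Agent.WD

universe u

variable {p : ℕ} [Fact p.Prime] {k : Type u} [Field k] [CharP k p] [PerfectRing k p] {r n : ℕ}

private theorem A3_coeff (ℓ : Fin n → Fin r → k) (c : Par p r k) (B : Fin n) (q : ℚ) :
    (hB ℓ c B).coeff q = ∑ s, ℓ B s * (root p c s).coeff q := by
  unfold hB
  rw [HahnSeries.coeff_sum]
  refine Finset.sum_congr rfl fun s _ => ?_
  rw [HahnSeries.C_mul_eq_smul, HahnSeries.coeff_smul, smul_eq_mul]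

theorem hB_coeff_at (ℓ : Fin n → Fin r → k) (c : Par p r k) (B : Fin n) (j : Jp p) (e : ℕ) :
    ((hB ℓ c B).coeff (-(j.1 : ℚ) / (p : ℚ) ^ (e + 1))) ^ (p ^ (e + 1)) =
      tst p ℓ B (e + 1) (fun s => c (s, j)) := by
  rw [A3_coeff, tst, ← iterateFrobenius_def, map_sum]
  refine Finset.sum_congr rfl fun s _ => ?_
  rw [iterateFrobenius_def, mul_pow, root_coeff_at]

theorem hB_coeff_ne (ℓ : Fin n → Fin r → k) (c : Par p r k) (B : Fin n) (q : ℚ)
    (h : ∀ (j : Jp p) (e : ℕ), q ≠ -(j.1 : ℚ) / (p : ℚ) ^ (e + 1)) :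
    (hB ℓ c B).coeff q = 0 := by
  rw [A3_coeff]
  refine Finset.sum_eq_zero fun s _ => ?_
  rw [root_coeff_ne c s q h, mul_zero]

/-- the order of `h_B` is `-j/p^(e+1)` with `j` prime to `p` -/
theorem orderTop_hB (ℓ : Fin n → Fin r → k) (c : Par p r k) (B : Fin n) :
    hB ℓ c B = 0 ∨ ∃ (j : Jp p) (e : ℕ),
      (hB ℓ c B).orderTop = ((-(j.1 : ℚ) / (p : ℚ) ^ (e + 1) : ℚ) : WithTop ℚ) := by
  by_cases h0 : hB ℓ c B = 0
  · exact Or.inl h0
  · right
    obtain ⟨q, hq⟩ := WithTop.ne_top_iff_exists.1 (HahnSeries.orderTop_ne_top.2 h0)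
    have h1 := HahnSeries.coeff_orderTop_ne hq.symm
    by_contra hne
    push Not at hne
    apply h1
    apply hB_coeff_ne
    intro j e hqe
    apply hne j e
    rw [← hq, hqe]

private theorem A3_pow (x : Om k) (q : ℚ) (hx : x.orderTop = (q : WithTop ℚ)) (i : ℕ) :
    (x ^ i).orderTop = (((i : ℚ) * q : ℚ) : WithTop ℚ) := by
  induction i with
  | zero =>
    rw [pow_zero, HahnSeries.orderTop_one, Nat.cast_zero, zero_mul]
    rfl
  | succ i ih =>
    rw [pow_succ, HahnSeries.orderTop_mul, ih, hx, ← WithTop.coe_add]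
    congr 1
    push_cast
    ring

theorem orderTop_hB_pow_iff (ℓ : Fin n → Fin r → k) (c : Par p r k) (B : Fin n) (i M : ℕ)
    (hi : 1 ≤ i) :
    0 ≤ (HahnSeries.single (M : ℚ) (1 : k) * hB ℓ c B ^ i).orderTop ↔ Below ℓ c B i M := by
  have hp : p.Prime := Fact.out
  have hi0 : (0 : ℚ) < i := by exact_mod_cast hi
  rcases orderTop_hB ℓ c B with h0 | ⟨j0, e0, h0⟩
  · constructor
    · intro _ e he j _
      obtain ⟨e', rfl⟩ : ∃ e', e = e' + 1 := ⟨e - 1, by omega⟩
      rw [← hB_coeff_at, h0, HahnSeries.coeff_zero, zero_pow (pow_ne_zero _ hp.ne_zero)]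
    · intro _
      rw [h0, zero_pow (by omega), mul_zero, HahnSeries.orderTop_zero]
      exact le_top
  · have h1 : (HahnSeries.single (M : ℚ) (1 : k) * hB ℓ c B ^ i).orderTop =
        (((M : ℚ) + i * (-(j0.1 : ℚ) / (p : ℚ) ^ (e0 + 1)) : ℚ) : WithTop ℚ) := by
      rw [HahnSeries.orderTop_mul, HahnSeries.orderTop_single one_ne_zero, A3_pow _ _ h0,
        ← WithTop.coe_add]
    rw [h1, ← WithTop.coe_zero, WithTop.coe_le_coe]
    have hlt : ∀ (j : Jp p) (e : ℕ), p ^ (e + 1) * M < i * j.1 ↔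
        (M : ℚ) + i * (-(j.1 : ℚ) / (p : ℚ) ^ (e + 1)) < 0 := by
      intro j e
      have hpe : (0 : ℚ) < (p : ℚ) ^ (e + 1) := by
        have : (0 : ℚ) < p := by exact_mod_cast hp.pos
        positivity
      have h2 : (M : ℚ) + i * (-(j.1 : ℚ) / (p : ℚ) ^ (e + 1)) =
          ((p : ℚ) ^ (e + 1) * M - i * j.1) / (p : ℚ) ^ (e + 1) := by
        field_simp
        ring
      rw [h2, div_neg_iff]
      constructor
      · intro h
        right
        refine ⟨?_, hpe⟩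
        have h3 : ((p ^ (e + 1) * M : ℕ) : ℚ) < ((i * j.1 : ℕ) : ℚ) := by exact_mod_cast h
        push_cast at h3
        linarith
      · rintro (⟨_, h⟩ | ⟨h, _⟩)
        · linarith
        · have h3 : ((p ^ (e + 1) * M : ℕ) : ℚ) < ((i * j.1 : ℕ) : ℚ) := by
            push_cast
            linarith
          exact_mod_cast h3
    constructor
    · intro h e he j hj
      obtain ⟨e', rfl⟩ : ∃ e', e = e' + 1 := ⟨e - 1, by omega⟩
      have h2 := (hlt j e').1 hj
      have h3 : -(j.1 : ℚ) / (p : ℚ) ^ (e' + 1) < -(j0.1 : ℚ) / (p : ℚ) ^ (e0 + 1) := by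
        have h4 : (i : ℚ) * (-(j.1 : ℚ) / (p : ℚ) ^ (e' + 1)) <
            i * (-(j0.1 : ℚ) / (p : ℚ) ^ (e0 + 1)) := by linarith
        exact lt_of_mul_lt_mul_left h4 hi0.le
      have h4 : (hB ℓ c B).coeff (-(j.1 : ℚ) / (p : ℚ) ^ (e' + 1)) = 0 := by
        apply HahnSeries.coeff_eq_zero_of_lt_orderTop
        rw [h0, WithTop.coe_lt_coe]
        exact h3
      rw [← hB_coeff_at, h4, zero_pow (pow_ne_zero _ hp.ne_zero)]
    · intro h
      by_contra hneg
      push Not at hneg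
      have h2 := h (e0 + 1) (by omega) j0 ((hlt j0 e0).2 hneg)
      rw [← hB_coeff_at] at h2
      exact HahnSeries.coeff_orderTop_ne h0 (pow_eq_zero_iff (pow_ne_zero _ hp.ne_zero) |>.1 h2)

theorem hB_eq_zero_iff (ℓ : Fin n → Fin r → k) (c : Par p r k) (B : Fin n) (i : ℕ)
    (hi : 1 ≤ i) : hB ℓ c B = 0 ↔ lev ℓ c B i = 0 := by
  have hp : p.Prime := Fact.out
  rw [← Nat.le_zero, lev_le_iff hp.one_lt.le, ← orderTop_hB_pow_iff ℓ c B i 0 hi]
  constructor
  · intro h0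
    rw [h0, zero_pow (by omega), mul_zero, HahnSeries.orderTop_zero]
    exact le_top
  · intro h
    rcases orderTop_hB ℓ c B with h0 | ⟨j0, e0, h0⟩
    · exact h0
    · exfalso
      have hj0 : (0 : ℚ) < (j0.1 : ℚ) := by
        have : j0.1 ≠ 0 := fun h => j0.2 (h ▸ dvd_zero p)
        exact_mod_cast Nat.pos_of_ne_zero this
      have hi0 : (0 : ℚ) < i := by exact_mod_cast hi
      have hpe : (0 : ℚ) < (p : ℚ) ^ (e0 + 1) := by
        have : (0 : ℚ) < p := by exact_mod_cast hp.pos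
        positivity
      rw [HahnSeries.orderTop_mul, HahnSeries.orderTop_single one_ne_zero, A3_pow _ _ h0,
        ← WithTop.coe_add, ← WithTop.coe_zero, WithTop.coe_le_coe] at h
      have h2 : (i : ℚ) * (-(j0.1 : ℚ) / (p : ℚ) ^ (e0 + 1)) < 0 := by
        apply mul_neg_of_pos_of_neg hi0
        apply div_neg_of_neg_of_pos _ hpe
        linarith
      push_cast at h
      linarith

end Pool.Agent.WD
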