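import Pool.Agent.WD.A2

/-! # Galois theory of `L_c / K` (piece A4) -/

namespace Pool.Agent.WD

universe u

variable {p : ℕ} [Fact p.Prime] {k : Type u} [Field k] [CharP k p] [PerfectRing k p] {r : ℕ}

open Polynomial in
/-- the Artin-Schreier polynomial of `f` -/
private noncomputable def asP (p : ℕ) {F : Type*} [Field F] (f : F) : F[X] :=
  X ^ p - (X + C f)

open Polynomial in
private theorem A4_degree {F : Type*} [Field F] (f : F) : (asP p f).natDegree = p := by
  have hp : 1 < p := (Fact.out : p.Prime).one_lt
  unfold asP
  rw [natDegree_sub_eq_left_of_natDegree_lt]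
  · exact natDegree_X_pow p
  · rw [natDegree_X_pow, natDegree_X_add_C]
    exact hp

open Polynomial in
private theorem A4_ne {F : Type*} [Field F] (f : F) : asP p f ≠ 0 := by
  intro h
  have h1 := A4_degree (p := p) f
  rw [h, natDegree_zero] at h1
  exact (Fact.out : p.Prime).ne_zero h1.symm

open Polynomial in
private theorem A4_monic {F : Type*} [Field F] (f : F) : (asP p f).Monic := by
  have hp : 1 < p := (Fact.out : p.Prime).one_lt
  unfold asP
  apply Monic.sub_of_left (monic_X_pow p)
  rw [degree_X_pow, degree_X_add_C]
  exact_mod_cast hp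

omit [Fact p.Prime] in
open Polynomial in
private theorem A4_eval {F E : Type*} [Field F] [Field E] [Algebra F E] (f : F) (x : E) :
    aeval x (asP p f) = x ^ p - x - algebraMap F E f := by
  unfold asP
  simp only [map_sub, map_add, map_pow, aeval_X, aeval_C]
  ring

omit [Fact p.Prime] in
open Polynomial in
private theorem A4_map {F E : Type*} [Field F] [Field E] [Algebra F E] (f : F) :
    (asP p f).map (algebraMap F E) = asP p (algebraMap F E f) := by
  unfold asP
  simp only [Polynomial.map_sub, Polynomial.map_add, Polynomial.map_pow, map_X, map_C]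

omit [Fact p.Prime] in
open Polynomial in
private theorem A4_sep {F : Type*} [Field F] [CharP F p] (f : F) : (asP p f).Separable := by
  have h : derivative (asP p f) = -1 := by
    unfold asP
    rw [derivative_sub, derivative_add, derivative_X_pow, derivative_X, derivative_C, add_zero,
      CharP.cast_eq_zero, map_zero, zero_mul, zero_sub]
  rw [separable_def, h]
  exact IsCoprime.symm ⟨-1, 0, by ring⟩

omit [PerfectRing k p] [Fact p.Prime] in
private theorem A4_charK : CharP (LaurentSeries k) p :=
  charP_of_injective_ringHom (f := (HahnSeries.C : k →+* LaurentSeries k))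
    HahnSeries.C_injective p

open Polynomial in
/-- the roots of an Artin-Schreier polynomial -/
private theorem A4_roots {F : Type*} [Field F] [DecidableEq F] [CharP F p] (φ : ZMod p →+* F) (f z : F)
    (hz : z ^ p - z = f) :
    (Finset.univ.image (fun g : ZMod p => z + φ g)).val ≤ (asP p f).roots := by
  rw [Finset.val_le_iff_val_subset]
  intro x hx
  rw [mem_roots (A4_ne f), IsRoot.def]
  rw [Finset.mem_val, Finset.mem_image] at hx
  obtain ⟨g, -, rfl⟩ := hx
  have h1 : (z + φ g) ^ p = z ^ p + φ g ^ p := add_pow_char _ _ _
  have h2 : φ g ^ p = φ g := by rw [← map_pow, ZMod.pow_card]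
  unfold asP
  simp only [eval_sub, eval_add, eval_pow, eval_X, eval_C]
  rw [h1, h2, ← hz]
  ring

private theorem A4_card {F : Type*} [Field F] (φ : ZMod p →+* F) (z : F) [DecidableEq F] :
    (Finset.univ.image (fun g : ZMod p => z + φ g)).card = p := by
  rw [Finset.card_image_of_injective, Finset.card_univ, ZMod.card]
  intro a b hab
  exact φ.injective (add_left_cancel hab)

open Polynomial in
private theorem A4_splits {F : Type*} [Field F] [CharP F p] (φ : ZMod p →+* F) (f z : F)
    (hz : z ^ p - z = f) : (asP p f).Splits := by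
  classical
  rw [splits_iff_card_roots]
  apply le_antisymm (card_roots' _)
  have h := Multiset.card_le_card (A4_roots φ f z hz)
  rw [Finset.card_val, A4_card] at h
  rwa [A4_degree]

open Polynomial in
private theorem A4_mem {F : Type*} [Field F] [CharP F p] (φ : ZMod p →+* F) (z x : F)
    (h : x ^ p - x = z ^ p - z) : ∃ g, x = z + φ g := by
  classical
  have h1 : (Finset.univ.image (fun g : ZMod p => z + φ g)).val = (asP p (z ^ p - z)).roots := by
    apply Multiset.eq_of_le_of_card_le (A4_roots φ _ z rfl)
    refine le_trans (card_roots' _) ?_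
    rw [A4_degree, Finset.card_val, A4_card]
  have h2 : x ∈ (asP p (z ^ p - z)).roots := by
    rw [mem_roots (A4_ne _), IsRoot.def]
    unfold asP
    simp only [eval_sub, eval_add, eval_pow, eval_X, eval_C]
    rw [← h]
    ring
  rw [← h1, Finset.mem_val, Finset.mem_image] at h2
  obtain ⟨g, -, hg⟩ := h2
  exact ⟨g, hg.symm⟩

private theorem A4_rootL (c : Par p r k) (s : Fin r) :
    rootL c s ^ p - rootL c s = algebraMap (LaurentSeries k) (Lc c) (polar c s) := by
  apply Subtype.ext
  exact root_eq c s

private theorem A4_integral (c : Par p r k) (s : Fin r) :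
    IsIntegral (LaurentSeries k) (root p c s) := by
  refine ⟨asP p (polar c s), A4_monic _, ?_⟩
  rw [← Polynomial.aeval_def, A4_eval, root_eq, sub_self]

private theorem A4_charL (c : Par p r k) : CharP (Lc c) p :=
  charP_of_injective_ringHom (f := cst c) (cst c).injective p

theorem finiteDim_Lc (c : Par p r k) : FiniteDimensional (LaurentSeries k) (Lc c) := by
  apply IntermediateField.finiteDimensional_adjoin
  rintro x ⟨s, rfl⟩
  exact A4_integral c s

/-- `L_c` is the splitting field of the separable polynomial `∏_s (X^p - X - f_s)`. -/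
theorem isGalois_Lc (c : Par p r k) : IsGalois (LaurentSeries k) (Lc c) := by
  have : CharP (LaurentSeries k) p := A4_charK
  have : CharP (Lc c) p := A4_charL c
  have : FiniteDimensional (LaurentSeries k) (Lc c) := finiteDim_Lc c
  have hdvd : ∀ s, minpoly (LaurentSeries k) (root p c s) ∣ asP p (polar c s) := by
    intro s
    apply minpoly.dvd
    rw [A4_eval, root_eq, sub_self]
  have hsep : Algebra.IsSeparable (LaurentSeries k) (Lc c) := by
    unfold Lc
    rw [IntermediateField.isSeparable_adjoin_iff_isSeparable]
    rintro x ⟨s, rfl⟩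
    exact (A4_sep (polar c s)).of_dvd (hdvd s)
  have hnor : Normal (LaurentSeries k) (Lc c) := by
    rw [normal_iff]
    intro x
    refine ⟨IsIntegral.of_finite _ x, ?_⟩
    rw [IntermediateField.minpoly_eq]
    refine IntermediateField.splits_of_mem_adjoin (F := LaurentSeries k) (K := Om k)
      (L := Lc c) (S := Set.range (root p c)) ?_ x.2
    rintro y ⟨s, rfl⟩
    refine ⟨A4_integral c s, ?_⟩
    have h1 : ((asP p (polar c s)).map (algebraMap (LaurentSeries k) (Lc c))).Splits := by
      rw [A4_map]
      exact A4_splits ((cst c).comp (fp p k)) _ (rootL c s) (A4_rootL c s)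
    refine h1.of_dvd ?_ (Polynomial.map_dvd _ (hdvd s))
    exact Polynomial.map_ne_zero (A4_ne _)
  exact { to_isSeparable := hsep, to_normal := hnor }

theorem corr_exists (c : Par p r k) (σ : Lc c ≃ₐ[LaurentSeries k] Lc c) : ∃ g, Corr c σ g := by
  have : CharP (Lc c) p := A4_charL c
  have h : ∀ s, ∃ g : ZMod p, σ (rootL c s) = rootL c s + cst c (fp p k g) := by
    intro s
    apply A4_mem ((cst c).comp (fp p k))
    rw [A4_rootL, ← σ.commutes, ← A4_rootL, map_sub, map_pow]
  choose g hg using h
  exact ⟨g, hg⟩

theorem corr_unique (c : Par p r k) (σ : Lc c ≃ₐ[LaurentSeries k] Lc c)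
    {g g' : Fin r → ZMod p} (h : Corr c σ g) (h' : Corr c σ g') : g = g' := by
  funext s
  have h1 := (h s).symm.trans (h' s)
  exact (fp p k).injective ((cst c).injective (add_left_cancel h1))

end Pool.Agent.WD
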