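import Pool.Agent.WD.A3
import Pool.Agent.WD.A5

/-! # The elements `t^M h_B^i` (piece A6) -/

namespace Pool.Agent.WD

universe u

variable {p : ℕ} [Fact p.Prime] {k : Type u} [Field k] [CharP k p] [PerfectRing k p] {r n : ℕ}

theorem coe_cst (c : Par p r k) (a : k) : (cst c a : Om k) = HahnSeries.C a := by
  change toOm k (HahnSeries.C a) = HahnSeries.C a
  exact HahnSeries.embDomainRingHom_C

theorem coe_hL (ℓ : Fin n → Fin r → k) (c : Par p r k) (B : Fin n) :
    (hL ℓ c B : Om k) = hB ℓ c B := by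
  unfold hL hB
  rw [← IntermediateField.algebraMap_apply, map_sum]
  refine Finset.sum_congr rfl fun s _ => ?_
  rw [map_mul, IntermediateField.algebraMap_apply, IntermediateField.algebraMap_apply, coe_cst]
  rfl

private theorem A6_cst (c : Par p r k) (σ : Lc c ≃ₐ[LaurentSeries k] Lc c) (a : k) :
    σ (cst c a) = cst c a := σ.commutes _

theorem sigma_hL (ℓ : Fin n → Fin r → k) (c : Par p r k) (B : Fin n)
    {σ : Lc c ≃ₐ[LaurentSeries k] Lc c} {g : Fin r → ZMod p} (h : Corr c σ g) :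
    σ (hL ℓ c B) = hL ℓ c B + cst c (ell ℓ B g) := by
  unfold hL ell
  rw [map_sum, map_sum, ← Finset.sum_add_distrib]
  refine Finset.sum_congr rfl fun s _ => ?_
  rw [map_mul, A6_cst, h s, map_mul]
  ring

private theorem A6_hL_zero (ℓ : Fin n → Fin r → k) (c : Par p r k) (B : Fin n)
    (h : hB ℓ c B = 0) : hL ℓ c B = 0 := by
  apply Subtype.ext
  rw [coe_hL, h]
  rfl

theorem ell_eq_zero_of_hB (ℓ : Fin n → Fin r → k) (c : Par p r k) (B : Fin n)
    (h : hB ℓ c B = 0) : ∀ g ∈ Hc c, ell ℓ B g = 0 := by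
  rintro g ⟨σ, hσ⟩
  have h1 := sigma_hL ℓ c B hσ
  rw [A6_hL_zero ℓ c B h, map_zero, zero_add] at h1
  exact (map_eq_zero (cst c)).1 h1.symm

private theorem A6_pow {x y : Om k} (h : x.orderTop ≤ y.orderTop) (i : ℕ) :
    (x ^ i).orderTop ≤ (y ^ i).orderTop := by
  induction i with
  | zero => rw [pow_zero, pow_zero]
  | succ i ih =>
    rw [pow_succ, pow_succ, HahnSeries.orderTop_mul, HahnSeries.orderTop_mul]
    exact add_le_add ih h

/-- For `i ≥ 1`; the case `i = 0` is trivial. The order of `h + const` is at least the order of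
`h` if `h ≠ 0`; if `h = 0` then (`sigma_hL`) all the constants are `0`. -/
theorem isIntegral_pow (ℓ : Fin n → Fin r → k) (c : Par p r k) (B : Fin n) (i M : ℕ)
    (hM : Below ℓ c B i M) :
    IsIntegral (PowerSeries k)
      (algebraMap (LaurentSeries k) (Lc c) (HahnSeries.single (M : ℤ) 1) * hL ℓ c B ^ i) := by
  have hs : ((algebraMap (LaurentSeries k) (Lc c) (HahnSeries.single (M : ℤ) 1) : Lc c) : Om k) =
      HahnSeries.single (M : ℚ) (1 : k) := by
    change toOm k (HahnSeries.single (M : ℤ) 1) = _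
    change HahnSeries.embDomain _ _ = _
    rw [HahnSeries.embDomain_single]
    rfl
  apply isIntegral_of_conj
  intro σ
  obtain ⟨g, hg⟩ := corr_exists c σ
  rw [map_mul, σ.commutes, map_pow, sigma_hL ℓ c B hg]
  have h1 : ((algebraMap (LaurentSeries k) (Lc c) (HahnSeries.single (M : ℤ) 1) *
      (hL ℓ c B + cst c (ell ℓ B g)) ^ i : Lc c) : Om k) =
      HahnSeries.single (M : ℚ) (1 : k) * (hB ℓ c B + HahnSeries.C (ell ℓ B g)) ^ i := by
    rw [← coe_hL, ← coe_cst c, ← hs]
    rfl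
  rw [h1]
  rcases Nat.eq_zero_or_pos i with hi | hi
  · rw [hi, pow_zero, mul_one, HahnSeries.orderTop_single one_ne_zero]
    exact_mod_cast Nat.zero_le M
  · by_cases h0 : hB ℓ c B = 0
    · rw [h0, ell_eq_zero_of_hB ℓ c B h0 g ⟨σ, hg⟩, map_zero, add_zero, zero_pow (by omega),
        mul_zero, HahnSeries.orderTop_zero]
      exact le_top
    · have h2 := (orderTop_hB_pow_iff ℓ c B i M hi).2 hM
      refine h2.trans ?_
      rw [HahnSeries.orderTop_mul, HahnSeries.orderTop_mul]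
      refine add_le_add le_rfl (A6_pow ?_ i)
      rcases orderTop_hB ℓ c B with h3 | ⟨j, e, h3⟩
      · exact absurd h3 h0
      · refine le_trans ?_ HahnSeries.min_orderTop_le_orderTop_add
        refine le_min le_rfl ?_
        have h4 : (0 : WithTop ℚ) ≤ (HahnSeries.C (ell ℓ B g) : Om k).orderTop := by
          have := HahnSeries.orderTop_single_le (Γ := ℚ) (a := 0) (r := ell ℓ B g)
          exact this
        refine le_trans ?_ h4
        rw [h3]
        have hp : p.Prime := Fact.out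
        have h5 : -(j.1 : ℚ) / (p : ℚ) ^ (e + 1) ≤ 0 := by
          have : (0 : ℚ) ≤ (j.1 : ℚ) / (p : ℚ) ^ (e + 1) := by positivity
          rw [neg_div]
          linarith
        exact_mod_cast h5

/-- `h_B ∈ K` only if `h_B = 0`, because all exponents of `h_B` are nonintegral. -/
theorem hB_eq_zero_of_fixed (ℓ : Fin n → Fin r → k) (c : Par p r k) (B : Fin n)
    (h : ∀ g ∈ Hc c, ell ℓ B g = 0) : hB ℓ c B = 0 := by
  have := finiteDim_Lc c
  have := isGalois_Lc c
  have hfix : ∀ σ : Lc c ≃ₐ[LaurentSeries k] Lc c, σ (hL ℓ c B) = hL ℓ c B := by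
    intro σ
    obtain ⟨g, hg⟩ := corr_exists c σ
    rw [sigma_hL ℓ c B hg, h g ⟨σ, hg⟩, map_zero, add_zero]
  obtain ⟨a, ha⟩ := (IsGalois.mem_range_algebraMap_iff_fixed (F := LaurentSeries k)
    (hL ℓ c B)).2 hfix
  have h1 : hB ℓ c B = toOm k a := by
    rw [← coe_hL, ← ha]
    rfl
  ext q
  rw [HahnSeries.coeff_zero]
  by_cases hq : ∃ z : ℤ, q = z
  · obtain ⟨z, rfl⟩ := hq
    apply hB_coeff_ne
    intro j e hje
    have hp : p.Prime := Fact.out
    have hp0 : (p : ℚ) ≠ 0 := by exact_mod_cast hp.ne_zero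
    apply j.2
    have h2 : (z : ℚ) * (p : ℚ) ^ (e + 1) = -(j.1 : ℚ) := by
      rw [hje]
      field_simp
    have h3 : z * (p : ℤ) ^ (e + 1) = -(j.1 : ℤ) := by exact_mod_cast h2
    have h4 : (p : ℤ) ∣ (j.1 : ℤ) := by
      rw [← dvd_neg, ← h3, pow_succ]
      exact ⟨z * (p : ℤ) ^ e, by ring⟩
    exact_mod_cast h4
  · push Not at hq
    rw [h1, toOm_coeff_not a q hq]

end Pool.Agent.WD
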