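import Pool.Agent.WD.A3

/-! # Orders of `∑ y_i h_B^i` (piece A7) -/

namespace Pool.Agent.WD

universe u

variable {p : ℕ} [Fact p.Prime] {k : Type u} [Field k] [CharP k p] [PerfectRing k p] {r n : ℕ}

private theorem A7_int {k : Type u} [Field k] {y : LaurentSeries k} (hy : toOm k y ≠ 0) :
    ∃ a : ℤ, (toOm k y).order = (a : ℚ) := by
  by_contra hne
  push Not at hne
  have h1 := toOm_coeff_not y _ hne
  rw [HahnSeries.coeff_order_eq_zero] at h1
  exact hy h1

/-- If the orders of the nonzero terms are pairwise distinct and the sum is integral, then all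
terms are integral. -/
private theorem A7_sum {k : Type u} [Field k] {m : ℕ} (x : Fin m → Om k)
    (hd : ∀ i j, i ≠ j → x i ≠ 0 → x j ≠ 0 → (x i).orderTop ≠ (x j).orderTop)
    (h : 0 ≤ (∑ i, x i).orderTop) (i : Fin m) : 0 ≤ (x i).orderTop := by
  classical
  by_contra hlt
  rw [not_le] at hlt
  obtain ⟨i0, -, hmin⟩ := Finset.exists_min_image Finset.univ (fun i => (x i).orderTop)
    ⟨i, Finset.mem_univ i⟩
  have h1 : (x i0).orderTop < 0 := lt_of_le_of_lt (hmin i (Finset.mem_univ i)) hlt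
  have h2 : x i0 ≠ 0 := by
    intro h0
    rw [h0, HahnSeries.orderTop_zero] at h1
    exact not_top_lt h1
  have h3 : ((x i0).order : WithTop ℚ) = (x i0).orderTop :=
    HahnSeries.order_eq_orderTop_of_ne_zero h2
  have h4 : (∑ i, x i).coeff (x i0).order ≠ 0 := by
    rw [HahnSeries.coeff_sum, Finset.sum_eq_single i0]
    · rw [Ne, HahnSeries.coeff_order_eq_zero]
      exact h2
    · intro j _ hj
      by_cases hj0 : x j = 0
      · rw [hj0, HahnSeries.coeff_zero]
      · apply HahnSeries.coeff_eq_zero_of_lt_orderTop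
        rw [h3]
        exact lt_of_le_of_ne (hmin j (Finset.mem_univ j)) (hd i0 j (Ne.symm hj) h2 hj0)
    · intro h0
      exact absurd (Finset.mem_univ i0) h0
  have h5 := HahnSeries.orderTop_le_of_coeff_ne_zero h4
  rw [h3] at h5
  exact absurd (h.trans h5) (not_le.2 h1)

/-- If `h_B ≠ 0`, the orders of the nonzero terms `y_i h_B^i`, `i < m ≤ p`, are pairwise distinct
(even modulo `ℤ`), so the order of the sum is the minimum of the orders. -/
theorem orderTop_terms (ℓ : Fin n → Fin r → k) (c : Par p r k) (B : Fin n) {m : ℕ} (hm : m ≤ p)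
    (y : Fin m → LaurentSeries k)
    (h : 0 ≤ (∑ i, toOm k (y i) * hB ℓ c B ^ (i : ℕ)).orderTop) (i : Fin m) :
    0 ≤ (toOm k (y i) * hB ℓ c B ^ (i : ℕ)).orderTop := by
  have hp : p.Prime := Fact.out
  refine A7_sum (fun i => toOm k (y i) * hB ℓ c B ^ (i : ℕ)) ?_ h i
  intro i j hij hi hj
  have hi1 : toOm k (y i) ≠ 0 := left_ne_zero_of_mul hi
  have hi2 : hB ℓ c B ^ (i : ℕ) ≠ 0 := right_ne_zero_of_mul hi
  have hj1 : toOm k (y j) ≠ 0 := left_ne_zero_of_mul hj
  have hj2 : hB ℓ c B ^ (j : ℕ) ≠ 0 := right_ne_zero_of_mul hj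
  have hv : (i : ℕ) ≠ j := fun e => hij (Fin.ext e)
  rcases orderTop_hB ℓ c B with h0 | ⟨l, e, he⟩
  · exfalso
    rw [h0] at hi2 hj2
    have h1 : (i : ℕ) = 0 := by
      by_contra hne
      exact hi2 (zero_pow hne)
    have h2 : (j : ℕ) = 0 := by
      by_contra hne
      exact hj2 (zero_pow hne)
    exact hv (by rw [h1, h2])
  · intro heq
    have hB0 : hB ℓ c B ≠ 0 := by
      intro h0
      rw [h0, HahnSeries.orderTop_zero] at he
      exact WithTop.top_ne_coe he
    have hord : (hB ℓ c B).order = -(l.1 : ℚ) / (p : ℚ) ^ (e + 1) := by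
      rw [← HahnSeries.order_eq_orderTop_of_ne_zero hB0] at he
      exact WithTop.coe_injective he
    obtain ⟨a, ha⟩ := A7_int hi1
    obtain ⟨b, hb⟩ := A7_int hj1
    rw [← HahnSeries.order_eq_orderTop_of_ne_zero hi,
      ← HahnSeries.order_eq_orderTop_of_ne_zero hj] at heq
    have h1 := WithTop.coe_injective heq
    rw [HahnSeries.order_mul hi1 hi2, HahnSeries.order_mul hj1 hj2, HahnSeries.order_pow,
      HahnSeries.order_pow, ha, hb, hord, nsmul_eq_mul, nsmul_eq_mul] at h1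
    have hpp : (p : ℚ) ^ (e + 1) ≠ 0 := by
      have := hp.ne_zero
      positivity
    have h2 : ((a - b) * (p : ℤ) ^ (e + 1) : ℚ) = (((i : ℕ) : ℤ) - ((j : ℕ) : ℤ)) * ((l.1 : ℕ) : ℤ) := by
      push_cast
      field_simp at h1
      linarith
    have h3 : (a - b) * (p : ℤ) ^ (e + 1) = (((i : ℕ) : ℤ) - ((j : ℕ) : ℤ)) * ((l.1 : ℕ) : ℤ) := by
      exact_mod_cast h2
    have h4 : (p : ℤ) ∣ (((i : ℕ) : ℤ) - ((j : ℕ) : ℤ)) * ((l.1 : ℕ) : ℤ) := by
      rw [← h3]
      exact Dvd.dvd.mul_left (dvd_pow_self _ (by omega)) _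
    have hpi : Prime (p : ℤ) := Nat.prime_iff_prime_int.1 hp
    rcases hpi.dvd_or_dvd h4 with h5 | h5
    · have h6 : (((i : ℕ) : ℤ) - ((j : ℕ) : ℤ)) = 0 := by
        apply Int.eq_zero_of_abs_lt_dvd h5
        rw [abs_lt]
        have hi3 := i.2
        have hj3 := j.2
        constructor <;> omega
      exact hv (by omega)
    · exact l.2 (by exact_mod_cast h5)

end Pool.Agent.WD
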