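import Pool.Agent.WD.A6
import Pool.Agent.WD.A7

/-! # The basis of the tuning module (piece A8) -/

namespace Pool.Agent.WD

universe u

section pascal

variable {A : Type*} [CommRing A] {n : ℕ}

/-- the matrix with parameters `s` -/
private def A8_P (m : Fin n → ℕ) (s : Fin n → A) (a' a : Ix n m) : A :=
  if a'.1 = a.1 then ((a.2 : ℕ).choose (a'.2 : ℕ) : A) * s a.1 ^ ((a.2 : ℕ) - (a'.2 : ℕ)) else 0

private theorem A8_choose (s t : A) (i i' N : ℕ) (hi : i < N) :
    ∑ j ∈ Finset.range N, ((j.choose i' : ℕ) : A) * s ^ (j - i') *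
      (((i.choose j : ℕ) : A) * t ^ (i - j)) =
      ((i.choose i' : ℕ) : A) * (s + t) ^ (i - i') := by
  have h1 : ∑ j ∈ Finset.range N, ((j.choose i' : ℕ) : A) * s ^ (j - i') *
      (((i.choose j : ℕ) : A) * t ^ (i - j)) =
      ∑ j ∈ Finset.range (i + 1), ((j.choose i' : ℕ) : A) * s ^ (j - i') *
      (((i.choose j : ℕ) : A) * t ^ (i - j)) := by
    symm
    apply Finset.sum_subset
    · intro j hj
      rw [Finset.mem_range] at hj ⊢
      omega
    · intro j _ hj
      rw [Finset.mem_range, not_lt] at hj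
      rw [Nat.choose_eq_zero_of_lt (by omega : i < j)]
      simp
  rw [h1]
  rcases le_or_gt i' i with h | h
  · obtain ⟨d, rfl⟩ := Nat.exists_eq_add_of_le h
    rw [show i' + d + 1 = i' + (d + 1) by ring, Finset.sum_range_add]
    have h2 : ∑ x ∈ Finset.range i', ((x.choose i' : ℕ) : A) * s ^ (x - i') *
        ((((i' + d).choose x : ℕ) : A) * t ^ (i' + d - x)) = 0 := by
      refine Finset.sum_eq_zero fun x hx => ?_
      rw [Finset.mem_range] at hx
      rw [Nat.choose_eq_zero_of_lt hx]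
      simp
    rw [h2, zero_add, show i' + d - i' = d by omega, add_pow, Finset.mul_sum]
    refine Finset.sum_congr rfl fun u hu => ?_
    rw [Finset.mem_range] at hu
    have h3 := Nat.choose_mul (n := i' + d) (k := i' + u) (s := i') (by omega)
    rw [show i' + d - i' = d by omega, show i' + u - i' = u by omega] at h3
    have h4 : (((i' + d).choose (i' + u) : ℕ) : A) * (((i' + u).choose i' : ℕ) : A) =
        (((i' + d).choose i' : ℕ) : A) * ((d.choose u : ℕ) : A) := by
      exact_mod_cast congrArg (Nat.cast : ℕ → A) h3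
    rw [show i' + u - i' = u by omega, show i' + d - (i' + u) = d - u by omega]
    linear_combination (s ^ u * t ^ (d - u)) * h4
  · rw [Nat.choose_eq_zero_of_lt h]
    simp only [Nat.cast_zero, zero_mul]
    refine Finset.sum_eq_zero fun x hx => ?_
    rw [Finset.mem_range] at hx
    rw [Nat.choose_eq_zero_of_lt (by omega : x < i')]
    simp

private theorem A8_mul (m : Fin n → ℕ) (s t : Fin n → A) (a' a : Ix n m) :
    ∑ b, A8_P m s a' b * A8_P m t b a = A8_P m (s + t) a' a := by
  obtain ⟨B', i'⟩ := a'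
  obtain ⟨B, i⟩ := a
  rw [Fintype.sum_sigma]
  by_cases hBB : B' = B
  · subst hBB
    rw [Finset.sum_eq_single B']
    · have h1 : ∀ j : Fin (m B'), A8_P m s ⟨B', i'⟩ ⟨B', j⟩ * A8_P m t ⟨B', j⟩ ⟨B', i⟩ =
          (((j : ℕ).choose (i' : ℕ) : ℕ) : A) * s B' ^ ((j : ℕ) - (i' : ℕ)) *
            ((((i : ℕ).choose (j : ℕ) : ℕ) : A) * t B' ^ ((i : ℕ) - (j : ℕ))) := by
        intro j
        simp only [A8_P, if_true]
      rw [Finset.sum_congr rfl fun j _ => h1 j,
        Fin.sum_univ_eq_sum_range (fun j : ℕ => ((j.choose (i' : ℕ) : ℕ) : A) *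
          s B' ^ (j - (i' : ℕ)) * ((((i : ℕ).choose j : ℕ) : A) * t B' ^ ((i : ℕ) - j)))
          (m B'), A8_choose _ _ _ _ _ i.2]
      simp only [A8_P, if_true, Pi.add_apply]
    · intro B'' _ hne
      refine Finset.sum_eq_zero fun j _ => ?_
      have h2 : ¬ (B' = B'') := fun h => hne h.symm
      simp only [A8_P, h2, if_false, zero_mul]
    · intro h
      exact absurd (Finset.mem_univ _) h
  · have h1 : A8_P m (s + t) ⟨B', i'⟩ ⟨B, i⟩ = 0 := by
      simp only [A8_P, hBB, if_false]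
    rw [h1]
    refine Finset.sum_eq_zero fun B'' _ => Finset.sum_eq_zero fun j _ => ?_
    by_cases h2 : B' = B''
    · have h3 : ¬ (B'' = B) := fun h => hBB (h2.trans h)
      simp only [A8_P, h3, if_false, mul_zero]
    · simp only [A8_P, h2, if_false, zero_mul]

private theorem A8_zero (m : Fin n → ℕ) (a' a : Ix n m) :
    A8_P m (0 : Fin n → A) a' a = if a' = a then 1 else 0 := by
  obtain ⟨B', i'⟩ := a'
  obtain ⟨B, i⟩ := a
  by_cases hBB : B' = B
  · subst hBB
    by_cases hii : i' = i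
    · subst hii
      simp [A8_P]
    · have h1 : ¬ ((⟨B', i'⟩ : Ix n m) = ⟨B', i⟩) := by
        intro h
        apply hii
        simpa using h
      rw [if_neg h1]
      simp only [A8_P, if_true, Pi.zero_apply]
      rcases lt_or_gt_of_ne (fun h => hii (Fin.ext h) : (i' : ℕ) ≠ i) with h | h
      · rw [zero_pow (by omega), mul_zero]
      · rw [Nat.choose_eq_zero_of_lt h, Nat.cast_zero, zero_mul]
  · have h1 : ¬ ((⟨B', i'⟩ : Ix n m) = ⟨B, i⟩) := by
      intro h
      apply hBB
      exact congrArg Sigma.fst h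
    rw [if_neg h1]
    simp only [A8_P, hBB, if_false]

private theorem A8_map {A' : Type*} [CommRing A'] (φ : A →+* A') (m : Fin n → ℕ) (s : Fin n → A)
    (a' a : Ix n m) : φ (A8_P m s a' a) = A8_P m (fun B => φ (s B)) a' a := by
  unfold A8_P
  split_ifs
  · rw [map_mul, map_natCast, map_pow]
  · rw [map_zero]

/-- composition -/
private theorem A8_comp (m : Fin n → ℕ) (s t : Fin n → A) (x : Ix n m → A) (a' : Ix n m) :
    ∑ b, A8_P m s a' b * ∑ a, A8_P m t b a * x a = ∑ a, A8_P m (s + t) a' a * x a := by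
  have h1 : ∀ b, A8_P m s a' b * ∑ a, A8_P m t b a * x a =
      ∑ a, A8_P m s a' b * A8_P m t b a * x a := by
    intro b
    rw [Finset.mul_sum]
    exact Finset.sum_congr rfl fun a _ => by ring
  rw [Finset.sum_congr rfl fun b _ => h1 b, Finset.sum_comm]
  refine Finset.sum_congr rfl fun a _ => ?_
  rw [← Finset.sum_mul, A8_mul]

/-- a block with parameter zero -/
private theorem A8_block (m : Fin n → ℕ) (s : Fin n → A) (x : Ix n m → A) (a' : Ix n m)
    (h : s a'.1 = 0) : ∑ b, A8_P m s a' b * x b = x a' := by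
  have h1 : ∀ b, A8_P m s a' b = if a' = b then 1 else 0 := by
    intro b
    rw [← A8_zero m a' b]
    unfold A8_P
    by_cases hb : a'.1 = b.1
    · have h2 : s b.1 = (0 : Fin n → A) b.1 := by rw [← hb, h]; rfl
      rw [if_pos hb, if_pos hb, h2]
    · rw [if_neg hb, if_neg hb]
  have h2 : ∀ b, A8_P m s a' b * x b = if a' = b then x b else 0 := by
    intro b
    rw [h1]
    split_ifs
    · rw [one_mul]
    · rw [zero_mul]
  rw [Finset.sum_congr rfl fun b _ => h2 b, Finset.sum_ite_eq, if_pos (Finset.mem_univ _)]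

/-- the inverse matrix -/
private theorem A8_inv (m : Fin n → ℕ) (s t : Fin n → A) (hst : s + t = 0) (x : Ix n m → A)
    (a' : Ix n m) : ∑ b, A8_P m s a' b * ∑ a, A8_P m t b a * x a = x a' := by
  rw [A8_comp, hst]
  exact A8_block m 0 x a' rfl

/-- the first row of a block -/
private theorem A8_row (m : Fin n → ℕ) (s : Fin n → A) (x : Ix n m → A) (B : Fin n)
    (z : Fin (m B)) (hz : (z : ℕ) = 0) :
    ∑ b, A8_P m s ⟨B, z⟩ b * x b = ∑ j : Fin (m B), x ⟨B, j⟩ * s B ^ (j : ℕ) := by
  rw [Fintype.sum_sigma, Finset.sum_eq_single B]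
  · refine Finset.sum_congr rfl fun j _ => ?_
    simp only [A8_P, if_true, hz, Nat.choose_zero_right, Nat.cast_one, one_mul, Nat.sub_zero]
    ring
  · intro B' _ hne
    refine Finset.sum_eq_zero fun j _ => ?_
    have h2 : ¬ (B = B') := fun h => hne h.symm
    simp only [A8_P, h2, if_false, zero_mul]
  · intro h
    exact absurd (Finset.mem_univ _) h

end pascal

variable {p : ℕ} [Fact p.Prime] {k : Type u} [Field k] [CharP k p] [PerfectRing k p] {r n : ℕ}

/-- the entries of the matrix `M(h)`, `M(h)_{a',a} = binom(a, a') h^(a - a')` -/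
noncomputable def Mh (ℓ : Fin n → Fin r → k) {m : Fin n → ℕ} (c : Par p r k) (a' a : Ix n m) :
    Lc c :=
  if a'.1 = a.1 then ((a.2 : ℕ).choose (a'.2 : ℕ) : Lc c) *
    hL ℓ c a.1 ^ ((a.2 : ℕ) - (a'.2 : ℕ)) else 0

private theorem A8_Mh (ℓ : Fin n → Fin r → k) {m : Fin n → ℕ} (c : Par p r k) (a' a : Ix n m) :
    Mh ℓ c a' a = A8_P m (hL ℓ c) a' a := rfl

private theorem A8_rho (ℓ : Fin n → Fin r → k) {m : Fin n → ℕ} (c : Par p r k)
    (g : Fin r → ZMod p) (a b : Ix n m) :
    cst c (rho ℓ m g a b) = A8_P m (fun B => cst c (ell ℓ B g)) a b := by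
  have h1 : rho ℓ m g a b = A8_P m (fun B => ell ℓ B g) a b := by
    unfold rho A8_P
    by_cases h : a.1 = b.1
    · have h2 : ell ℓ a.1 g = ell ℓ b.1 g := by rw [h]
      rw [if_pos h, if_pos h, h2]
    · rw [if_neg h, if_neg h]
  rw [h1, A8_map]

/-- The columns of `M(h)` are equivariant. -/
private theorem A8_equiv (ℓ : Fin n → Fin r → k) {m : Fin n → ℕ} (c : Par p r k)
    {σ : Lc c ≃ₐ[LaurentSeries k] Lc c} {g : Fin r → ZMod p} (h : Corr c σ g) (a' a : Ix n m) :
    σ (Mh ℓ c a' a) = ∑ b, cst c (rho ℓ m g a' b) * Mh ℓ c b a := by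
  rw [A8_Mh]
  have h1 : σ (A8_P m (hL ℓ c) a' a) = A8_P m (fun B => σ (hL ℓ c B)) a' a :=
    A8_map (σ : Lc c →+* Lc c) m (hL ℓ c) a' a
  rw [h1]
  have h2 : (fun B => σ (hL ℓ c B)) = (fun B => cst c (ell ℓ B g)) + hL ℓ c := by
    funext B
    rw [sigma_hL ℓ c B h, Pi.add_apply, add_comm]
  rw [h2, ← A8_mul]
  exact Finset.sum_congr rfl fun b _ => by rw [A8_rho]; rfl

private theorem A8_X (l : ℕ) : algebraMap (PowerSeries k) (LaurentSeries k) (PowerSeries.X ^ l) =
    HahnSeries.single (l : ℤ) 1 := by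
  rw [LaurentSeries.coe_algebraMap, HahnSeries.ofPowerSeries_X_pow]

private theorem A8_toOm_single (v : ℤ) :
    toOm k (HahnSeries.single v 1) = HahnSeries.single (v : ℚ) 1 := by
  change HahnSeries.embDomain _ (HahnSeries.single v (1 : k)) = _
  rw [HahnSeries.embDomain_single]
  rfl

private theorem A8_toOm_order {y : LaurentSeries k} (hy : y ≠ 0) :
    (toOm k y).orderTop = ((y.order : ℚ) : WithTop ℚ) := by
  change (HahnSeries.embDomain _ y).orderTop = _
  rw [HahnSeries.orderTop_embDomain, ← HahnSeries.order_eq_orderTop_of_ne_zero hy]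
  rfl

/-- The coordinates `y_a` are divisible by `t ^ lev(a)`. -/
private theorem A8_key (ℓ : Fin n → Fin r → k) (c : Par p r k) (B : Fin n) (i : ℕ)
    (y : LaurentSeries k) (h1 : 0 ≤ (toOm k y * hB ℓ c B ^ i).orderTop)
    (h2 : hB ℓ c B = 0 → 0 ≤ (toOm k y).orderTop) :
    ∃ u : PowerSeries k, algebraMap (PowerSeries k) (LaurentSeries k)
      (PowerSeries.X ^ lev ℓ c B i * u) = y := by
  have hp1 : 1 ≤ p := (Fact.out : p.Prime).one_lt.le
  by_cases hy : y = 0
  · exact ⟨0, by rw [mul_zero, map_zero, hy]⟩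
  have hlow : lev ℓ c B i = 0 → 0 ≤ (toOm k y).orderTop →
      ∃ u : PowerSeries k, algebraMap (PowerSeries k) (LaurentSeries k)
      (PowerSeries.X ^ lev ℓ c B i * u) = y := by
    intro hl ho
    obtain ⟨u, hu⟩ := exists_powerSeries y ho
    exact ⟨u, by rw [hl, pow_zero, one_mul, hu]⟩
  rcases Nat.eq_zero_or_pos i with hi | hi
  · subst hi
    apply hlow (lev_zero ℓ c B)
    rwa [pow_zero, mul_one] at h1
  by_cases hh : hB ℓ c B = 0
  · exact hlow ((hB_eq_zero_iff ℓ c B i hi).1 hh) (h2 hh)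
  have hyo := A8_toOm_order (k := k) hy
  obtain ⟨w, hw⟩ := WithTop.ne_top_iff_exists.1
    (HahnSeries.orderTop_ne_top.2 (pow_ne_zero i hh))
  rw [HahnSeries.orderTop_mul, hyo, ← hw, ← WithTop.coe_add, ← WithTop.coe_zero,
    WithTop.coe_le_coe] at h1
  have hbel : ∀ M : ℕ, 0 ≤ (M : ℚ) + w → Below ℓ c B i M := by
    intro M hM
    rw [← orderTop_hB_pow_iff ℓ c B i M hi, HahnSeries.orderTop_mul,
      HahnSeries.orderTop_single one_ne_zero, ← hw, ← WithTop.coe_add, ← WithTop.coe_zero,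
      WithTop.coe_le_coe]
    exact hM
  have hv : 0 ≤ y.order := by
    by_contra hneg
    rw [not_le] at hneg
    have h3 : (y.order : ℚ) < 0 := by exact_mod_cast hneg
    have h4 := (lev_le_iff hp1).2 (hbel 0 (by push_cast; linarith))
    exact hh ((hB_eq_zero_iff ℓ c B i hi).2 (Nat.le_zero.1 h4))
  have hlev : lev ℓ c B i ≤ y.order.toNat := by
    refine (lev_le_iff hp1).2 (hbel _ ?_)
    have h3 : ((y.order.toNat : ℕ) : ℚ) = (y.order : ℚ) := by
      have := Int.toNat_of_nonneg hv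
      exact_mod_cast this
    rw [h3]
    exact h1
  have hone : HahnSeries.single (-(lev ℓ c B i : ℤ)) (1 : k) ≠ 0 :=
    HahnSeries.single_ne_zero one_ne_zero
  obtain ⟨u, hu⟩ := exists_powerSeries (HahnSeries.single (-(lev ℓ c B i : ℤ)) (1 : k) * y) (by
    rw [map_mul, A8_toOm_single, HahnSeries.orderTop_mul, HahnSeries.orderTop_single one_ne_zero,
      hyo, ← WithTop.coe_add, ← WithTop.coe_zero, WithTop.coe_le_coe]
    have h3 : (lev ℓ c B i : ℤ) ≤ y.order := by
      rw [← Int.toNat_of_nonneg hv]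
      exact_mod_cast hlev
    have h4 : ((lev ℓ c B i : ℤ) : ℚ) ≤ (y.order : ℚ) := by exact_mod_cast h3
    push_cast at h4 ⊢
    linarith)
  refine ⟨u, ?_⟩
  rw [map_mul, hu, A8_X, ← mul_assoc, HahnSeries.single_mul_single, add_neg_cancel, mul_one]
  exact one_mul y

/-- the elements of the basis -/
private theorem A8_mem (ℓ : Fin n → Fin r → k) {m : Fin n → ℕ} (c : Par p r k) (a : Ix n m) :
    (fun a' => algebraMap (PowerSeries k) (Lc c) (PowerSeries.X ^ lev ℓ c a.1 a.2) *
      Mh ℓ c a' a) ∈ Tuning ℓ m c := by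
  have hp1 : 1 ≤ p := (Fact.out : p.Prime).one_lt.le
  refine ⟨fun a' => ?_, fun σ g h a' => ?_⟩
  · unfold Mh
    beta_reduce
    by_cases ha : a'.1 = a.1
    · rw [if_pos ha]
      have h1 : Below ℓ c a.1 ((a.2 : ℕ) - (a'.2 : ℕ)) (lev ℓ c a.1 a.2) := by
        intro e he j hj
        refine below_lev hp1 ℓ c a.1 a.2 e he j (lt_of_lt_of_le hj ?_)
        exact Nat.mul_le_mul_right _ (Nat.sub_le _ _)
      have h2 := isIntegral_pow ℓ c a.1 _ _ h1
      rw [← A8_X, ← IsScalarTower.algebraMap_apply (PowerSeries k) (LaurentSeries k) (Lc c)] at h2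
      have h3 : IsIntegral (PowerSeries k) ((((a.2 : ℕ).choose (a'.2 : ℕ) : ℕ)) : Lc c) := by
        rw [← map_natCast (algebraMap (PowerSeries k) (Lc c))]
        exact isIntegral_algebraMap
      have h4 : algebraMap (PowerSeries k) (Lc c) (PowerSeries.X ^ lev ℓ c a.1 a.2) *
          ((((a.2 : ℕ).choose (a'.2 : ℕ) : ℕ) : Lc c) *
            hL ℓ c a.1 ^ ((a.2 : ℕ) - (a'.2 : ℕ))) =
          (((a.2 : ℕ).choose (a'.2 : ℕ) : ℕ) : Lc c) *
          (algebraMap (PowerSeries k) (Lc c) (PowerSeries.X ^ lev ℓ c a.1 a.2) *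
            hL ℓ c a.1 ^ ((a.2 : ℕ) - (a'.2 : ℕ))) := by ring
      rw [h4]
      exact h3.mul h2
    · rw [if_neg ha, mul_zero]
      exact isIntegral_zero
  · dsimp only
    rw [map_mul, A8_equiv ℓ c h, IsScalarTower.algebraMap_apply (PowerSeries k)
      (LaurentSeries k) (Lc c), σ.commutes, Finset.mul_sum]
    exact Finset.sum_congr rfl fun b _ => by ring

/-- `x` is equivariant if and only if `x = M(h) y` with `y ∈ K^Ix`; and `M(h) y` is integral if and
only if `y_a` is divisible by `t^lev(a)` (look at the coordinates with `a'.2 = 0` and `a' = a`). -/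
theorem exists_basis (ℓ : Fin n → Fin r → k) {m : Fin n → ℕ} (hm : ∀ B, m B ≤ p)
    (c : Par p r k) :
    ∃ b : Module.Basis (Ix n m) (PowerSeries k) (Tuning ℓ m c), ∀ a a',
      (b a : Ix n m → Lc c) a' =
        algebraMap (PowerSeries k) (Lc c) (PowerSeries.X ^ lev ℓ c a.1 a.2) * Mh ℓ c a' a := by
  have hfd := finiteDim_Lc c
  have hgal := isGalois_Lc c
  have hinj : Function.Injective (algebraMap (PowerSeries k) (Lc c)) := by
    rw [IsScalarTower.algebraMap_eq (PowerSeries k) (LaurentSeries k) (Lc c)]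
    exact (algebraMap (LaurentSeries k) (Lc c)).injective.comp
      (IsFractionRing.injective (PowerSeries k) (LaurentSeries k))
  set w : Ix n m → Tuning ℓ m c := fun a => ⟨_, A8_mem ℓ c a⟩ with hw
  have hwa : ∀ a a', (w a : Ix n m → Lc c) a' =
      algebraMap (PowerSeries k) (Lc c) (PowerSeries.X ^ lev ℓ c a.1 a.2) *
        A8_P m (hL ℓ c) a' a := fun a a' => rfl
  have hcomb : ∀ (g : Ix n m → PowerSeries k) (a' : Ix n m),
      ((∑ a, g a • w a : Tuning ℓ m c) : Ix n m → Lc c) a' =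
      ∑ a, A8_P m (hL ℓ c) a' a *
        algebraMap (PowerSeries k) (Lc c) (PowerSeries.X ^ lev ℓ c a.1 a.2 * g a) := by
    intro g a'
    rw [AddSubmonoidClass.coe_finsetSum, Finset.sum_apply]
    refine Finset.sum_congr rfl fun a _ => ?_
    rw [Submodule.coe_smul, Pi.smul_apply, Algebra.smul_def, hwa, map_mul]
    ring
  have hli : LinearIndependent (PowerSeries k) w := by
    rw [Fintype.linearIndependent_iff]
    intro g hg a
    have h1 : ∀ a', ∑ a, A8_P m (hL ℓ c) a' a *
        algebraMap (PowerSeries k) (Lc c) (PowerSeries.X ^ lev ℓ c a.1 a.2 * g a) = 0 := by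
      intro a'
      rw [← hcomb, hg]
      rfl
    have h2 := A8_inv m (-hL ℓ c) (hL ℓ c) (neg_add_cancel _) (fun a =>
      algebraMap (PowerSeries k) (Lc c) (PowerSeries.X ^ lev ℓ c a.1 a.2 * g a)) a
    simp only [h1, mul_zero, Finset.sum_const_zero] at h2
    have h3 := (map_eq_zero_iff _ hinj).1 h2.symm
    rcases mul_eq_zero.1 h3 with h4 | h4
    · exact absurd h4 (pow_ne_zero _ PowerSeries.X_ne_zero)
    · exact h4
  have hsp : ⊤ ≤ Submodule.span (PowerSeries k) (Set.range w) := by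
    intro x _
    rw [Submodule.mem_span_range_iff_exists_fun]
    set X : Ix n m → Lc c := (x : Ix n m → Lc c) with hX
    obtain ⟨hint, heq⟩ := x.2
    set y : Ix n m → Lc c := fun a => ∑ b, A8_P m (-hL ℓ c) a b * X b with hy
    -- the coordinates of `y` are in `K`
    have hfix : ∀ a, ∀ σ : Lc c ≃ₐ[LaurentSeries k] Lc c, σ (y a) = y a := by
      intro a σ
      obtain ⟨g, hg⟩ := corr_exists c σ
      have h1 : σ (y a) = ∑ b, A8_P m (fun B => σ ((-hL ℓ c) B)) a b *
          ∑ d, A8_P m (fun B => cst c (ell ℓ B g)) b d * X d := by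
        rw [hy]
        dsimp only
        rw [map_sum]
        refine Finset.sum_congr rfl fun b _ => ?_
        rw [map_mul]
        have h2 : σ (A8_P m (-hL ℓ c) a b) = A8_P m (fun B => σ ((-hL ℓ c) B)) a b :=
          A8_map (σ : Lc c →+* Lc c) m (-hL ℓ c) a b
        rw [h2, hX, heq σ g hg b]
        congr 1
        exact Finset.sum_congr rfl fun d _ => by rw [A8_rho]
      rw [h1, A8_comp]
      have h3 : (fun B => σ ((-hL ℓ c) B)) + (fun B => cst c (ell ℓ B g)) = -hL ℓ c := by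
        funext B
        rw [Pi.add_apply, Pi.neg_apply, map_neg, sigma_hL ℓ c B hg]
        ring
      rw [h3]
    have hK : ∀ a, ∃ v : LaurentSeries k, algebraMap (LaurentSeries k) (Lc c) v = y a := by
      intro a
      exact (IsGalois.mem_range_algebraMap_iff_fixed (y a)).2 (hfix a)
    choose v hv using hK
    have hxy : ∀ a', ∑ b, A8_P m (hL ℓ c) a' b * y b = X a' :=
      A8_inv m (hL ℓ c) (-hL ℓ c) (add_neg_cancel _) X
    have hdiv : ∀ a, ∃ u : PowerSeries k, algebraMap (PowerSeries k) (LaurentSeries k)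
        (PowerSeries.X ^ lev ℓ c a.1 a.2 * u) = v a := by
      rintro ⟨B, i⟩
      apply A8_key
      · -- the coordinate with `a'.2 = 0`
        have hpos : 0 < m B := lt_of_le_of_lt (Nat.zero_le _) i.2
        have h1 := A8_row m (hL ℓ c) y B ⟨0, hpos⟩ rfl
        rw [hxy] at h1
        have h2 : ((X ⟨B, ⟨0, hpos⟩⟩ : Lc c) : Om k) =
            ∑ j : Fin (m B), toOm k (v ⟨B, j⟩) * hB ℓ c B ^ (j : ℕ) := by
          rw [h1]
          have h3 : ((∑ j : Fin (m B), y ⟨B, j⟩ * hL ℓ c B ^ (j : ℕ) : Lc c) : Om k) =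
              (Lc c).val (∑ j : Fin (m B), y ⟨B, j⟩ * hL ℓ c B ^ (j : ℕ)) := rfl
          rw [h3, map_sum]
          refine Finset.sum_congr rfl fun j _ => ?_
          rw [map_mul, map_pow, ← hv]
          have h4 : (Lc c).val (hL ℓ c B) = hB ℓ c B := coe_hL ℓ c B
          have h5 : (Lc c).val (algebraMap (LaurentSeries k) (Lc c) (v ⟨B, j⟩)) =
              toOm k (v ⟨B, j⟩) := rfl
          rw [h4, h5]
        have h3 := orderTop_nonneg_of_isIntegral _ ((isIntegral_coe_iff c _).1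
          (hint ⟨B, ⟨0, hpos⟩⟩))
        rw [← hX, h2] at h3
        exact orderTop_terms ℓ c B (hm B) (fun j => v ⟨B, j⟩) h3 i
      · intro h0
        have h1 : hL ℓ c B = 0 := by
          apply Subtype.ext
          rw [coe_hL, h0]
          rfl
        have h2 : y ⟨B, i⟩ = X ⟨B, i⟩ :=
          A8_block m (-hL ℓ c) X ⟨B, i⟩ (by rw [Pi.neg_apply, h1, neg_zero])
        have h3 := orderTop_nonneg_of_isIntegral _ ((isIntegral_coe_iff c _).1 (hint ⟨B, i⟩))
        rw [← hX, ← h2, ← hv] at h3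
        exact h3
    choose u hu using hdiv
    refine ⟨u, ?_⟩
    apply Subtype.ext
    funext a'
    rw [hcomb, ← hX, ← hxy a']
    refine Finset.sum_congr rfl fun a _ => ?_
    rw [← hv, ← hu, ← IsScalarTower.algebraMap_apply (PowerSeries k) (LaurentSeries k) (Lc c)]
  refine ⟨Module.Basis.mk hli hsp, fun a a' => ?_⟩
  rw [Module.Basis.mk_apply]

end Pool.Agent.WD
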