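import Pool.Agent.WD.A8

/-! # The `v`-function (piece A9) -/

namespace Pool.Agent.WD

universe u

variable {p : ℕ} [Fact p.Prime] {k : Type u} [Field k] [CharP k p] [PerfectRing k p] {r n : ℕ}

/-- `M(h)` is block triangular with ones on the diagonal. -/
theorem det_Mh (ℓ : Fin n → Fin r → k) {m : Fin n → ℕ} (c : Par p r k) :
    Matrix.det (fun a' a : Ix n m => Mh ℓ c a' a) = 1 := by
  classical
  have hb : Matrix.BlockTriangular (fun a' a : Ix n m => Mh ℓ c a' a)
      (fun a : Ix n m => (a.2 : ℕ)) := by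
    intro a' a h
    have h1 : (a.2 : ℕ) < (a'.2 : ℕ) := h
    change Mh ℓ c a' a = 0
    unfold Mh
    rw [Nat.choose_eq_zero_of_lt h1, Nat.cast_zero, zero_mul, ite_self]
  rw [hb.det]
  apply Finset.prod_eq_one
  intro i _
  have h1 : Matrix.toSquareBlock (fun a' a : Ix n m => Mh ℓ c a' a)
      (fun a : Ix n m => (a.2 : ℕ)) i = 1 := by
    refine Matrix.ext fun x' x => ?_
    obtain ⟨a', ha'⟩ := x'
    obtain ⟨a, ha⟩ := x
    change Mh ℓ c a' a = _
    rw [Matrix.one_apply]
    unfold Mh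
    change (a'.2 : ℕ) = i at ha'
    change (a.2 : ℕ) = i at ha
    by_cases h : a'.1 = a.1
    · obtain ⟨B, x⟩ := a
      obtain ⟨B', x'⟩ := a'
      change B' = B at h
      subst h
      have h2 : x' = x := Fin.ext (ha'.trans ha.symm)
      subst h2
      rw [if_pos rfl, if_pos rfl, Nat.choose_self, Nat.sub_self, pow_zero, Nat.cast_one, mul_one]
    · rw [if_neg h, if_neg]
      intro h2
      exact h (congrArg (fun x => x.1.1) h2)
  rw [h1, Matrix.det_one]

private theorem A9_inj (c : Par p r k) :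
    Function.Injective (algebraMap (PowerSeries k) (Lc c)) := by
  rw [IsScalarTower.algebraMap_eq (PowerSeries k) (LaurentSeries k) (Lc c)]
  exact (algebraMap (LaurentSeries k) (Lc c)).injective.comp
    (IsFractionRing.injective (PowerSeries k) (LaurentSeries k))

private theorem A9_det0 (ℓ : Fin n → Fin r → k) {m : Fin n → ℕ} (c : Par p r k)
    (b : Module.Basis (Ix n m) (PowerSeries k) (Tuning ℓ m c))
    (hb : ∀ a a', (b a : Ix n m → Lc c) a' =
        algebraMap (PowerSeries k) (Lc c) (PowerSeries.X ^ lev ℓ c a.1 a.2) * Mh ℓ c a' a) :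
    Matrix.det (fun i a => (b i : Ix n m → Lc c) a) =
      algebraMap (PowerSeries k) (Lc c) (PowerSeries.X ^ (∑ x : Ix n m, lev ℓ c x.1 x.2)) := by
  classical
  have h1 : (fun i a => (b i : Ix n m → Lc c) a : Matrix (Ix n m) (Ix n m) (Lc c)) =
      Matrix.of fun i j => (fun i : Ix n m => algebraMap (PowerSeries k) (Lc c)
        (PowerSeries.X ^ lev ℓ c i.1 i.2)) i *
        (Matrix.transpose (fun a' a : Ix n m => Mh ℓ c a' a : Matrix (Ix n m) (Ix n m) (Lc c))) i j := by
    refine Matrix.ext fun i a => ?_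
    exact hb i a
  rw [h1, Matrix.det_mul_column, Matrix.det_transpose, det_Mh, mul_one, ← map_prod,
    Finset.prod_pow_eq_pow_sum]

private theorem A9_change (ℓ : Fin n → Fin r → k) {m : Fin n → ℕ} (c : Par p r k)
    (b b0 : Module.Basis (Ix n m) (PowerSeries k) (Tuning ℓ m c)) :
    ∃ v : (PowerSeries k)ˣ, Matrix.det (fun i a => (b i : Ix n m → Lc c) a) =
      algebraMap (PowerSeries k) (Lc c) (v : PowerSeries k) *
        Matrix.det (fun i a => (b0 i : Ix n m → Lc c) a) := by
  classical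
  set Q : Matrix (Ix n m) (Ix n m) (PowerSeries k) := b0.toMatrix b with hQ
  have hu : IsUnit Q.det := by
    have h1 : Q * b.toMatrix b0 = 1 := Module.Basis.toMatrix_mul_toMatrix_flip b0 b
    exact Matrix.isUnit_det_of_right_inverse h1
  obtain ⟨v, hv⟩ := hu
  refine ⟨v, ?_⟩
  have h2 : (Matrix.of fun i a => (b i : Ix n m → Lc c) a) =
      (Q.map (algebraMap (PowerSeries k) (Lc c))).transpose *
        (Matrix.of fun i a => (b0 i : Ix n m → Lc c) a) := by
    refine Matrix.ext fun i a => ?_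
    rw [Matrix.mul_apply]
    have h3 := Module.Basis.sum_toMatrix_smul_self b0 b i
    have h4 := congrArg (fun x : Tuning ℓ m c => (x : Ix n m → Lc c) a) h3
    simp only [Submodule.coe_sum, Submodule.coe_smul, Finset.sum_apply, Pi.smul_apply] at h4
    rw [Matrix.of_apply, ← h4]
    apply Finset.sum_congr rfl
    intro j _
    rw [Algebra.smul_def]
    rfl
  change Matrix.det (Matrix.of fun i a => (b i : Ix n m → Lc c) a) =
    algebraMap (PowerSeries k) (Lc c) (v : PowerSeries k) *
      Matrix.det (Matrix.of fun i a => (b0 i : Ix n m → Lc c) a)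
  rw [h2, Matrix.det_mul, Matrix.det_transpose, hv, RingHom.map_det]
  rfl

/-- Two bases of the tuning module differ by an invertible matrix over `k[[t]]`. -/
theorem isV_iff (ℓ : Fin n → Fin r → k) {m : Fin n → ℕ} (hm : ∀ B, m B ≤ p)
    (c : Par p r k) (a : ℕ) :
    IsV ℓ m c a ↔ a = ∑ x : Ix n m, lev ℓ c x.1 x.2 := by
  obtain ⟨b0, hb0⟩ := exists_basis ℓ hm c
  have h0 := A9_det0 ℓ c b0 hb0
  constructor
  · rintro ⟨b, v, hv⟩
    obtain ⟨w, hw⟩ := A9_change ℓ c b b0
    rw [hv, h0, ← map_mul] at hw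
    have h1 := A9_inj c hw
    have h2 : PowerSeries.order ((v : PowerSeries k) * PowerSeries.X ^ a) = a := by
      rw [PowerSeries.order_mul, PowerSeries.order_X_pow]
      have h3 : PowerSeries.order (v : PowerSeries k) = 0 :=
        PowerSeries.order_zero_of_unit v.isUnit
      rw [h3, zero_add]
    have h4 : PowerSeries.order ((w : PowerSeries k) *
        PowerSeries.X ^ (∑ x : Ix n m, lev ℓ c x.1 x.2)) =
        ((∑ x : Ix n m, lev ℓ c x.1 x.2 : ℕ) : ℕ∞) := by
      rw [PowerSeries.order_mul, PowerSeries.order_X_pow]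
      have h3 : PowerSeries.order (w : PowerSeries k) = 0 :=
        PowerSeries.order_zero_of_unit w.isUnit
      rw [h3, zero_add]
    rw [h1, h4] at h2
    exact_mod_cast h2.symm
  · rintro rfl
    refine ⟨b0, 1, ?_⟩
    rw [h0, Units.val_one, one_mul]

theorem vfun_eq (ℓ : Fin n → Fin r → k) {m : Fin n → ℕ} (hm : ∀ B, m B ≤ p)
    (c : Par p r k) : vfun ℓ m c = ∑ b : Bx n m, lev ℓ c b.1.1 b.1.2 := by
  classical
  have h1 : {a | IsV ℓ m c a} = {∑ x : Ix n m, lev ℓ c x.1 x.2} := by
    ext a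
    rw [Set.mem_singleton_iff]
    exact isV_iff ℓ hm c a
  unfold vfun
  rw [h1, csInf_singleton]
  have h2 : ∑ x : Ix n m, lev ℓ c x.1 x.2 =
      ∑ x ∈ Finset.univ.filter (fun x : Ix n m => (x.2 : ℕ) ≠ 0), lev ℓ c x.1 x.2 := by
    symm
    apply Finset.sum_subset (Finset.filter_subset _ _)
    intro x _ hx
    have h3 : (x.2 : ℕ) = 0 := by
      by_contra hne
      exact hx (Finset.mem_filter.2 ⟨Finset.mem_univ _, hne⟩)
    rw [h3, lev_zero]
  rw [h2]
  exact Finset.sum_subtype _ (fun x => by simp) (fun x : Ix n m => lev ℓ c x.1 x.2)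

end Pool.Agent.WD
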