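import Pool.Agent.WD.B3
import Pool.Agent.WD.Comb

/-! # The classes of the cells (piece B4) -/

namespace Pool.Agent.WD

open Polynomial

universe u

/-- Inclusion-exclusion, the inductive form. -/
private theorem cls_cell_step {k : Type u} [Field k] (e : Realization k) {ι : Type} [Fintype ι]
    {β : Type} [Fintype β] [DecidableEq β] (g : (ι → k) → (β → ℕ)) (ν : (β → ℕ) → ℕ)
    (M₀ : β → ℕ) (h : ∀ M, M ≤ M₀ → IsConstr {x | g x ≤ M} ∧
      e.cls {x | g x ≤ M} = X ^ (2 * ν M)) (S : Finset β) :
    ∀ M, M ≤ M₀ → (∀ b ∈ S, M b ≠ 0) →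
      IsConstr {x | g x ≤ M ∧ ∀ b ∈ S, g x b = M b} ∧
      e.cls {x | g x ≤ M ∧ ∀ b ∈ S, g x b = M b} =
        ∑ T ∈ S.powerset, (-1) ^ T.card * X ^ (2 * ν (low M T)) := by
  induction S using Finset.induction_on with
  | empty =>
    intro M hM _
    have h1 : {x | g x ≤ M ∧ ∀ b ∈ (∅ : Finset β), g x b = M b} = {x | g x ≤ M} := by
      ext x
      simp
    have h2 : low M ∅ = M := by
      funext b
      simp [low]
    rw [h1, Finset.powerset_empty, Finset.sum_singleton, h2]
    simpa using h M hM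
  | insert b S hb ih =>
    intro M hM hne
    have hbM : M b ≠ 0 := hne b (Finset.mem_insert_self _ _)
    let M' : β → ℕ := Function.update M b (M b - 1)
    have hM'b : M' b = M b - 1 := Function.update_self _ _ _
    have hM'a : ∀ a, a ≠ b → M' a = M a := fun a ha => Function.update_of_ne ha _ _
    have hM'S : ∀ a ∈ S, M' a = M a := by
      intro a ha
      apply hM'a
      rintro rfl
      exact hb ha
    have hM'le : M' ≤ M := by
      intro a
      by_cases ha : a = b
      · have h1 : M' a ≤ M a := by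
          rw [ha, hM'b]
          omega
        exact h1
      · exact (hM'a a ha).le
    obtain ⟨c1, c2⟩ := ih M hM (fun a ha => hne a (Finset.mem_insert_of_mem ha))
    obtain ⟨c3, c4⟩ := ih M' (hM'le.trans hM) (fun a ha => by
      rw [hM'S a ha]
      exact hne a (Finset.mem_insert_of_mem ha))
    have e1 : {x | g x ≤ M ∧ ∀ a ∈ insert b S, g x a = M a} =
        {x | g x ≤ M ∧ ∀ a ∈ S, g x a = M a} ∩ {x | g x ≤ M' ∧ ∀ a ∈ S, g x a = M' a}ᶜ := by
      ext x
      simp only [Set.mem_ofPred_eq, Set.mem_inter_iff, Set.mem_compl_iff]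
      constructor
      · rintro ⟨h1, h2⟩
        refine ⟨⟨h1, fun a ha => h2 a (Finset.mem_insert_of_mem ha)⟩, ?_⟩
        rintro ⟨h3, _⟩
        have h4 : g x b ≤ M' b := h3 b
        rw [hM'b, h2 b (Finset.mem_insert_self _ _)] at h4
        omega
      · rintro ⟨⟨h1, h2⟩, h3⟩
        refine ⟨h1, ?_⟩
        intro a ha
        rcases Finset.mem_insert.1 ha with rfl | ha
        · by_contra hcon
          apply h3
          refine ⟨?_, fun c hc => (h2 c hc).trans (hM'S c hc).symm⟩
          intro c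
          by_cases hc : c = a
          · have h4 : g x a ≤ M a := h1 a
            have h5 : g x c ≤ M' c := by
              rw [hc, hM'b]
              omega
            exact h5
          · have h5 : g x c ≤ M' c := by
              rw [hM'a c hc]
              exact h1 c
            exact h5
        · exact h2 a ha
    have e2 : {x | g x ≤ M ∧ ∀ a ∈ S, g x a = M a} =
        {x | g x ≤ M ∧ ∀ a ∈ insert b S, g x a = M a} ∪
          {x | g x ≤ M' ∧ ∀ a ∈ S, g x a = M' a} := by
      rw [e1]
      ext x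
      simp only [Set.mem_ofPred_eq, Set.mem_inter_iff, Set.mem_compl_iff, Set.mem_union]
      constructor
      · intro h1
        by_cases h2 : g x ≤ M' ∧ ∀ a ∈ S, g x a = M' a
        · exact Or.inr h2
        · exact Or.inl ⟨h1, h2⟩
      · rintro (h1 | ⟨h1, h2⟩)
        · exact h1.1
        · exact ⟨h1.trans hM'le, fun a ha => (h2 a ha).trans (hM'S a ha)⟩
    have hc : IsConstr {x | g x ≤ M ∧ ∀ a ∈ insert b S, g x a = M a} := by
      rw [e1]
      exact IsConstr.inter c1 (IsConstr.compl c3)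
    have hd : Disjoint {x | g x ≤ M ∧ ∀ a ∈ insert b S, g x a = M a}
        {x | g x ≤ M' ∧ ∀ a ∈ S, g x a = M' a} := by
      rw [e1, Set.disjoint_left]
      intro x hx hx'
      exact hx.2 hx'
    refine ⟨hc, ?_⟩
    have e3 := e.cls_union hc c3 hd
    rw [← e2, c2, c4] at e3
    have e4 : e.cls {x | g x ≤ M ∧ ∀ a ∈ insert b S, g x a = M a} =
        ∑ T ∈ S.powerset, (-1) ^ T.card * X ^ (2 * ν (low M T)) -
          ∑ T ∈ S.powerset, (-1) ^ T.card * X ^ (2 * ν (low M' T)) := by
      rw [e3]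
      ring
    rw [e4, Finset.sum_powerset_insert hb, sub_eq_add_neg, ← Finset.sum_neg_distrib]
    congr 1
    apply Finset.sum_congr rfl
    intro T hT
    have hbT : b ∉ T := fun h => hb (Finset.mem_powerset.1 hT h)
    have e5 : low M' T = low M (insert b T) := by
      funext a
      unfold low
      by_cases ha : a = b
      · subst ha
        rw [if_neg hbT, if_pos (Finset.mem_insert_self _ _), hM'b]
      · rw [hM'a a ha]
        simp [Finset.mem_insert, ha]
    rw [e5, Finset.card_insert_of_notMem hbT, pow_succ]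
    ring

/-- Abstract inclusion-exclusion: `g : Z → (β → ℕ)` any function, such that the sets `{g ≤ M}` are
constructible with class `X^(2 ν(M))` for all `M ≤ M₀`. -/
theorem cls_cell_aux {k : Type u} [Field k] (e : Realization k) {ι : Type} [Fintype ι]
    {β : Type} [Fintype β] [DecidableEq β] (g : (ι → k) → (β → ℕ)) (ν : (β → ℕ) → ℕ)
    (M₀ : β → ℕ) (h : ∀ M, M ≤ M₀ → IsConstr {x | g x ≤ M} ∧
      e.cls {x | g x ≤ M} = X ^ (2 * ν M)) :
    IsConstr {x | g x = M₀} ∧ e.cls {x | g x = M₀} = cell ν M₀ := by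
  have h1 := cls_cell_step e g ν M₀ h (supp M₀) M₀ le_rfl (by
    intro b hb
    exact (Finset.mem_filter.1 hb).2)
  have h2 : {x | g x ≤ M₀ ∧ ∀ b ∈ supp M₀, g x b = M₀ b} = {x | g x = M₀} := by
    ext x
    simp only [Set.mem_ofPred_eq]
    constructor
    · rintro ⟨h3, h4⟩
      funext b
      by_cases hb : M₀ b = 0
      · have h5 : g x b ≤ M₀ b := h3 b
        omega
      · exact h4 b (Finset.mem_filter.2 ⟨Finset.mem_univ _, hb⟩)
    · intro h3
      exact ⟨h3.le, fun b _ => congrFun h3 b⟩
  rw [h2] at h1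
  exact h1

variable {p : ℕ} [Fact p.Prime] {k : Type u} [Field k] [CharP k p] [PerfectRing k p] {r n : ℕ}

theorem cls_cell (e : Realization k) (ℓ : Fin n → Fin r → k) (m : Fin n → ℕ)
    (hf : Faithful p ℓ m) (M : Bx n m → ℕ) (N : ℕ) (hN : bd p r M ≤ N) :
    IsConstr {x : Co p r N → k | ∀ b : Bx n m, lev ℓ (ext x) b.1.1 b.1.2 = M b} ∧
      e.cls {x : Co p r N → k | ∀ b : Bx n m, lev ℓ (ext x) b.1.1 b.1.2 = M b} =
        cell (nu p ℓ m) M := by
  have h1 := cls_cell_aux e (ι := Co p r N) (β := Bx n m)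
    (fun x b => lev ℓ (ext x) b.1.1 b.1.2) (nu p ℓ m) M (by
      intro M' hM'
      apply cls_level e ℓ m hf M' N
      refine le_trans ?_ hN
      unfold bd
      exact Nat.mul_le_mul_left _ (Finset.sum_le_sum fun b _ => hM' b))
  have h2 : {x : Co p r N → k | (fun b : Bx n m => lev ℓ (ext x) b.1.1 b.1.2) = M} =
      {x : Co p r N → k | ∀ b : Bx n m, lev ℓ (ext x) b.1.1 b.1.2 = M b} := by
    ext x
    exact funext_iff
  rw [h2] at h1
  exact h1

end Pool.Agent.WD
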