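import Pool.Agent.WD.B4

/-! # The classes of the level sets (piece B5) -/

namespace Pool.Agent.WD

open Polynomial

universe u

variable {p : ℕ} [Fact p.Prime] {k : Type u} [Field k] [CharP k p] [PerfectRing k p] {r n : ℕ}

/-- the vector of the levels -/
private noncomputable def B5_lv (ℓ : Fin n → Fin r → k) (m : Fin n → ℕ) (c : Par p r k) :
    Bx n m → ℕ := fun b => lev ℓ c b.1.1 b.1.2

omit [Fact p.Prime] in
private theorem B5_bd (m : Fin n → ℕ) (M : Bx n m → ℕ) : bd p r M = p ^ r * tot M := rfl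

private theorem B5_aux (e : Realization k) (ℓ : Fin n → Fin r → k) (m : Fin n → ℕ)
    (hf : Faithful p ℓ m) (t : Finset (Bx n m → ℕ)) (N : ℕ) (hN : ∀ M ∈ t, bd p r M ≤ N) :
    IsConstr {x : Co p r N → k | B5_lv ℓ m (ext x) ∈ t} ∧
      e.cls {x : Co p r N → k | B5_lv ℓ m (ext x) ∈ t} = ∑ M ∈ t, cell (nu p ℓ m) M := by
  have h1 : {x : Co p r N → k | B5_lv ℓ m (ext x) ∈ t} =
      ⋃ M ∈ t, {x : Co p r N → k | ∀ b : Bx n m, lev ℓ (ext x) b.1.1 b.1.2 = M b} := by
    ext x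
    simp only [Set.mem_iUnion]
    constructor
    · intro h
      exact ⟨_, h, fun b => rfl⟩
    · rintro ⟨M, hM, h⟩
      have h2 : B5_lv ℓ m (ext x) = M := funext h
      change B5_lv ℓ m (ext x) ∈ t
      rw [h2]
      exact hM
  rw [h1]
  have h2 : ∀ M ∈ t, IsConstr {x : Co p r N → k | ∀ b : Bx n m,
      lev ℓ (ext x) b.1.1 b.1.2 = M b} := fun M hM => (cls_cell e ℓ m hf M N (hN M hM)).1
  refine ⟨IsConstr.biUnion t _ h2, ?_⟩
  rw [e.cls_biUnion t _ h2]
  · exact Finset.sum_congr rfl fun M hM => (cls_cell e ℓ m hf M N (hN M hM)).2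
  · intro M _ M' _ hne
    rw [Set.disjoint_left]
    intro x hx hx'
    apply hne
    funext b
    exact (hx b).symm.trans (hx' b)

private theorem B5_pole (ℓ : Fin n → Fin r → k) (m : Fin n → ℕ) (hf : Faithful p ℓ m)
    (c : Par p r k) (a : ℕ) (h : tot (B5_lv ℓ m c) ≤ a) (s : Fin r) (j : Jp p)
    (hj : p ^ r * a < j.1) : c (s, j) = 0 := by
  apply pole_le ℓ m hf (B5_lv ℓ m c) c (fun b => le_rfl) s j
  rw [B5_bd]
  exact lt_of_le_of_lt (Nat.mul_le_mul_left _ h) hj

private theorem B5_anti (m : Fin n → ℕ) (a : ℕ) (M : Bx n m → ℕ) :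
    M ∈ Finset.piAntidiag Finset.univ a ↔ tot M = a := by
  rw [Finset.mem_piAntidiag]
  constructor
  · intro h
    exact h.1
  · intro h
    exact ⟨h, fun _ _ => Finset.mem_univ _⟩

theorem hasClass_v (e : Realization k) (ℓ : Fin n → Fin r → k) (m : Fin n → ℕ)
    (hf : Faithful p ℓ m) (a : ℕ) :
    HasClass e {c : Par p r k | ∑ b : Bx n m, lev ℓ c b.1.1 b.1.2 = a} (Pv (nu p ℓ m) a) := by
  refine ⟨p ^ r * a, ?_, ?_⟩
  · intro c hc s j hj
    exact B5_pole ℓ m hf c a (le_of_eq hc) s j hj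
  · intro N hN
    have h := B5_aux e ℓ m hf (Finset.piAntidiag Finset.univ a) N (by
      intro M hM
      rw [B5_bd, (B5_anti m a M).1 hM]
      exact hN)
    have h1 : {x : Co p r N → k | ext x ∈ {c : Par p r k |
        ∑ b : Bx n m, lev ℓ c b.1.1 b.1.2 = a}} =
        {x : Co p r N → k | B5_lv ℓ m (ext x) ∈ Finset.piAntidiag Finset.univ a} := by
      ext x
      exact (B5_anti m a (B5_lv ℓ m (ext x))).symm
    rw [h1]
    exact h

open Classical in
theorem hasClass_w (e : Realization k) (ℓ : Fin n → Fin r → k) (m : Fin n → ℕ)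
    (hf : Faithful p ℓ m) (b : ℤ) :
    HasClass e {c : Par p r k |
      ((Finset.univ.filter fun b : Bx n m => lev ℓ c b.1.1 b.1.2 ≠ 0).card : ℤ) -
        ((∑ b : Bx n m, lev ℓ c b.1.1 b.1.2 : ℕ) : ℤ) = b} (Qw (nu p ℓ m) b) := by
  have hS : ∀ c : Par p r k, (c ∈ {c : Par p r k |
      ((Finset.univ.filter fun b : Bx n m => lev ℓ c b.1.1 b.1.2 ≠ 0).card : ℤ) -
        ((∑ b : Bx n m, lev ℓ c b.1.1 b.1.2 : ℕ) : ℤ) = b}) ↔
      ((supp (B5_lv ℓ m c)).card : ℤ) - (tot (B5_lv ℓ m c) : ℤ) = b := by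
    intro c
    exact Iff.rfl
  have hle : ∀ M : Bx n m → ℕ, ((supp M).card : ℤ) - (tot M : ℤ) = b →
      tot M ≤ Fintype.card (Bx n m) + (-b).toNat := by
    intro M hM
    have h1 : (supp M).card ≤ Fintype.card (Bx n m) := Finset.card_le_univ _
    have h2 := Int.self_le_toNat (-b)
    omega
  set R := Fintype.card (Bx n m) + (-b).toNat with hR
  set t : Finset (Bx n m → ℕ) := (Finset.range (R + 1)).biUnion fun a =>
    (Finset.piAntidiag Finset.univ a).filter fun M => ((supp M).card : ℤ) - (a : ℤ) = b with ht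
  have hmem : ∀ M : Bx n m → ℕ, M ∈ t ↔ ((supp M).card : ℤ) - (tot M : ℤ) = b := by
    intro M
    rw [ht, Finset.mem_biUnion]
    constructor
    · rintro ⟨a, _, h2⟩
      rw [Finset.mem_filter, B5_anti] at h2
      rw [h2.1]
      exact h2.2
    · intro h
      refine ⟨tot M, Finset.mem_range.2 (Nat.lt_succ_of_le (hle M h)), ?_⟩
      rw [Finset.mem_filter, B5_anti]
      exact ⟨rfl, h⟩
  have hQ : Qw (nu p ℓ m) b = ∑ M ∈ t, cell (nu p ℓ m) M := by
    rw [ht, Finset.sum_biUnion]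
    · rfl
    · intro a _ a' _ hne
      rw [Function.onFun, Finset.disjoint_left]
      intro M hM hM'
      rw [Finset.mem_filter, B5_anti] at hM hM'
      exact hne (hM.1.symm.trans hM'.1)
  refine ⟨p ^ r * R, ?_, ?_⟩
  · intro c hc s j hj
    exact B5_pole ℓ m hf c R (hle _ ((hS c).1 hc)) s j hj
  · intro N hN
    have h := B5_aux e ℓ m hf t N (by
      intro M hM
      rw [B5_bd]
      exact le_trans (Nat.mul_le_mul_left _ (hle M ((hmem M).1 hM))) hN)
    have h1 : {x : Co p r N → k | ext x ∈ {c : Par p r k |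
      ((Finset.univ.filter fun b : Bx n m => lev ℓ c b.1.1 b.1.2 ≠ 0).card : ℤ) -
        ((∑ b : Bx n m, lev ℓ c b.1.1 b.1.2 : ℕ) : ℤ) = b}} =
        {x : Co p r N → k | B5_lv ℓ m (ext x) ∈ t} := by
      ext x
      exact (hS (ext x)).trans (hmem _).symm
    rw [h1, hQ]
    exact h

/-- from `cls_deg` -/
theorem cell_deg_le (e : Realization k) (ℓ : Fin n → Fin r → k) (m : Fin n → ℕ)
    (hf : Faithful p ℓ m) (M : Bx n m → ℕ) :
    (cell (nu p ℓ m) M).natDegree ≤ (Pv (nu p ℓ m) (tot M)).natDegree := by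
  have h1 := B5_aux e ℓ m hf {M} (bd p r M) (by
    intro M' hM'
    rw [Finset.mem_singleton.1 hM'])
  have h2 := B5_aux e ℓ m hf (Finset.piAntidiag Finset.univ (tot M)) (bd p r M) (by
    intro M' hM'
    rw [B5_bd, B5_bd, (B5_anti m _ M').1 hM'])
  rw [Finset.sum_singleton] at h1
  have h3 := e.cls_deg h1.1 h2.1 (by
    intro x hx
    have h4 : B5_lv ℓ m (ext x) = M := Finset.mem_singleton.1 hx
    change B5_lv ℓ m (ext x) ∈ Finset.piAntidiag Finset.univ (tot M)
    rw [B5_anti, h4])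
  rw [h1.2, h2.2] at h3
  exact h3

end Pool.Agent.WD
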