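import Pool.Agent.WD.B2
import Pool.Agent.WD.Comb

/-! # The function `tot - ν` is piecewise odd quasi-linear (piece B6) -/

namespace Pool.Agent.WD

universe u

variable {p : ℕ} [Fact p.Prime] {k : Type u} [Field k] [CharP k p] [PerfectRing k p] {r n : ℕ}

/-- `#{1 ≤ j ≤ p^e m / i, p ∤ j} = ⌊p^e m / i⌋ - ⌊p^(e-1) m / i⌋`, extended to all integers `m` -/
def cntZ (p e i : ℕ) (x : ℤ) : ℤ := ((p : ℤ) ^ e * x) / (i : ℤ) - ((p : ℤ) ^ (e - 1) * x) / (i : ℤ)

theorem cntZ_neg {e i : ℕ} (he : 1 ≤ e) (hi : 1 ≤ i) (hip : i < p) (x : ℤ) :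
    cntZ p e i (-x) = -cntZ p e i x := by
  have hi0 : (0 : ℤ) < i := by exact_mod_cast hi
  have hp : p.Prime := Fact.out
  have hco : IsCoprime (i : ℤ) (p : ℤ) :=
    Nat.isCoprime_iff_coprime.2 (Nat.coprime_of_lt_prime (by omega) hip hp).symm
  have hneg : ∀ a : ℤ, (-a) / (i : ℤ) = -(a / i) - (if (i : ℤ) ∣ a then 0 else 1) := by
    intro a
    rw [Int.neg_ediv, Int.sign_eq_one_of_pos hi0]
  have hd : ((i : ℤ) ∣ (p : ℤ) ^ e * x) ↔ ((i : ℤ) ∣ (p : ℤ) ^ (e - 1) * x) := by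
    constructor
    · intro h
      exact Dvd.dvd.mul_left ((IsCoprime.pow_right hco).dvd_of_dvd_mul_left h) _
    · intro h
      exact Dvd.dvd.mul_left ((IsCoprime.pow_right hco).dvd_of_dvd_mul_left h) _
  unfold cntZ
  rw [mul_neg, mul_neg, hneg, hneg]
  by_cases h : (i : ℤ) ∣ (p : ℤ) ^ e * x
  · rw [if_pos h, if_pos (hd.1 h)]
    ring
  · rw [if_neg h, if_neg (fun h' => h (hd.2 h'))]
    ring

theorem cntZ_add {e i N : ℕ} (hi : 1 ≤ i) (hN : i ∣ N) (x y : ℤ) :
    cntZ p e i (x + (N : ℤ) * y) = cntZ p e i x + cntZ p e i ((N : ℤ) * y) := by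
  have hN' : (i : ℤ) ∣ (N : ℤ) := by exact_mod_cast hN
  have h1 : ∀ a : ℤ, (i : ℤ) ∣ a * ((N : ℤ) * y) := fun a =>
    Dvd.dvd.mul_left (Dvd.dvd.mul_right hN' y) a
  unfold cntZ
  rw [mul_add, mul_add, Int.add_ediv_of_dvd_right (h1 _), Int.add_ediv_of_dvd_right (h1 _)]
  ring

private theorem b6_card (i a N : ℕ) (hi : 1 ≤ i) (ha : a ≤ N) :
    ((Finset.range (N + 1)).filter (fun j => i * j ≤ a)).card = a / i + 1 := by
  have h1 : (Finset.range (N + 1)).filter (fun j => i * j ≤ a) = Finset.range (a / i + 1) := by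
    ext j
    rw [Finset.mem_filter, Finset.mem_range, Finset.mem_range, Nat.lt_succ_iff, Nat.lt_succ_iff,
      Nat.le_div_iff_mul_le (by omega), mul_comm j i]
    constructor
    · exact fun h => h.2
    · intro h
      refine ⟨?_, h⟩
      have h2 : 1 * j ≤ i * j := Nat.mul_le_mul_right _ hi
      omega
  rw [h1, Finset.card_range]

theorem cntZ_nat {e i : ℕ} (he : 1 ≤ e) (hi : 1 ≤ i) (x N : ℕ) (hN : p ^ e * x ≤ N) :
    cntZ p e i x = (((Finset.range (N + 1)).filter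
      (fun j => ¬ p ∣ j ∧ i * j ≤ p ^ e * x)).card : ℤ) := by
  have hp : p.Prime := Fact.out
  have h1 := b6_card i (p ^ e * x) N hi hN
  have h2 : ((Finset.range (N + 1)).filter (fun j => p ∣ j ∧ i * j ≤ p ^ e * x)).card =
      p ^ (e - 1) * x / i + 1 := by
    have hle : p ^ (e - 1) * x ≤ N :=
      le_trans (Nat.mul_le_mul_right _ (Nat.pow_le_pow_right hp.pos (by omega))) hN
    rw [← b6_card i (p ^ (e - 1) * x) N hi hle]
    symm
    refine Finset.card_bij (fun j _ => p * j) ?_ ?_ ?_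
    · intro j hj
      rw [Finset.mem_filter, Finset.mem_range] at hj ⊢
      have h3 : i * (p * j) ≤ p ^ e * x := by
        calc i * (p * j) = p * (i * j) := by ring
          _ ≤ p * (p ^ (e - 1) * x) := Nat.mul_le_mul_left _ hj.2
          _ = p ^ e * x := by
            rw [← mul_assoc, ← pow_succ', Nat.sub_add_cancel he]
      refine ⟨?_, Dvd.intro _ rfl, h3⟩
      have h4 : 1 * (p * j) ≤ i * (p * j) := Nat.mul_le_mul_right _ hi
      omega
    · intro a _ b _ hab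
      exact Nat.eq_of_mul_eq_mul_left hp.pos hab
    · intro j hj
      rw [Finset.mem_filter, Finset.mem_range] at hj
      obtain ⟨hj1, ⟨c, rfl⟩, hj3⟩ := hj
      refine ⟨c, ?_, rfl⟩
      rw [Finset.mem_filter, Finset.mem_range]
      constructor
      · have h4 : 1 * c ≤ p * c := Nat.mul_le_mul_right _ hp.pos
        omega
      · refine Nat.le_of_mul_le_mul_left ?_ hp.pos
        calc p * (i * c) = i * (p * c) := by ring
          _ ≤ p ^ e * x := hj3
          _ = p * (p ^ (e - 1) * x) := by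
            rw [← mul_assoc, ← pow_succ', Nat.sub_add_cancel he]
  have h3 : ((Finset.range (N + 1)).filter (fun j => i * j ≤ p ^ e * x)).card =
      ((Finset.range (N + 1)).filter (fun j => p ∣ j ∧ i * j ≤ p ^ e * x)).card +
      ((Finset.range (N + 1)).filter (fun j => ¬ p ∣ j ∧ i * j ≤ p ^ e * x)).card := by
    rw [← Finset.card_filter_add_card_filter_not (s := (Finset.range (N + 1)).filter
      (fun j => i * j ≤ p ^ e * x)) (fun j => p ∣ j), Finset.filter_filter, Finset.filter_filter]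
    congr 2
    · ext j
      simp only [Finset.mem_filter]
      tauto
    · ext j
      simp only [Finset.mem_filter]
      tauto
  rw [h1, h2] at h3
  have h4 : ((p : ℤ) ^ e * (x : ℤ)) / (i : ℤ) = ((p ^ e * x / i : ℕ) : ℤ) := by push_cast; rfl
  have h5 : ((p : ℤ) ^ (e - 1) * (x : ℤ)) / (i : ℤ) = ((p ^ (e - 1) * x / i : ℕ) : ℤ) := by
    push_cast; rfl
  unfold cntZ
  rw [h4, h5]
  omega

/-- Values on the lower sets of a total preorder. -/
private theorem b6_coef {T : Type} [DecidableEq T] (v : T → ℚ) (φ : Finset T → ℤ)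
    (S : Finset T) : ∃ a : T → ℤ, ∀ A ⊆ S,
      (∀ t ∈ S, ∀ t' ∈ A, v t ≤ v t' → t ∈ A) → φ A = φ S + ∑ t ∈ S \ A, a t := by
  induction S using Finset.induction_on_max_value v with
  | empty =>
    refine ⟨0, fun A hA _ => ?_⟩
    rw [Finset.subset_empty.1 hA]
    simp
  | insert t s hts hmax ih =>
    obtain ⟨a, ha⟩ := ih
    refine ⟨Function.update a t (φ s - φ (insert t s)), fun A hA hdown => ?_⟩
    by_cases htA : t ∈ A
    · have h1 : A = insert t s := by
        refine Finset.Subset.antisymm hA fun x hx => ?_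
        rw [Finset.mem_insert] at hx
        rcases hx with rfl | hx
        · exact htA
        · exact hdown x (Finset.mem_insert_of_mem hx) t htA (hmax x hx)
      rw [h1, Finset.sdiff_self, Finset.sum_empty, add_zero]
    · have hAs : A ⊆ s := by
        intro x hx
        rcases Finset.mem_insert.1 (hA hx) with rfl | h
        · exact absurd hx htA
        · exact h
      have h1 := ha A hAs fun x hx x' hx' hle =>
        hdown x (Finset.mem_insert_of_mem hx) x' hx' hle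
      have h2 : insert t s \ A = insert t (s \ A) := Finset.insert_sdiff_of_notMem _ htA
      have h3 : t ∉ s \ A := fun h => hts (Finset.mem_sdiff.1 h).1
      have h4 : ∑ x ∈ s \ A, Function.update a t (φ s - φ (insert t s)) x = ∑ x ∈ s \ A, a x := by
        refine Finset.sum_congr rfl fun x hx => ?_
        rw [Function.update_of_ne]
        rintro rfl
        exact h3 hx
      rw [h1, h2, Finset.sum_insert h3, Function.update_self, h4]
      ring

/-- The conditions for a set of thresholds. -/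
private def b6W (p : ℕ) (ℓ : Fin n → Fin r → k) (m : Fin n → ℕ)
    (A : Finset (Bx n m × Fin r)) : Submodule k (Fin r → k) where
  carrier := {x | ∀ t ∈ A, tst p ℓ t.1.1.1 ((t.2 : ℕ) + 1) x = 0}
  add_mem' := by
    intro x y hx hy t ht
    have h1 := hx t ht
    have h2 := hy t ht
    simp only [tst, Pi.add_apply, mul_add, Finset.sum_add_distrib] at h1 h2 ⊢
    rw [h1, h2, add_zero]
  zero_mem' := by
    intro t ht
    simp [tst]
  smul_mem' := by
    intro a x hx t ht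
    have h1 := hx t ht
    simp only [tst, Pi.smul_apply, smul_eq_mul] at h1 ⊢
    have h2 : ∀ s, ℓ t.1.1.1 s ^ p ^ ((t.2 : ℕ) + 1) * (a * x s) =
        a * (ℓ t.1.1.1 s ^ p ^ ((t.2 : ℕ) + 1) * x s) := by
      intro s
      ring
    simp only [h2, ← Finset.mul_sum, h1, mul_zero]

/-- Sort the thresholds `τ = (b, e)`, `1 ≤ e ≤ r`, by the values `p^e x₀(b) / i_b`; then
`ν(M) = ∑_s (D_{s-1} - D_s) cnt_{τ_s}(M)`, where `D_s` is the dimension of the space of the `x`
with `tst = 0` for the first `s` thresholds. -/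
theorem pw_Lf (ℓ : Fin n → Fin r → k) (m : Fin n → ℕ) (hm : ∀ B, m B ≤ p)
    (hf : Faithful p ℓ m) :
    ∃ (F : Finset (Bx n m → ℤ)) (N : ℕ), PWwith (Lf (nu p ℓ m)) F N := by
  classical
  -- the functionals
  let hh : (Bx n m × Fin r) × (Bx n m × Fin r) → (Bx n m → ℤ) := fun q c =>
    (if c = q.1.1 then (p : ℤ) ^ ((q.1.2 : ℕ) + 1) * ((q.2.1.1.2 : ℕ) : ℤ) else 0) -
      (if c = q.2.1 then (p : ℤ) ^ ((q.2.2 : ℕ) + 1) * ((q.1.1.1.2 : ℕ) : ℤ) else 0)
  have hdot : ∀ (q : (Bx n m × Fin r) × (Bx n m × Fin r)) (M : Bx n m → ℕ),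
      dot (hh q) (nz M) =
        (p : ℤ) ^ ((q.1.2 : ℕ) + 1) * ((q.2.1.1.2 : ℕ) : ℤ) * M q.1.1 -
          (p : ℤ) ^ ((q.2.2 : ℕ) + 1) * ((q.1.1.1.2 : ℕ) : ℤ) * M q.2.1 := by
    intro q M
    simp only [dot, nz, hh, sub_mul, ite_mul, zero_mul, Finset.sum_sub_distrib,
      Finset.sum_ite_eq', Finset.mem_univ, if_true]
  have hpos : ∀ b : Bx n m, 0 < (b.1.2 : ℕ) := fun b => Nat.pos_of_ne_zero b.2
  have hlt : ∀ b : Bx n m, (b.1.2 : ℕ) < p := fun b => lt_of_lt_of_le b.1.2.2 (hm _)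
  refine ⟨Finset.univ.image hh, ∏ b : Bx n m, (b.1.2 : ℕ), Finset.prod_pos fun b _ => hpos b,
    fun x₀ => ?_⟩
  -- the values of the thresholds
  let v : Bx n m × Fin r → ℚ := fun t => (p : ℚ) ^ ((t.2 : ℕ) + 1) * x₀ t.1 / ((t.1.1.2 : ℕ) : ℚ)
  obtain ⟨a, ha⟩ := b6_coef v (fun A => (Module.finrank k (b6W p ℓ m A) : ℤ))
    (Finset.univ : Finset (Bx n m × Fin r))
  have huniv : Module.finrank k (b6W p ℓ m (Finset.univ : Finset (Bx n m × Fin r))) = 0 := by
    have h1 : b6W p ℓ m (Finset.univ : Finset (Bx n m × Fin r)) = ⊥ := by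
      rw [Submodule.eq_bot_iff]
      intro x hx
      refine eq_zero_of_tst ℓ m hf x fun b e he => ?_
      refine tst_of_le ℓ b.1.1 x (fun e he her => ?_) e he
      have h2 := hx (b, ⟨e - 1, by omega⟩) (Finset.mem_univ _)
      have h3 : e - 1 + 1 = e := by omega
      simpa only [h3] using h2
    rw [h1]
    exact finrank_bot k _
  rw [huniv] at ha
  refine ⟨fun x => ∑ b, x b - ∑ t : Bx n m × Fin r,
    a t * cntZ p ((t.2 : ℕ) + 1) (t.1.1.2 : ℕ) (x t.1), ?_, ?_, ?_⟩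
  · intro x
    have h1 : ∀ t : Bx n m × Fin r,
        a t * cntZ p ((t.2 : ℕ) + 1) (t.1.1.2 : ℕ) ((-x) t.1) =
          -(a t * cntZ p ((t.2 : ℕ) + 1) (t.1.1.2 : ℕ) (x t.1)) := by
      intro t
      rw [Pi.neg_apply, cntZ_neg (by omega) (hpos t.1) (hlt t.1)]
      ring
    change ∑ b, (-x) b - ∑ t : Bx n m × Fin r,
        a t * cntZ p ((t.2 : ℕ) + 1) (t.1.1.2 : ℕ) ((-x) t.1) = _
    rw [Finset.sum_congr rfl fun t _ => h1 t, Finset.sum_neg_distrib]
    simp only [Pi.neg_apply, Finset.sum_neg_distrib]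
    ring
  · intro x y
    have h1 : ∀ t : Bx n m × Fin r,
        a t * cntZ p ((t.2 : ℕ) + 1) (t.1.1.2 : ℕ)
          ((x + ((∏ b : Bx n m, (b.1.2 : ℕ) : ℕ) : ℤ) • y) t.1) =
          a t * cntZ p ((t.2 : ℕ) + 1) (t.1.1.2 : ℕ) (x t.1) +
          a t * cntZ p ((t.2 : ℕ) + 1) (t.1.1.2 : ℕ)
            ((((∏ b : Bx n m, (b.1.2 : ℕ) : ℕ) : ℤ) • y) t.1) := by
      intro t
      rw [Pi.add_apply, Pi.smul_apply, smul_eq_mul, cntZ_add (hpos t.1)
        (Finset.dvd_prod_of_mem (fun b : Bx n m => (b.1.2 : ℕ)) (Finset.mem_univ t.1))]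
      ring
    change ∑ b, (x + ((∏ b : Bx n m, (b.1.2 : ℕ) : ℕ) : ℤ) • y) b - ∑ t : Bx n m × Fin r,
        a t * cntZ p ((t.2 : ℕ) + 1) (t.1.1.2 : ℕ)
          ((x + ((∏ b : Bx n m, (b.1.2 : ℕ) : ℕ) : ℤ) • y) t.1) = _
    rw [Finset.sum_congr rfl fun t _ => h1 t, Finset.sum_add_distrib]
    simp only [Pi.add_apply, Finset.sum_add_distrib]
    ring
  · intro M hM
    -- the comparison of the thresholds
    have hcmp : ∀ t t' : Bx n m × Fin r, v t ≤ v t' →
        p ^ ((t.2 : ℕ) + 1) * (t'.1.1.2 : ℕ) * M t.1 ≤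
          p ^ ((t'.2 : ℕ) + 1) * (t.1.1.2 : ℕ) * M t'.1 := by
      intro t t' hle
      have h1 := (hM (hh (t, t')) (Finset.mem_image_of_mem _ (Finset.mem_univ _))).2
      rw [hdot, hdot] at h1
      have h2 : (p : ℤ) ^ ((t.2 : ℕ) + 1) * ((t'.1.1.2 : ℕ) : ℤ) * x₀ t.1 -
          (p : ℤ) ^ ((t'.2 : ℕ) + 1) * ((t.1.1.2 : ℕ) : ℤ) * x₀ t'.1 ≤ 0 := by
        have h3 : (0 : ℚ) < ((t.1.1.2 : ℕ) : ℚ) := by exact_mod_cast hpos t.1
        have h4 : (0 : ℚ) < ((t'.1.1.2 : ℕ) : ℚ) := by exact_mod_cast hpos t'.1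
        have h5 : (p : ℚ) ^ ((t.2 : ℕ) + 1) * x₀ t.1 / ((t.1.1.2 : ℕ) : ℚ) ≤
          (p : ℚ) ^ ((t'.2 : ℕ) + 1) * x₀ t'.1 / ((t'.1.1.2 : ℕ) : ℚ) := hle
        rw [div_le_div_iff₀ h3 h4] at h5
        have h6 : (p : ℤ) ^ ((t.2 : ℕ) + 1) * x₀ t.1 * ((t'.1.1.2 : ℕ) : ℤ) ≤
          (p : ℤ) ^ ((t'.2 : ℕ) + 1) * x₀ t'.1 * ((t.1.1.2 : ℕ) : ℤ) := by exact_mod_cast h5
        linarith
      have h3 := h1 h2
      have h4 : ((p ^ ((t.2 : ℕ) + 1) * (t'.1.1.2 : ℕ) * M t.1 : ℕ) : ℤ) ≤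
          ((p ^ ((t'.2 : ℕ) + 1) * (t.1.1.2 : ℕ) * M t'.1 : ℕ) : ℤ) := by
        push_cast
        linarith
      exact_mod_cast h4
    -- the active thresholds
    let A : ℕ → Finset (Bx n m × Fin r) := fun j =>
      Finset.univ.filter fun t => p ^ ((t.2 : ℕ) + 1) * M t.1 < (t.1.1.2 : ℕ) * j
    have hW : ∀ j, Wj p ℓ m M j = b6W p ℓ m (A j) := by
      intro j
      ext x
      rw [mem_Wj_iff]
      constructor
      · intro h t ht
        have ht' := (Finset.mem_filter.1 ht).2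
        exact h t.1 _ (by omega) (by have := t.2.2; omega) ht'
      · intro h b e he her hlt'
        have h2 := h (b, ⟨e - 1, by omega⟩) (by
          refine Finset.mem_filter.2 ⟨Finset.mem_univ _, ?_⟩
          have h3 : e - 1 + 1 = e := by omega
          simpa only [h3] using hlt')
        have h3 : e - 1 + 1 = e := by omega
        simpa only [h3] using h2
    have hdim : ∀ j, (Module.finrank k (Wj p ℓ m M j) : ℤ) =
        ∑ t : Bx n m × Fin r, if (t.1.1.2 : ℕ) * j ≤ p ^ ((t.2 : ℕ) + 1) * M t.1 then a t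
          else 0 := by
      intro j
      have h1 := ha (A j) (Finset.subset_univ _) (by
        intro t _ t' ht' hle
        have h2 := (Finset.mem_filter.1 ht').2
        refine Finset.mem_filter.2 ⟨Finset.mem_univ _, ?_⟩
        have h3 := hcmp t t' hle
        have h4 := hpos t.1
        have h5 := hpos t'.1
        refine Nat.lt_of_mul_lt_mul_left (a := (t'.1.1.2 : ℕ)) ?_
        calc (t'.1.1.2 : ℕ) * (p ^ ((t.2 : ℕ) + 1) * M t.1)
            = p ^ ((t.2 : ℕ) + 1) * (t'.1.1.2 : ℕ) * M t.1 := by ring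
          _ ≤ p ^ ((t'.2 : ℕ) + 1) * (t.1.1.2 : ℕ) * M t'.1 := h3
          _ = (t.1.1.2 : ℕ) * (p ^ ((t'.2 : ℕ) + 1) * M t'.1) := by ring
          _ < (t.1.1.2 : ℕ) * ((t'.1.1.2 : ℕ) * j) := Nat.mul_lt_mul_of_pos_left h2 h4
          _ = (t'.1.1.2 : ℕ) * ((t.1.1.2 : ℕ) * j) := by ring)
      rw [hW j, h1, Nat.cast_zero, zero_add, ← Finset.sum_filter]
      refine Finset.sum_congr ?_ fun _ _ => rfl
      ext t
      rw [Finset.mem_sdiff, Finset.mem_filter, Finset.mem_filter]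
      simp only [Finset.mem_univ, true_and, not_lt]
    have hnu : (nu p ℓ m M : ℤ) = ∑ t : Bx n m × Fin r,
        a t * cntZ p ((t.2 : ℕ) + 1) (t.1.1.2 : ℕ) ((nz M) t.1) := by
      unfold nu
      rw [Nat.cast_sum, Finset.sum_congr rfl fun j _ => hdim j, Finset.sum_comm]
      refine Finset.sum_congr rfl fun t _ => ?_
      have hb : p ^ ((t.2 : ℕ) + 1) * M t.1 ≤ bd p r M := by
        unfold bd
        refine Nat.mul_le_mul ?_ ?_
        · exact Nat.pow_le_pow_right (Fact.out : p.Prime).pos (by have := t.2.2; omega)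
        · exact Finset.single_le_sum (f := M) (fun _ _ => Nat.zero_le _) (Finset.mem_univ t.1)
      have h1 := cntZ_nat (p := p) (e := (t.2 : ℕ) + 1) (i := (t.1.1.2 : ℕ)) (by omega)
        (hpos t.1) (M t.1) (bd p r M) hb
      change _ = a t * cntZ p ((t.2 : ℕ) + 1) (t.1.1.2 : ℕ) (M t.1 : ℤ)
      rw [h1, ← Finset.sum_filter, Finset.filter_filter, Finset.sum_const, nsmul_eq_mul, mul_comm]
    change (tot M : ℤ) - (nu p ℓ m M : ℤ) = _
    rw [hnu]
    congr 1
    unfold tot nz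
    push_cast
    rfl

end Pool.Agent.WD
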