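import Pool.Agent.WD.Comb

/-! # Positivity from the convergence of the stringy motive (piece C1) -/

namespace Pool.Agent.WD

open Polynomial Filter

variable {β : Type} [Fintype β] [DecidableEq β]

omit [Fintype β] in
private theorem C1_powerset (s : Finset β) :
    ∑ S ∈ s.powerset, (-1 : ℤ[X]) ^ S.card = if s = ∅ then 1 else 0 := by
  have h := Finset.sum_powerset_neg_one_pow_card (x := s)
  have h1 := congrArg (fun z : ℤ => (z : ℤ[X])) h
  simp only [Int.cast_sum, Int.cast_pow, Int.cast_neg, Int.cast_one] at h1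
  rw [h1]
  split_ifs <;> simp

/-- raise `M` by one on `S` -/
private def C1_up (M : β → ℕ) (S : Finset β) : β → ℕ := fun b => if b ∈ S then M b + 1 else M b

omit [Fintype β] in
private theorem C1_low_apply (M : β → ℕ) (S : Finset β) (b : β) :
    low M S b = if b ∈ S then M b - 1 else M b := rfl

omit [Fintype β] in
private theorem C1_up_apply (M : β → ℕ) (S : Finset β) (b : β) :
    C1_up M S b = if b ∈ S then M b + 1 else M b := rfl

omit [Fintype β] in
private theorem C1_low_up (M : β → ℕ) (S : Finset β) : low (C1_up M S) S = M := by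
  funext b
  rw [C1_low_apply, C1_up_apply]
  split_ifs
  · rfl
  · rfl

private theorem C1_up_low {M : β → ℕ} {S : Finset β} (h : S ⊆ supp M) :
    C1_up (low M S) S = M := by
  funext b
  rw [C1_up_apply, C1_low_apply]
  split_ifs with h1
  · have h2 := h h1
    unfold supp at h2
    rw [Finset.mem_filter] at h2
    have := h2.2
    omega
  · rfl

/-- the coordinates where `L` is less than `M` -/
private def C1_D (L M : β → ℕ) : Finset β := Finset.univ.filter fun b => L b < M b

/-- inversion -/
theorem sum_cell (ν : (β → ℕ) → ℕ) (M : β → ℕ) :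
    ∑ M' ∈ Finset.Iic M, cell ν M' = X ^ (2 * ν M) := by
  have h1 : ∑ M' ∈ Finset.Iic M, cell ν M' =
      ∑ L ∈ Finset.Iic M, ∑ S ∈ (C1_D L M).powerset, (-1) ^ S.card * X ^ (2 * ν L) := by
    unfold cell
    rw [Finset.sum_sigma', Finset.sum_sigma']
    refine Finset.sum_bij' (i := fun x _ => ⟨low x.1 x.2, x.2⟩)
      (j := fun x _ => ⟨C1_up x.1 x.2, x.2⟩) ?_ ?_ ?_ ?_ ?_
    · rintro ⟨M', S⟩ h
      simp only [Finset.mem_sigma, Finset.mem_Iic, Finset.mem_powerset] at h ⊢
      refine ⟨fun b => ?_, fun b hb => ?_⟩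
      · have h5 : M' b ≤ M b := h.1 b
        rw [C1_low_apply]
        split_ifs
        · exact le_trans (Nat.sub_le _ _) h5
        · exact h5
      · have h2 := h.2 hb
        unfold supp at h2
        rw [Finset.mem_filter] at h2
        have h3 := h2.2
        have h4 : M' b ≤ M b := h.1 b
        unfold C1_D
        rw [Finset.mem_filter]
        refine ⟨Finset.mem_univ _, ?_⟩
        rw [C1_low_apply, if_pos hb]
        omega
    · rintro ⟨L, S⟩ h
      simp only [Finset.mem_sigma, Finset.mem_Iic, Finset.mem_powerset] at h ⊢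
      refine ⟨fun b => ?_, fun b hb => ?_⟩
      · have h3 : L b ≤ M b := h.1 b
        rw [C1_up_apply]
        split_ifs with hb
        · have h2 := h.2 hb
          unfold C1_D at h2
          rw [Finset.mem_filter] at h2
          exact h2.2
        · exact h3
      · unfold supp
        rw [Finset.mem_filter]
        refine ⟨Finset.mem_univ _, ?_⟩
        rw [C1_up_apply, if_pos hb]
        omega
    · rintro ⟨M', S⟩ h
      simp only [Finset.mem_sigma, Finset.mem_Iic, Finset.mem_powerset] at h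
      simp only [C1_up_low h.2]
    · rintro ⟨L, S⟩ h
      simp only [C1_low_up]
    · rintro ⟨M', S⟩ h
      rfl
  rw [h1]
  simp_rw [← Finset.sum_mul, C1_powerset]
  rw [Finset.sum_eq_single M]
  · rw [if_pos, one_mul]
    unfold C1_D
    rw [Finset.filter_eq_empty_iff]
    intro b _
    exact lt_irrefl _
  · intro L hL hne
    rw [if_neg, zero_mul]
    intro h2
    apply hne
    rw [Finset.mem_Iic] at hL
    refine le_antisymm hL fun b => ?_
    by_contra hlt
    push Not at hlt
    have h3 : b ∈ C1_D L M := by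
      unfold C1_D
      rw [Finset.mem_filter]
      exact ⟨Finset.mem_univ _, hlt⟩
    rw [h2] at h3
    exact absurd h3 (Finset.notMem_empty b)
  · intro h2
    exact absurd (Finset.mem_Iic.2 le_rfl) h2

private theorem C1_exists_cell (ν : (β → ℕ) → ℕ) (M : β → ℕ) :
    ∃ M' ≤ M, 2 * ν M ≤ (cell ν M').natDegree := by
  by_contra hcon
  push Not at hcon
  have h1 := congrArg (fun P : ℤ[X] => P.coeff (2 * ν M)) (sum_cell ν M)
  simp only [finsetSum_coeff, coeff_X_pow_self] at h1
  rw [Finset.sum_eq_zero] at h1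
  · exact zero_ne_one h1
  · intro M' hM'
    exact coeff_eq_zero_of_natDegree_lt (hcon M' (Finset.mem_Iic.1 hM'))

omit [DecidableEq β] in
private theorem C1_tot_mono {M M' : β → ℕ} (h : M' ≤ M) : tot M' ≤ tot M :=
  Finset.sum_le_sum fun b _ => h b

omit [DecidableEq β] in
private theorem C1_dot_smul (h : β → ℤ) (c : ℕ) (M : β → ℕ) :
    dot h (nz (c • M)) = c * dot h (nz M) := by
  unfold dot nz
  rw [Finset.mul_sum]
  refine Finset.sum_congr rfl fun b _ => ?_
  rw [Pi.smul_apply, smul_eq_mul]
  push_cast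
  ring

/-- If `L(N M) ≤ 0` with `M ≠ 0`, then `ν(c N M) ≥ c N tot(M)` for all `c`, so by `sum_cell` some
`M' ≤ c N M` has a cell of degree `≥ 2 ν(c N M) ≥ 2 tot(M')`; hence `deg Pv(tot M') ≥ 2 tot(M')`,
and these degrees are unbounded. -/
theorem pwpos_of_conv (ν : (β → ℕ) → ℕ) (F : Finset (β → ℤ)) (N : ℕ)
    (hPW : PWwith (Lf ν) F N)
    (hdeg : ∀ M, (cell ν M).natDegree ≤ (Pv ν (tot M)).natDegree)
    (hconv : Tendsto (fun a : ℕ => 2 * (a : ℤ) - ((Pv ν a).natDegree : ℤ)) atTop atTop) :
    PWpos (Lf ν) := by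
  refine ⟨F, N, hPW, fun M hM => ?_⟩
  by_contra hle
  push Not at hle
  obtain ⟨hN, hch⟩ := hPW
  obtain ⟨Λ, hodd, hadd, hL⟩ := hch M
  have h0 : Λ 0 = 0 := by
    have h := hodd 0
    rw [neg_zero] at h
    omega
  -- values on the multiples
  have hval : ∀ c : ℕ, Lf ν ((c * N) • M) = Λ (nz ((c * N) • M)) := by
    intro c
    apply hL
    intro h _
    rw [C1_dot_smul]
    refine ⟨fun h1 => mul_nonneg (Int.natCast_nonneg _) h1,
      fun h1 => mul_nonpos_of_nonneg_of_nonpos (Int.natCast_nonneg _) h1⟩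
  have hnz : ∀ c : ℕ, nz ((c * N) • M) = (N : ℤ) • ((c : ℤ) • nz M) := by
    intro c
    funext b
    unfold nz
    simp only [Pi.smul_apply, smul_eq_mul]
    push_cast
    ring
  have hlin : ∀ c : ℕ, Λ ((N : ℤ) • ((c : ℤ) • nz M)) = c * Λ ((N : ℤ) • nz M) := by
    intro c
    induction c with
    | zero => simp [h0]
    | succ c ih =>
      have h1 : (N : ℤ) • (((c + 1 : ℕ) : ℤ) • nz M) =
          (N : ℤ) • ((c : ℤ) • nz M) + (N : ℤ) • nz M := by
        push_cast
        rw [add_smul, one_smul, smul_add]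
      rw [h1, hadd, ih]
      push_cast
      ring
  have h1N : Lf ν (N • M) = Λ ((N : ℤ) • nz M) := by
    have h1 := hval 1
    rw [hnz 1, one_mul, Nat.cast_one, one_smul] at h1
    exact h1
  have hνc : ∀ c : ℕ, tot ((c * N) • M) ≤ ν ((c * N) • M) := by
    intro c
    have h1 : Lf ν ((c * N) • M) ≤ 0 := by
      rw [hval, hnz, hlin, ← h1N]
      exact mul_nonpos_of_nonneg_of_nonpos (Int.natCast_nonneg _) hle
    unfold Lf at h1
    omega
  have htot : ∀ c : ℕ, c ≤ tot ((c * N) • M) := by
    intro c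
    obtain ⟨b, hb⟩ : ∃ b, M b ≠ 0 := by
      by_contra hcon
      push Not at hcon
      exact hM (funext hcon)
    have h1 : ((c * N) • M) b ≤ tot ((c * N) • M) :=
      Finset.single_le_sum (f := (c * N) • M) (fun _ _ => Nat.zero_le _) (Finset.mem_univ b)
    refine le_trans ?_ h1
    rw [Pi.smul_apply, smul_eq_mul, mul_assoc]
    exact Nat.le_mul_of_pos_right c (Nat.mul_pos hN (Nat.pos_of_ne_zero hb))
  -- the bound
  obtain ⟨A, hA⟩ := (tendsto_atTop.1 hconv 1).exists_forall_of_atTop
  let C : ℕ := ∑ a ∈ Finset.range A, (Pv ν a).natDegree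
  obtain ⟨M', hM', hd⟩ := C1_exists_cell ν (((C + 1) * N) • M)
  have h1 := hdeg M'
  have h2 := hνc (C + 1)
  have h3 := htot (C + 1)
  have h4 := C1_tot_mono hM'
  have h5 : tot M' < A := by
    by_contra h6
    push Not at h6
    have h7 := hA _ h6
    omega
  have h6 : (Pv ν (tot M')).natDegree ≤ C :=
    Finset.single_le_sum (f := fun a => (Pv ν a).natDegree) (fun _ _ => Nat.zero_le _)
      (Finset.mem_range.2 h5)
  omega

end Pool.Agent.WD
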