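import Pool.Agent.WD.Comb

/-! # The two generating series (piece C2) -/

namespace Pool.Agent.WD

open Polynomial

variable {β : Type} [Fintype β] [DecidableEq β]

/-- raise `M` by one on `S` -/
private def C2_up (S : Finset β) (M : β → ℕ) : β → ℕ := fun b => if b ∈ S then M b + 1 else M b

private theorem C2_low_up (S : Finset β) (M : β → ℕ) : low (C2_up S M) S = M := by
  funext b
  unfold low C2_up
  by_cases h : b ∈ S
  · simp [h]
  · simp [h]

private theorem C2_up_low {S : Finset β} {M : β → ℕ} (h : S ⊆ supp M) :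
    C2_up S (low M S) = M := by
  funext b
  unfold low C2_up
  by_cases hb : b ∈ S
  · have h1 := h hb
    simp only [supp, Finset.mem_filter, Finset.mem_univ, true_and] at h1
    simp only [hb, if_true]
    omega
  · simp [hb]

private theorem C2_supp_up (S : Finset β) (M : β → ℕ) : supp (C2_up S M) = supp M ∪ S := by
  ext b
  simp only [supp, C2_up, Finset.mem_filter, Finset.mem_univ, true_and, Finset.mem_union]
  by_cases h : b ∈ S
  · simp [h]
  · simp [h]

private theorem C2_up_inj (S : Finset β) : Function.Injective (C2_up S) := by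
  intro M M' h
  rw [← C2_low_up S M, h, C2_low_up]

private theorem C2_tot {S : Finset β} {M : β → ℕ} (h : S ⊆ supp M) :
    tot (low M S) + S.card = tot M := by
  have h1 : S.card = ∑ b : β, if b ∈ S then 1 else 0 := by
    simp
  rw [h1]
  unfold tot
  rw [← Finset.sum_add_distrib]
  refine Finset.sum_congr rfl fun b _ => ?_
  unfold low
  by_cases hb : b ∈ S
  · have h2 := h hb
    simp only [supp, Finset.mem_filter, Finset.mem_univ, true_and] at h2
    simp only [hb, if_true]
    omega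
  · simp [hb]

private theorem C2_term (ν : (β → ℕ) → ℕ) (T : ℝ) (hT : 1 < T) {S : Finset β} {M : β → ℕ}
    (h : S ⊆ supp M) :
    (-1) ^ S.card * T ^ (2 * ν (low M S)) * T ^ (-(2 * (tot M : ℤ))) =
      (-T ^ (-2 : ℤ)) ^ S.card * (T ^ 2) ^ (-Lf ν (low M S)) := by
  have hT0 : T ≠ 0 := by positivity
  have h1 := C2_tot h
  have h2 : (tot M : ℤ) = tot (low M S) + S.card := by
    rw [← h1]
    push_cast
    ring
  rw [neg_pow (T ^ (-2 : ℤ)), mul_assoc, mul_assoc, h2]
  congr 1
  rw [← zpow_natCast (T ^ (-2 : ℤ)), ← zpow_natCast T 2, ← zpow_natCast T (2 * _), ← zpow_mul,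
    ← zpow_mul, ← zpow_add₀ hT0, ← zpow_add₀ hT0]
  congr 1
  unfold Lf
  push_cast
  ring

/-- The sum over the cells of a weighted sum over the subsets of the support. -/
private theorem C2_swap (c : (β → ℕ) → Finset β → ℝ)
    (hs : ∀ S : Finset β, Summable fun M : β → ℕ => c M S) {s : ℝ}
    (h : HasSum (fun M : β → ℕ => ∑ S : Finset β, c M S) s) :
    HasSum (fun M : β → ℕ => ∑ S ∈ (supp M).powerset, c (low M S) S) s := by
  have h1 : ∀ S : Finset β,
      HasSum (fun M : β → ℕ => if S ⊆ supp M then c (low M S) S else 0) (∑' M, c M S) := by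
    intro S
    rw [← (C2_up_inj S).hasSum_iff]
    · have h2 : ((fun M : β → ℕ => if S ⊆ supp M then c (low M S) S else 0) ∘ C2_up S) =
          fun M => c M S := by
        funext M
        simp only [Function.comp_apply]
        rw [if_pos (by rw [C2_supp_up]; exact Finset.subset_union_right), C2_low_up]
      rw [h2]
      exact (hs S).hasSum
    · intro M hM
      rw [if_neg]
      intro h3
      exact hM ⟨low M S, C2_up_low h3⟩
  have h2 := hasSum_sum (s := Finset.univ) fun S _ => h1 S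
  have h3 : ∑ S : Finset β, ∑' M, c M S = s := by
    have h4 := hasSum_sum (s := Finset.univ) fun S _ => (hs S).hasSum
    exact h4.unique h
  rw [h3] at h2
  refine h2.congr_fun ?_
  intro M
  rw [← Finset.sum_filter]
  refine Finset.sum_congr ?_ fun S _ => rfl
  ext S
  simp

/-- Sums by fibres. -/
private theorem C2_fib {α κ : Type} (f : α → ℝ) (key : α → κ) (Fs : κ → Finset α)
    (hF : ∀ k x, x ∈ Fs k ↔ key x = k) {s : ℝ} (h : HasSum f s) :
    HasSum (fun k => ∑ x ∈ Fs k, f x) s := by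
  let e : (Σ k, Fs k) ≃ α :=
    { toFun := fun y => y.2.1
      invFun := fun x => ⟨key x, x, (hF _ _).2 rfl⟩
      left_inv := by
        rintro ⟨k, x, hx⟩
        obtain rfl := (hF k x).1 hx
        rfl
      right_inv := fun x => rfl }
  have h1 := e.hasSum_iff.2 h
  exact h1.sigma fun k => (Fs k).hasSum f

private theorem C2_aeval (ν : (β → ℕ) → ℕ) (T : ℝ) (M : β → ℕ) :
    aeval T (cell ν M) = ∑ S ∈ (supp M).powerset, (-1) ^ S.card * T ^ (2 * ν (low M S)) := by
  unfold cell
  simp [map_sum]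

private theorem C2_hasSum (ν : (β → ℕ) → ℕ) (T : ℝ) (hT : 1 < T)
    (hs : Summable fun M : β → ℕ => (T ^ 2) ^ (-Lf ν M)) :
    HasSum (fun M : β → ℕ => aeval T (cell ν M) * T ^ (-(2 * (tot M : ℤ))))
      ((1 - T ^ (-2 : ℤ)) ^ Fintype.card β * ∑' M : β → ℕ, (T ^ 2) ^ (-Lf ν M)) := by
  have h1 := C2_swap (fun M S => (-T ^ (-2 : ℤ)) ^ S.card * (T ^ 2) ^ (-Lf ν M))
    (fun S => hs.mul_left _) (s := (1 - T ^ (-2 : ℤ)) ^ Fintype.card β *
      ∑' M : β → ℕ, (T ^ 2) ^ (-Lf ν M)) (by
    have h2 : (fun M : β → ℕ => ∑ S : Finset β, (-T ^ (-2 : ℤ)) ^ S.card *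
        (T ^ 2) ^ (-Lf ν M)) =
        fun M => (1 - T ^ (-2 : ℤ)) ^ Fintype.card β * (T ^ 2) ^ (-Lf ν M) := by
      funext M
      rw [← Finset.sum_mul]
      congr 1
      have h3 := Fintype.sum_pow_mul_eq_add_pow β (-T ^ (-2 : ℤ)) 1
      simp only [one_pow, mul_one] at h3
      rw [h3]
      congr 1
      ring
    rw [h2]
    exact hs.hasSum.mul_left _)
  refine h1.congr_fun ?_
  intro M
  rw [C2_aeval, Finset.sum_mul]
  exact Finset.sum_congr rfl fun S hS => C2_term ν T hT (Finset.mem_powerset.1 hS)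

/-- the sums over the cells converge absolutely -/
theorem summable_cell (ν : (β → ℕ) → ℕ) (T : ℝ) (hT : 1 < T)
    (hs : Summable fun M : β → ℕ => (T ^ 2) ^ (-Lf ν M)) :
    Summable fun M : β → ℕ => aeval T (cell ν M) * T ^ (-(2 * (tot M : ℤ))) :=
  (C2_hasSum ν T hT hs).summable

/-- `M' = low M S` -/
theorem tsum_cell (ν : (β → ℕ) → ℕ) (T : ℝ) (hT : 1 < T)
    (hs : Summable fun M : β → ℕ => (T ^ 2) ^ (-Lf ν M)) :
    ∑' M : β → ℕ, aeval T (cell ν M) * T ^ (-(2 * (tot M : ℤ))) =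
      (1 - T ^ (-2 : ℤ)) ^ Fintype.card β * ∑' M : β → ℕ, (T ^ 2) ^ (-Lf ν M) :=
  (C2_hasSum ν T hT hs).tsum_eq

theorem hasSum_Pv (ν : (β → ℕ) → ℕ) (T : ℝ) (hT : 1 < T)
    (hs : Summable fun M : β → ℕ => (T ^ 2) ^ (-Lf ν M)) :
    HasSum (fun a : ℕ => aeval T (Pv ν a) * T ^ (-(2 * (a : ℤ))))
      ((1 - T ^ (-2 : ℤ)) ^ Fintype.card β * ∑' M : β → ℕ, (T ^ 2) ^ (-Lf ν M)) := by
  have h1 := C2_fib _ (fun M : β → ℕ => tot M) (fun a => Finset.piAntidiag Finset.univ a)
    (fun a M => by simp [tot]) (C2_hasSum ν T hT hs)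
  refine h1.congr_fun ?_
  intro a
  unfold Pv
  rw [map_sum, Finset.sum_mul]
  refine Finset.sum_congr rfl fun M hM => ?_
  have h2 : tot M = a := by
    simpa [tot] using hM
  rw [h2]

private theorem C2_coef (T : ℝ) (hT : 1 < T) (A : Finset β) :
    ∑ S : Finset β, (-T ^ (-2 : ℤ)) ^ S.card * (T ^ 2) ^ (A ∪ S).card =
      if A = Finset.univ then (T ^ 2 - 1) ^ Fintype.card β else 0 := by
  have hT0 : T ≠ 0 := by positivity
  have h1 := Finset.prod_add (fun _ : β => (-1 : ℝ)) (fun b => if b ∈ A then T ^ 2 else 1)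
    Finset.univ
  have h2 : ∀ S : Finset β, (-T ^ (-2 : ℤ)) ^ S.card * (T ^ 2) ^ (A ∪ S).card =
      (∏ _b ∈ S, (-1 : ℝ)) * ∏ b ∈ Finset.univ \ S, (if b ∈ A then T ^ 2 else 1) := by
    intro S
    have h3 : ∏ b ∈ Finset.univ \ S, (if b ∈ A then T ^ 2 else (1 : ℝ)) =
        (T ^ 2) ^ (A \ S).card := by
      rw [Finset.prod_ite, Finset.prod_const, Finset.prod_const_one, mul_one]
      congr 2
      ext b
      simp [and_comm]
    have h4 : (A ∪ S).card = S.card + (A \ S).card := by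
      rw [← Finset.card_sdiff_add_card A S, add_comm]
    rw [h3, h4, Finset.prod_const, pow_add, ← mul_assoc, ← mul_pow]
    congr 2
    rw [zpow_neg]
    have : (T ^ (2 : ℤ) : ℝ) = T ^ 2 := by norm_cast
    rw [this]
    field_simp
  rw [Finset.sum_congr rfl fun S _ => h2 S]
  rw [Finset.powerset_univ] at h1
  rw [← h1]
  by_cases hA : A = Finset.univ
  · rw [if_pos hA, hA]
    simp only [Finset.mem_univ, if_true, Finset.prod_const, Finset.card_univ]
    congr 1
    ring
  · rw [if_neg hA]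
    have h5 : ∃ b, b ∉ A := by
      by_contra hcon
      push Not at hcon
      exact hA (Finset.eq_univ_iff_forall.2 hcon)
    obtain ⟨b, hb⟩ := h5
    exact Finset.prod_eq_zero (Finset.mem_univ b) (by rw [if_neg hb]; ring)

private theorem C2_hasSum' (ν : (β → ℕ) → ℕ) (T : ℝ) (hT : 1 < T)
    (hs : Summable fun M : β → ℕ => (T ^ 2) ^ (-Lf ν M)) :
    HasSum (fun M : β → ℕ => aeval T (cell ν M) * T ^ (2 * (((supp M).card : ℤ) - (tot M : ℤ))))
      ((T ^ 2 - 1) ^ Fintype.card β *
        ∑' M : {M : β → ℕ // ∀ b, 0 < M b}, (T ^ 2) ^ (-Lf ν M.1)) := by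
  have hT0 : T ≠ 0 := by positivity
  have hg0 : ∀ M : β → ℕ, 0 ≤ (T ^ 2) ^ (-Lf ν M) := fun M => by positivity
  have hsub : HasSum (fun M : β → ℕ => if ∀ b, 0 < M b then
      (T ^ 2 - 1) ^ Fintype.card β * (T ^ 2) ^ (-Lf ν M) else 0)
      ((T ^ 2 - 1) ^ Fintype.card β *
        ∑' M : {M : β → ℕ // ∀ b, 0 < M b}, (T ^ 2) ^ (-Lf ν M.1)) := by
    have h1 : Function.Injective (Subtype.val : {M : β → ℕ // ∀ b, 0 < M b} → (β → ℕ)) :=
      Subtype.val_injective
    rw [← h1.hasSum_iff]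
    · have h2 : ((fun M : β → ℕ => if ∀ b, 0 < M b then
          (T ^ 2 - 1) ^ Fintype.card β * (T ^ 2) ^ (-Lf ν M) else 0) ∘
          (Subtype.val : {M : β → ℕ // ∀ b, 0 < M b} → (β → ℕ))) =
          fun M => (T ^ 2 - 1) ^ Fintype.card β * (T ^ 2) ^ (-Lf ν M.1) := by
        funext M
        simp only [Function.comp_apply]
        rw [if_pos M.2]
      rw [h2]
      exact ((hs.subtype {M : β → ℕ | ∀ b, 0 < M b}).hasSum).mul_left _
    · intro M hM
      rw [if_neg]
      intro h3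
      exact hM ⟨⟨M, h3⟩, rfl⟩
  have h1 := C2_swap (fun M S => (-T ^ (-2 : ℤ)) ^ S.card *
      (T ^ 2) ^ (supp M ∪ S).card * (T ^ 2) ^ (-Lf ν M)) (fun S => by
    refine Summable.of_norm_bounded (g := fun M => (T ^ 2) ^ Fintype.card β *
      (T ^ 2) ^ (-Lf ν M)) (hs.mul_left _) fun M => ?_
    rw [norm_mul, norm_mul, norm_pow, norm_neg, Real.norm_of_nonneg (hg0 M)]
    refine mul_le_mul_of_nonneg_right ?_ (hg0 M)
    have h2 : ‖T ^ (-2 : ℤ)‖ ^ S.card ≤ 1 := by
      apply pow_le_one₀ (norm_nonneg _)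
      rw [Real.norm_of_nonneg (by positivity)]
      exact zpow_le_one_of_nonpos₀ hT.le (by norm_num)
    have h3 : ‖(T ^ 2) ^ (supp M ∪ S).card‖ ≤ (T ^ 2) ^ Fintype.card β := by
      rw [Real.norm_of_nonneg (by positivity)]
      exact pow_le_pow_right₀ (by nlinarith) (Finset.card_le_univ _)
    calc ‖T ^ (-2 : ℤ)‖ ^ S.card * ‖(T ^ 2) ^ (supp M ∪ S).card‖
        ≤ 1 * (T ^ 2) ^ Fintype.card β :=
          mul_le_mul h2 h3 (norm_nonneg _) zero_le_one
      _ = _ := one_mul _) (by
    refine hsub.congr_fun ?_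
    intro M
    rw [← Finset.sum_mul, C2_coef T hT]
    by_cases h : ∀ b, 0 < M b
    · have h2 : supp M = Finset.univ := by
        ext b
        simp [supp, (h b).ne']
      rw [if_pos h2, if_pos h]
    · have h2 : supp M ≠ Finset.univ := by
        intro h3
        apply h
        intro b
        have h4 : b ∈ supp M := by
          rw [h3]
          exact Finset.mem_univ b
        simp only [supp, Finset.mem_filter, Finset.mem_univ, true_and] at h4
        omega
      rw [if_neg h2, if_neg h, zero_mul])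
  refine h1.congr_fun ?_
  intro M
  rw [C2_aeval, Finset.sum_mul]
  refine Finset.sum_congr rfl fun S hS => ?_
  have hS' := Finset.mem_powerset.1 hS
  have h2 := C2_term ν T hT hS'
  have h3 : supp (low M S) ∪ S = supp M := by
    rw [← C2_supp_up, C2_up_low hS']
  rw [h3]
  have h4 : T ^ (2 * (((supp M).card : ℤ) - (tot M : ℤ))) =
      (T ^ 2) ^ (supp M).card * T ^ (-(2 * (tot M : ℤ))) := by
    rw [← zpow_natCast T 2, ← zpow_natCast, ← zpow_mul, ← zpow_add₀ hT0]
    congr 1
    push_cast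
    ring
  rw [h4]
  calc (-1) ^ S.card * T ^ (2 * ν (low M S)) *
        ((T ^ 2) ^ (supp M).card * T ^ (-(2 * (tot M : ℤ))))
      = (T ^ 2) ^ (supp M).card *
        ((-1) ^ S.card * T ^ (2 * ν (low M S)) * T ^ (-(2 * (tot M : ℤ)))) := by ring
    _ = _ := by
      rw [h2]
      ring

/-- the weight of `M` is `T^(2 (#supp M - tot M))`; the terms with a coordinate `0` of
`low M S` cancel -/
theorem hasSum_Qw (ν : (β → ℕ) → ℕ) (T : ℝ) (hT : 1 < T)
    (hs : Summable fun M : β → ℕ => (T ^ 2) ^ (-Lf ν M)) :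
    HasSum (fun b : ℤ => aeval T (Qw ν b) * T ^ (2 * b))
      ((T ^ 2 - 1) ^ Fintype.card β *
        ∑' M : {M : β → ℕ // ∀ b, 0 < M b}, (T ^ 2) ^ (-Lf ν M.1)) := by
  have hdisj : ∀ b : ℤ, ((Finset.range (Fintype.card β + (-b).toNat + 1) : Finset ℕ) :
      Set ℕ).PairwiseDisjoint fun a =>
      (Finset.piAntidiag (Finset.univ : Finset β) a).filter
        fun M => ((supp M).card : ℤ) - (a : ℤ) = b := by
    intro b a _ a' _ haa
    rw [Function.onFun, Finset.disjoint_left]
    intro M hM hM'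
    simp only [Finset.mem_filter, Finset.mem_piAntidiag] at hM hM'
    exact haa (hM.1.1.symm.trans hM'.1.1)
  have h1 := C2_fib _ (fun M : β → ℕ => ((supp M).card : ℤ) - (tot M : ℤ))
    (fun b => (Finset.range (Fintype.card β + (-b).toNat + 1)).biUnion fun a =>
      (Finset.piAntidiag Finset.univ a).filter fun M => ((supp M).card : ℤ) - (a : ℤ) = b)
    (fun b M => by
      simp only [Finset.mem_biUnion, Finset.mem_range, Finset.mem_filter,
        Finset.mem_piAntidiag, Finset.mem_univ, implies_true, and_true]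
      constructor
      · rintro ⟨a, -, rfl, h⟩
        exact h
      · intro h
        refine ⟨tot M, ?_, rfl, h⟩
        have h2 : (supp M).card ≤ Fintype.card β := Finset.card_le_univ _
        omega) (C2_hasSum' ν T hT hs)
  refine h1.congr_fun ?_
  intro b
  rw [Finset.sum_biUnion (hdisj b)]
  unfold Qw
  rw [map_sum, Finset.sum_mul]
  refine Finset.sum_congr rfl fun a _ => ?_
  rw [map_sum, Finset.sum_mul]
  refine Finset.sum_congr rfl fun M hM => ?_
  simp only [Finset.mem_filter, Finset.mem_piAntidiag] at hM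
  have h2 : tot M = a := hM.1.1
  rw [h2, hM.2]

end Pool.Agent.WD
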