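import Pool.Agent.WD.Comb

/-! # Simplicial cones (piece D2) -/

namespace Pool.Agent.WD

variable {β : Type} [Fintype β] [DecidableEq β]

/-- the coordinates of `x` in the cone `C`  -/
def SC.co (C : SC β) (i : β) (x : β → ℤ) : ℚ := ∑ b, C.lam i b * (x b : ℚ)

theorem SC.expand (C : SC β) (x : β → ℤ) (b : β) :
    (x b : ℚ) = ∑ i, C.co i x * (C.a i b : ℚ) := by
  have hM : (Matrix.of C.lam) * (Matrix.of fun b j => (C.a j b : ℚ)) = 1 := by
    ext i j
    rw [Matrix.mul_apply, Matrix.one_apply]
    exact C.pair i j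
  have hM' := _root_.mul_eq_one_comm.1 hM
  have h : ∀ c, ∑ i, (C.a i b : ℚ) * C.lam i c = if b = c then 1 else 0 := by
    intro c
    have := congrFun (congrFun hM' b) c
    rw [Matrix.mul_apply, Matrix.one_apply] at this
    exact this
  unfold SC.co
  simp only [Finset.sum_mul]
  rw [Finset.sum_comm]
  have h2 : ∀ c, ∑ i, C.lam i c * (x c : ℚ) * (C.a i b : ℚ) =
      (if b = c then 1 else 0) * (x c : ℚ) := by
    intro c
    rw [← h c, Finset.sum_mul]
    exact Finset.sum_congr rfl fun i _ => by ring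
  rw [Finset.sum_congr rfl fun c _ => h2 c]
  simp

theorem SC.co_add (C : SC β) (i : β) (x y : β → ℤ) : C.co i (x + y) = C.co i x + C.co i y := by
  unfold SC.co
  rw [← Finset.sum_add_distrib]
  refine Finset.sum_congr rfl fun b _ => ?_
  rw [Pi.add_apply]
  push_cast
  ring

theorem SC.co_smul (C : SC β) (i : β) (z : ℤ) (x : β → ℤ) : C.co i (z • x) = z * C.co i x := by
  unfold SC.co
  rw [Finset.mul_sum]
  refine Finset.sum_congr rfl fun b _ => ?_
  rw [Pi.smul_apply, smul_eq_mul]
  push_cast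
  ring

theorem SC.co_a (C : SC β) (i j : β) : C.co i (C.a j) = if i = j then 1 else 0 := C.pair i j

/-- every rational functional is determined by its values on the generators -/
theorem SC.lam_ne_zero (C : SC β) (i : β) : C.lam i ≠ 0 := by
  intro h
  have := C.pair i i
  rw [h, if_pos rfl] at this
  simp at this

/-- e.g. `ξ_b = x^(index of b)` with a transcendental `x > 0` -/
theorem exists_generic (β : Type) [Fintype β] [DecidableEq β] :
    ∃ ξ : β → ℝ, (∀ b, 0 < ξ b) ∧ Generic ξ := by
  have ht : Transcendental ℤ (liouvilleNumber ((2 : ℕ) : ℝ)) := transcendental_liouvilleNumber le_rfl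
  set x : ℝ := liouvilleNumber ((2 : ℕ) : ℝ) with hx
  have hx0 : 0 ≤ x := by
    rw [hx]
    unfold liouvilleNumber
    exact tsum_nonneg fun i => by positivity
  have hx1 : x ≠ 0 := by
    intro h
    rw [h] at ht
    exact ht isAlgebraic_zero
  have hpos : 0 < x := lt_of_le_of_ne hx0 (Ne.symm hx1)
  have ht' : Transcendental ℚ x := fun h => ht ((IsFractionRing.isAlgebraic_iff ℤ ℚ ℝ).2 h)
  refine ⟨fun b => x ^ ((Fintype.equivFin β b : ℕ)), fun b => by positivity, ?_⟩
  intro h hne hsum
  apply hne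
  set P : Polynomial ℚ := ∑ b, Polynomial.C (h b) * Polynomial.X ^ ((Fintype.equivFin β b : ℕ))
    with hP
  have h1 : Polynomial.aeval x P = 0 := by
    rw [hP, map_sum, ← hsum]
    refine Finset.sum_congr rfl fun b _ => ?_
    rw [map_mul, Polynomial.aeval_C, map_pow, Polynomial.aeval_X]
    rfl
  have h2 : P = 0 := by
    by_contra hP0
    exact ht' ⟨P, hP0, h1⟩
  funext b
  have h3 : P.coeff (Fintype.equivFin β b : ℕ) = h b := by
    rw [hP, Polynomial.finsetSum_coeff, Finset.sum_eq_single b]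
    · rw [Polynomial.coeff_C_mul, Polynomial.coeff_X_pow, if_pos rfl, mul_one]
    · intro c _ hc
      rw [Polynomial.coeff_C_mul, Polynomial.coeff_X_pow, if_neg, mul_zero]
      intro hcb
      exact hc ((Fintype.equivFin β).injective (Fin.ext hcb)).symm
    · intro hb; exact absurd (Finset.mem_univ b) hb
  rw [← h3, h2, Polynomial.coeff_zero]
  rfl

theorem Generic.neg {ξ : β → ℝ} (h : Generic ξ) : Generic (-ξ) := by
  intro g hg h0
  apply h g hg
  have : ∑ b, (g b : ℝ) * (-ξ) b = - ∑ b, (g b : ℝ) * ξ b := by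
    rw [← Finset.sum_neg_distrib]
    exact Finset.sum_congr rfl fun b _ => by rw [Pi.neg_apply]; ring
  rw [this, neg_eq_zero] at h0
  exact h0

/-- the cone spanned by the vectors `N e_b`  -/
theorem exists_std (N : ℕ) (hN : 0 < N) :
    ∃ C : SC β, (∀ i, C.a i = fun b => if i = b then (N : ℤ) else 0) ∧
      ∀ i b, C.lam i b = if i = b then (1 / (N : ℚ)) else 0 := by
  have hN' : (N : ℚ) ≠ 0 := by exact_mod_cast hN.ne'
  refine ⟨⟨fun i b => if i = b then (N : ℤ) else 0, fun i b => if i = b then (1 / (N : ℚ)) else 0,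
    fun i j => ?_⟩, fun i => rfl, fun i b => rfl⟩
  simp only [ite_mul, zero_mul, Finset.sum_ite_eq, Finset.mem_univ, if_true]
  by_cases h : i = j
  · subst h
    rw [if_pos rfl, if_pos rfl]
    push_cast
    field_simp
  · rw [if_neg h, if_neg (Ne.symm h)]
    simp

private theorem D2_half (C : SC β) (i j : β) (hij : i ≠ j) (α γ : ℤ) (hα : 0 < α) :
    ∃ C1 : SC β,
      C1.a = Function.update C.a i (α • C.a i + γ • C.a j) ∧
      (∀ b, C1.lam i b = C.lam i b / α) ∧ (∀ b, C1.lam j b = C.lam j b - γ / α * C.lam i b) ∧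
      (∀ l, l ≠ i → l ≠ j → C1.lam l = C.lam l) := by
  have hα' : (α : ℚ) ≠ 0 := by exact_mod_cast hα.ne'
  set L : β → β → ℚ := fun l => if l = i then fun b => C.lam i b / α else
    if l = j then fun b => C.lam j b - γ / α * C.lam i b else C.lam l with hL
  have Li : L i = fun b => C.lam i b / α := by simp only [hL, if_true]
  have Lj : L j = fun b => C.lam j b - γ / α * C.lam i b := by
    simp only [hL, if_neg hij.symm, if_true]
  have Ll : ∀ l, l ≠ i → l ≠ j → L l = C.lam l := by
    intro l h1 h2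
    simp only [hL, if_neg h1, if_neg h2]
  -- pairing of the new functionals with old vectors
  have pi : ∀ m, ∑ b, L i b * (C.a m b : ℚ) = (if i = m then 1 else 0) / α := by
    intro m
    rw [Li, ← C.pair i m, Finset.sum_div]
    exact Finset.sum_congr rfl fun b _ => by ring
  have pj : ∀ m, ∑ b, L j b * (C.a m b : ℚ) =
      (if j = m then 1 else 0) - γ / α * (if i = m then 1 else 0) := by
    intro m
    rw [Lj, ← C.pair i m, ← C.pair j m, Finset.mul_sum, ← Finset.sum_sub_distrib]
    exact Finset.sum_congr rfl fun b _ => by ring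
  have pl : ∀ l, l ≠ i → l ≠ j → ∀ m, ∑ b, L l b * (C.a m b : ℚ) = if l = m then 1 else 0 := by
    intro l h1 h2 m
    rw [Ll l h1 h2, C.pair]
  refine ⟨⟨Function.update C.a i (α • C.a i + γ • C.a j), L, fun l m => ?_⟩, rfl,
    fun b => congrFun Li b, fun b => congrFun Lj b, Ll⟩
  by_cases hm : m = i
  · subst hm
    rw [Function.update_self]
    have e : ∑ b, L l b * (((α • C.a m + γ • C.a j) b : ℤ) : ℚ) =
        α * ∑ b, L l b * (C.a m b : ℚ) + γ * ∑ b, L l b * (C.a j b : ℚ) := by
      rw [Finset.mul_sum, Finset.mul_sum, ← Finset.sum_add_distrib]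
      refine Finset.sum_congr rfl fun b _ => ?_
      rw [Pi.add_apply, Pi.smul_apply, Pi.smul_apply, smul_eq_mul, smul_eq_mul]
      push_cast
      ring
    rw [e]
    by_cases hl : l = m
    · subst hl
      rw [pi, pi, if_pos rfl, if_neg hij]
      field_simp
      ring
    · by_cases hlj : l = j
      · subst hlj
        rw [pj, pj, if_neg hl, if_pos rfl, if_pos rfl, if_neg hij]
        field_simp
        ring
      · rw [pl l hl hlj, pl l hl hlj, if_neg hl, if_neg hlj]
        ring
  · rw [Function.update_of_ne hm]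
    by_cases hl : l = i
    · subst hl
      rw [pi, if_neg (Ne.symm hm)]
      simp
    · by_cases hlj : l = j
      · subst hlj
        rw [pj, if_neg (Ne.symm hm)]
        simp
      · rw [pl l hl hlj]

/-- star subdivision at `α a_i + γ a_j` -/
theorem exists_split (C : SC β) (i j : β) (hij : i ≠ j) (α γ : ℤ) (hα : 0 < α) (hγ : 0 < γ) :
    ∃ C1 C2 : SC β,
      C1.a = Function.update C.a i (α • C.a i + γ • C.a j) ∧
      C2.a = Function.update C.a j (α • C.a i + γ • C.a j) ∧
      (∀ b, C1.lam i b = C.lam i b / α) ∧ (∀ b, C1.lam j b = C.lam j b - γ / α * C.lam i b) ∧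
      (∀ l, l ≠ i → l ≠ j → C1.lam l = C.lam l) ∧
      (∀ b, C2.lam j b = C.lam j b / γ) ∧ (∀ b, C2.lam i b = C.lam i b - α / γ * C.lam j b) ∧
      (∀ l, l ≠ i → l ≠ j → C2.lam l = C.lam l) := by
  obtain ⟨C1, h1, h2, h3, h4⟩ := D2_half C i j hij α γ hα
  obtain ⟨C2, k1, k2, k3, k4⟩ := D2_half C j i hij.symm γ α hγ
  refine ⟨C1, C2, h1, ?_, h2, h3, h4, k2, k3, fun l hi hj => k4 l hj hi⟩
  rw [k1, add_comm]

end Pool.Agent.WD
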