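import Pool.Agent.WD.D0
import Pool.Agent.WD.D1
import Pool.Agent.WD.D2

/-! # Reciprocity for one cone (piece D3) -/

namespace Pool.Agent.WD

variable {β : Type} [Fintype β] [DecidableEq β]

open Classical in
/-- the lattice points of the half open parallelepiped: coordinates in `[0, 1)` where
`λ_i(ξ) > 0`, in `(0, 1]` where `λ_i(ξ) < 0` -/
def inBox (C : SC β) (ξ : β → ℝ) (x : β → ℤ) : Prop :=
  ∀ i, (0 < ∑ b, (C.lam i b : ℝ) * ξ b → 0 ≤ C.co i x ∧ C.co i x < 1) ∧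
    (∑ b, (C.lam i b : ℝ) * ξ b < 0 → 0 < C.co i x ∧ C.co i x ≤ 1)

private theorem D3_sign (C : SC β) (ξ : β → ℝ) (hξ : Generic ξ) (i : β) :
    0 < ∑ b, (C.lam i b : ℝ) * ξ b ∨ ∑ b, (C.lam i b : ℝ) * ξ b < 0 := by
  rcases lt_trichotomy (∑ b, (C.lam i b : ℝ) * ξ b) 0 with h | h | h
  · exact Or.inr h
  · exact absurd h (hξ _ (C.lam_ne_zero i))
  · exact Or.inl h

private theorem D3_box_bd (C : SC β) (ξ : β → ℝ) (hξ : Generic ξ) {x : β → ℤ}
    (hx : inBox C ξ x) (i : β) : 0 ≤ C.co i x ∧ C.co i x ≤ 1 := by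
  rcases D3_sign C ξ hξ i with h | h
  · exact ⟨((hx i).1 h).1, ((hx i).1 h).2.le⟩
  · exact ⟨((hx i).2 h).1.le, ((hx i).2 h).2⟩

theorem finite_inBox (C : SC β) (ξ : β → ℝ) (hξ : Generic ξ) :
    {x : β → ℤ | inBox C ξ x}.Finite := by
  refine (Set.finite_Icc (fun b => -∑ i, |C.a i b|) (fun b => ∑ i, |C.a i b|)).subset ?_
  intro x hx
  have key : ∀ b, |x b| ≤ ∑ i, |C.a i b| := by
    intro b
    have h1 : ((|x b| : ℤ) : ℚ) ≤ ((∑ i, |C.a i b| : ℤ) : ℚ) := by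
      push_cast
      rw [C.expand x b]
      refine (Finset.abs_sum_le_sum_abs _ _).trans (Finset.sum_le_sum fun i _ => ?_)
      rw [abs_mul]
      have h2 := D3_box_bd C ξ hξ hx i
      have h3 : |C.co i x| ≤ 1 := abs_le.2 ⟨by linarith [h2.1], h2.2⟩
      exact mul_le_of_le_one_left (abs_nonneg _) h3
    exact_mod_cast h1
  rw [Set.mem_Icc]
  constructor
  · intro b
    exact (abs_le.1 (key b)).1
  · intro b
    exact (abs_le.1 (key b)).2

private theorem D3_co_zero (C : SC β) (i : β) : C.co i 0 = 0 := by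
  simp [SC.co]

private theorem D3_co_neg (C : SC β) (i : β) (x : β → ℤ) : C.co i (-x) = -C.co i x := by
  have h := C.co_smul i (-1) x
  rw [neg_smul, one_smul] at h
  rw [h]
  push_cast
  ring

private theorem D3_co_sum (C : SC β) (i : β) (z : β → ℤ) :
    C.co i (∑ j, z j • C.a j) = z i := by
  have h : ∀ s : Finset β, C.co i (∑ j ∈ s, z j • C.a j) =
      ∑ j ∈ s, (z j : ℚ) * (if i = j then 1 else 0) := by
    intro s
    induction s using Finset.induction_on with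
    | empty => simp [D3_co_zero]
    | insert a s ha ih =>
      rw [Finset.sum_insert ha, Finset.sum_insert ha, C.co_add, C.co_smul, C.co_a, ih]
  rw [h Finset.univ]
  simp

private theorem D3_co_add_sum (C : SC β) (i : β) (x : β → ℤ) (z : β → ℤ) :
    C.co i (x + ∑ j, z j • C.a j) = C.co i x + z i := by
  rw [C.co_add, D3_co_sum]

private theorem D3_inC_iff (C : SC β) (ξ : β → ℝ) (hξ : Generic ξ) (x : β → ℤ) :
    inC C ξ x ↔ ∀ i, (0 < ∑ b, (C.lam i b : ℝ) * ξ b → 0 ≤ C.co i x) ∧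
      (∑ b, (C.lam i b : ℝ) * ξ b < 0 → 0 < C.co i x) := by
  unfold inC posX
  refine forall_congr' fun i => ?_
  change (0 < C.co i x ∨ C.co i x = 0 ∧ _) ↔ _
  constructor
  · rintro (h | ⟨h1, h2⟩)
    · exact ⟨fun _ => h.le, fun _ => h⟩
    · exact ⟨fun _ => h1.ge, fun h3 => absurd h2 (not_lt.2 h3.le)⟩
  · rintro ⟨h1, h2⟩
    rcases D3_sign C ξ hξ i with h | h
    · rcases (h1 h).lt_or_eq with h3 | h3
      · exact Or.inl h3
      · exact Or.inr ⟨h3.symm, h⟩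
    · exact Or.inl (h2 h)

/-- `x = ρ + ∑ m_i a_i` with unique `ρ` in the box and `m ∈ ℕ^β` -/
theorem exists_boxEquiv (C : SC β) (ξ : β → ℝ) (hξ : Generic ξ) :
    ∃ E : {x : β → ℤ // inBox C ξ x} × (β → ℕ) ≃ {x : β → ℤ // inC C ξ x},
      ∀ ρ m, (E (ρ, m)).1 = ρ.1 + ∑ i, (m i : ℤ) • C.a i := by
  classical
  have hmem : ∀ (ρ : {x : β → ℤ // inBox C ξ x}) (m : β → ℕ),
      inC C ξ (ρ.1 + ∑ i, (m i : ℤ) • C.a i) := by
    intro ρ m
    rw [D3_inC_iff C ξ hξ]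
    intro i
    rw [D3_co_add_sum C i ρ.1 (fun j => (m j : ℤ))]
    have hm : (0 : ℚ) ≤ ((m i : ℤ) : ℚ) := by positivity
    constructor
    · intro h
      have h1 := ((ρ.2 i).1 h).1
      linarith
    · intro h
      have h1 := ((ρ.2 i).2 h).1
      linarith
  let f : {x : β → ℤ // inBox C ξ x} × (β → ℕ) → {x : β → ℤ // inC C ξ x} :=
    fun y => ⟨y.1.1 + ∑ i, (y.2 i : ℤ) • C.a i, hmem y.1 y.2⟩
  have hinj : Function.Injective f := by
    rintro ⟨ρ, m⟩ ⟨ρ', m'⟩ h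
    have h1 : ρ.1 + ∑ i, (m i : ℤ) • C.a i = ρ'.1 + ∑ i, (m' i : ℤ) • C.a i :=
      congrArg Subtype.val h
    have h2 : m = m' := by
      funext i
      have h3 := congrArg (C.co i) h1
      rw [D3_co_add_sum C i ρ.1 (fun j => (m j : ℤ)),
        D3_co_add_sum C i ρ'.1 (fun j => (m' j : ℤ))] at h3
      have h4 : ((m i : ℤ) : ℚ) - ((m' i : ℤ) : ℚ) < 1 ∧
          -1 < ((m i : ℤ) : ℚ) - ((m' i : ℤ) : ℚ) := by
        rcases D3_sign C ξ hξ i with h5 | h5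
        · have h6 := (ρ.2 i).1 h5
          have h7 := (ρ'.2 i).1 h5
          constructor <;> linarith [h6.1, h6.2, h7.1, h7.2]
        · have h6 := (ρ.2 i).2 h5
          have h7 := (ρ'.2 i).2 h5
          constructor <;> linarith [h6.1, h6.2, h7.1, h7.2]
      have h5 : (m i : ℤ) - (m' i : ℤ) < 1 := by exact_mod_cast h4.1
      have h6 : -1 < (m i : ℤ) - (m' i : ℤ) := by exact_mod_cast h4.2
      omega
    subst h2
    have h3 : ρ = ρ' := Subtype.ext (add_right_cancel h1)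
    rw [h3]
  have hsurj : Function.Surjective f := by
    rintro ⟨x, hx⟩
    have hx' := (D3_inC_iff C ξ hξ x).1 hx
    have hm : ∀ i, ∃ m : ℕ, (0 < ∑ b, (C.lam i b : ℝ) * ξ b →
        0 ≤ C.co i x - m ∧ C.co i x - m < 1) ∧
        (∑ b, (C.lam i b : ℝ) * ξ b < 0 → 0 < C.co i x - m ∧ C.co i x - m ≤ 1) := by
      intro i
      rcases D3_sign C ξ hξ i with h5 | h5
      · refine ⟨⌊C.co i x⌋₊, fun _ => ⟨?_, ?_⟩, fun h => absurd h5 (not_lt.2 h.le)⟩
        · have := Nat.floor_le ((hx' i).1 h5)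
          linarith
        · have := Nat.lt_floor_add_one (C.co i x)
          linarith
      · have h6 := (hx' i).2 h5
        have h7 : 0 < ⌈C.co i x⌉₊ := Nat.ceil_pos.2 h6
        have h8 : ((⌈C.co i x⌉₊ - 1 : ℕ) : ℚ) = (⌈C.co i x⌉₊ : ℚ) - 1 := by
          rw [Nat.cast_sub (by omega)]
          simp
        refine ⟨⌈C.co i x⌉₊ - 1, fun h => absurd h (not_lt.2 h5.le), fun _ => ⟨?_, ?_⟩⟩
        · rw [h8]
          have := Nat.ceil_lt_add_one h6.le
          linarith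
        · rw [h8]
          have := Nat.le_ceil (C.co i x)
          linarith
    choose m hm using hm
    have hco : ∀ i, C.co i (x + ∑ j, (-(m j : ℤ)) • C.a j) = C.co i x - m i := by
      intro i
      rw [D3_co_add_sum C i x (fun j => -(m j : ℤ))]
      push_cast
      ring
    have hbox : inBox C ξ (x + ∑ j, (-(m j : ℤ)) • C.a j) := by
      intro i
      rw [hco i]
      exact hm i
    refine ⟨(⟨_, hbox⟩, m), ?_⟩
    apply Subtype.ext
    change (x + ∑ j, (-(m j : ℤ)) • C.a j) + ∑ i, (m i : ℤ) • C.a i = x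
    rw [add_assoc, ← Finset.sum_add_distrib]
    simp
  exact ⟨Equiv.ofBijective f ⟨hinj, hsurj⟩, fun ρ m => rfl⟩

/-- the involution `ρ ↦ ∑ a_i - ρ` -/
theorem inBox_neg_iff (C : SC β) (ξ : β → ℝ) (x : β → ℤ) :
    inBox C (-ξ) (∑ i, C.a i - x) ↔ inBox C ξ x := by
  have hco : ∀ i, C.co i (∑ i, C.a i - x) = 1 - C.co i x := by
    intro i
    have h1 : (∑ i, C.a i - x) = (-x) + ∑ j, (1 : ℤ) • C.a j := by
      simp only [one_smul]
      abel
    rw [h1, D3_co_add_sum C i (-x) (fun _ => 1), D3_co_neg]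
    push_cast
    ring
  have hxi : ∀ i, ∑ b, (C.lam i b : ℝ) * (-ξ) b = -∑ b, (C.lam i b : ℝ) * ξ b := by
    intro i
    rw [← Finset.sum_neg_distrib]
    refine Finset.sum_congr rfl fun b _ => ?_
    rw [Pi.neg_apply]
    ring
  unfold inBox
  refine forall_congr' fun i => ?_
  rw [hco i, hxi i]
  constructor
  · rintro ⟨h1, h2⟩
    refine ⟨fun h => ?_, fun h => ?_⟩
    · have := h2 (by linarith)
      exact ⟨by linarith [this.2], by linarith [this.1]⟩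
    · have := h1 (by linarith)
      exact ⟨by linarith [this.2], by linarith [this.1]⟩
  · rintro ⟨h1, h2⟩
    refine ⟨fun h => ?_, fun h => ?_⟩
    · have := h2 (by linarith)
      exact ⟨by linarith [this.2], by linarith [this.1]⟩
    · have := h1 (by linarith)
      exact ⟨by linarith [this.2], by linarith [this.1]⟩

omit [Fintype β] [DecidableEq β] in
private theorem D3_Lam_mul (Lam : (β → ℤ) → ℤ) (N : ℕ)
    (hq : ∀ x y, Lam (x + (N : ℤ) • y) = Lam x + Lam ((N : ℤ) • y)) (x y : β → ℤ) (m : ℕ) :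
    Lam (x + (m : ℤ) • ((N : ℤ) • y)) = Lam x + m * Lam ((N : ℤ) • y) := by
  induction m with
  | zero => simp
  | succ m ih =>
    have h1 : x + ((m + 1 : ℕ) : ℤ) • ((N : ℤ) • y) =
        (x + (m : ℤ) • ((N : ℤ) • y)) + (N : ℤ) • y := by
      push_cast
      rw [add_smul, one_smul]
      abel
    rw [h1, hq, ih]
    push_cast
    ring

private theorem D3_Lam_sum (Lam : (β → ℤ) → ℤ) (N : ℕ)
    (hq : ∀ x y, Lam (x + (N : ℤ) • y) = Lam x + Lam ((N : ℤ) • y)) (a : β → β → ℤ)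
    (ha : ∀ i, ∃ y : β → ℤ, a i = (N : ℤ) • y) (x : β → ℤ) (m : β → ℕ) :
    Lam (x + ∑ i, (m i : ℤ) • a i) = Lam x + ∑ i, (m i : ℤ) * Lam (a i) := by
  have h : ∀ s : Finset β, Lam (x + ∑ i ∈ s, (m i : ℤ) • a i) =
      Lam x + ∑ i ∈ s, (m i : ℤ) * Lam (a i) := by
    intro s
    induction s using Finset.induction_on with
    | empty => simp
    | insert i s hi ih =>
      obtain ⟨y, hy⟩ := ha i
      rw [Finset.sum_insert hi, Finset.sum_insert hi]
      have h1 : x + ((m i : ℤ) • a i + ∑ i ∈ s, (m i : ℤ) • a i) =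
          (x + ∑ i ∈ s, (m i : ℤ) • a i) + (m i : ℤ) • ((N : ℤ) • y) := by
        rw [hy]
        abel
      rw [h1, D3_Lam_mul Lam N hq, ih, hy]
      ring
  exact h Finset.univ

private theorem D3_dot_expand (C : SC β) (h x : β → ℤ) :
    (dot h x : ℚ) = ∑ i, C.co i x * (dot h (C.a i) : ℚ) := by
  unfold dot
  push_cast
  have h1 : ∀ b, (h b : ℚ) * (x b : ℚ) = ∑ i, C.co i x * ((h b : ℚ) * (C.a i b : ℚ)) := by
    intro b
    rw [C.expand x b, Finset.mul_sum]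
    refine Finset.sum_congr rfl fun i _ => ?_
    ring
  simp only [h1]
  rw [Finset.sum_comm]
  refine Finset.sum_congr rfl fun i _ => ?_
  rw [Finset.mul_sum]

/-- On the closed cone `L` is given by `Λ`. -/
private theorem D3_Lz (L : (β → ℕ) → ℤ) (F : Finset (β → ℤ)) (N : ℕ) (C : SC β)
    (hN : ∀ i, ∃ M : β → ℕ, C.a i = nz (N • M))
    (hF : ∀ h ∈ F, (∀ i, 0 ≤ dot h (C.a i)) ∨ (∀ i, dot h (C.a i) ≤ 0))
    (Lam : (β → ℤ) → ℤ) (x0 : β → ℕ) (hx0 : nz x0 = ∑ i, C.a i)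
    (hL : ∀ M : β → ℕ, (∀ h ∈ F, (0 ≤ dot h (nz x0) → 0 ≤ dot h (nz M)) ∧
      (dot h (nz x0) ≤ 0 → dot h (nz M) ≤ 0)) → L M = Lam (nz M))
    (x : β → ℤ) (hx : ∀ i, 0 ≤ C.co i x) : Lz L x = Lam x := by
  have hxb : ∀ b, 0 ≤ x b := by
    intro b
    have h1 : (0 : ℚ) ≤ (x b : ℚ) := by
      rw [C.expand x b]
      refine Finset.sum_nonneg fun i _ => mul_nonneg (hx i) ?_
      obtain ⟨M, hM⟩ := hN i
      rw [hM]
      unfold nz
      positivity
    exact_mod_cast h1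
  have hnz : nz (fun b => (x b).toNat) = x := by
    funext b
    unfold nz
    exact Int.toNat_of_nonneg (hxb b)
  unfold Lz
  rw [hL (fun b => (x b).toNat), hnz]
  intro h hh
  rw [hnz]
  have hx0co : ∀ i, C.co i (nz x0) = 1 := by
    intro i
    have h1 := D3_co_sum C i (fun _ => 1)
    simp only [one_smul] at h1
    rw [hx0, h1]
    norm_num
  have e0 : (dot h (nz x0) : ℚ) = ∑ i, (dot h (C.a i) : ℚ) := by
    rw [D3_dot_expand C h (nz x0)]
    refine Finset.sum_congr rfl fun i _ => ?_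
    rw [hx0co i, one_mul]
  have e1 := D3_dot_expand C h x
  rcases hF h hh with hs | hs
  · have hs' : ∀ i, (0 : ℚ) ≤ (dot h (C.a i) : ℚ) := fun i => by exact_mod_cast hs i
    have h2 : (0 : ℚ) ≤ (dot h x : ℚ) := by
      rw [e1]
      exact Finset.sum_nonneg fun i _ => mul_nonneg (hx i) (hs' i)
    refine ⟨fun _ => by exact_mod_cast h2, fun h3 => ?_⟩
    have h4 : (dot h (nz x0) : ℚ) ≤ 0 := by exact_mod_cast h3
    rw [e0] at h4
    have h5 : ∑ i, (dot h (C.a i) : ℚ) = 0 :=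
      le_antisymm h4 (Finset.sum_nonneg fun i _ => hs' i)
    rw [Finset.sum_eq_zero_iff_of_nonneg fun i _ => hs' i] at h5
    have h6 : (dot h x : ℚ) = 0 := by
      rw [e1]
      refine Finset.sum_eq_zero fun i hi => ?_
      rw [h5 i hi, mul_zero]
    have h7 : dot h x = 0 := by exact_mod_cast h6
    exact h7.le
  · have hs' : ∀ i, (dot h (C.a i) : ℚ) ≤ 0 := fun i => by exact_mod_cast hs i
    have h2 : (dot h x : ℚ) ≤ 0 := by
      rw [e1]
      exact Finset.sum_nonpos fun i _ => mul_nonpos_of_nonneg_of_nonpos (hx i) (hs' i)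
    refine ⟨fun h3 => ?_, fun _ => by exact_mod_cast h2⟩
    have h4 : 0 ≤ (dot h (nz x0) : ℚ) := by exact_mod_cast h3
    rw [e0] at h4
    have h5 : ∑ i, (dot h (C.a i) : ℚ) = 0 :=
      le_antisymm (Finset.sum_nonpos fun i _ => hs' i) h4
    rw [Finset.sum_eq_zero_iff_of_nonpos fun i _ => hs' i] at h5
    have h6 : (dot h x : ℚ) = 0 := by
      rw [e1]
      refine Finset.sum_eq_zero fun i hi => ?_
      rw [h5 i hi, mul_zero]
    have h7 : dot h x = 0 := by exact_mod_cast h6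
    exact h7.ge

private theorem D3_mul {ι κ : Type*} {f : ι → ℝ} {g : κ → ℝ} {s t : ℝ} (hf : HasSum f s)
    (hg : HasSum g t) (hf0 : 0 ≤ f) (hg0 : 0 ≤ g) :
    HasSum (fun x : ι × κ => f x.1 * g x.2) (s * t) :=
  hf.mul hg (Summable.mul_of_nonneg hf.summable hg.summable hf0 hg0)

private theorem D3_hasSum (L : (β → ℕ) → ℤ) (C : SC β) (N : ℕ) (Lam : (β → ℤ) → ℤ)
    (hq : ∀ x y, Lam (x + (N : ℤ) • y) = Lam x + Lam ((N : ℤ) • y))
    (ha : ∀ i, ∃ y : β → ℤ, C.a i = (N : ℤ) • y) (hpos : ∀ i, 0 < Lam (C.a i))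
    (hLz : ∀ x : β → ℤ, (∀ i, 0 ≤ C.co i x) → Lz L x = Lam x)
    (ξ : β → ℝ) (hξ : Generic ξ) [Fintype {x : β → ℤ // inBox C ξ x}] (q : ℝ) (hq1 : 1 < q) :
    HasSum (fun x : {x : β → ℤ // inC C ξ x} => q ^ (-Lz L x.1))
      ((∑ ρ : {x : β → ℤ // inBox C ξ x}, q ^ (-Lam ρ.1)) *
        ∏ i, (1 - q ^ (-Lam (C.a i)))⁻¹) := by
  have hq0 : 0 < q := by linarith
  obtain ⟨E, hE⟩ := exists_boxEquiv C ξ hξ
  rw [← E.hasSum_iff]
  have h1 : (fun x : {x : β → ℤ // inC C ξ x} => q ^ (-Lz L x.1)) ∘ E =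
      fun y : {x : β → ℤ // inBox C ξ x} × (β → ℕ) =>
        (fun ρ : {x : β → ℤ // inBox C ξ x} => q ^ (-Lam ρ.1)) y.1 *
          (fun m : β → ℕ => ∏ i, (q ^ (-Lam (C.a i))) ^ m i) y.2 := by
    funext y
    obtain ⟨ρ, m⟩ := y
    have h2 : Lz L (E (ρ, m)).1 = Lam (E (ρ, m)).1 := by
      apply hLz
      intro i
      have h3 := (D3_inC_iff C ξ hξ _).1 (E (ρ, m)).2 i
      rcases D3_sign C ξ hξ i with h5 | h5
      · exact h3.1 h5
      · exact (h3.2 h5).le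
    have h3 : Lam (E (ρ, m)).1 = Lam ρ.1 + ∑ i, (m i : ℤ) * Lam (C.a i) := by
      rw [hE, D3_Lam_sum Lam N hq C.a ha]
    show q ^ (-Lz L (E (ρ, m)).1) = q ^ (-Lam ρ.1) * ∏ i, (q ^ (-Lam (C.a i))) ^ m i
    rw [h2, h3, neg_add, zpow_add₀ hq0.ne']
    congr 1
    rw [← Finset.sum_neg_distrib]
    have h4 : ∀ s : Finset β, q ^ (∑ i ∈ s, -((m i : ℤ) * Lam (C.a i))) =
        ∏ i ∈ s, (q ^ (-Lam (C.a i))) ^ m i := by
      intro s
      induction s using Finset.induction_on with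
      | empty => simp
      | insert i s hi ih =>
        rw [Finset.sum_insert hi, Finset.prod_insert hi, zpow_add₀ hq0.ne', ih]
        congr 1
        rw [← zpow_natCast, ← zpow_mul]
        congr 1
        ring
    exact h4 Finset.univ
  rw [h1]
  have hlt : ∀ i, q ^ (-Lam (C.a i)) < 1 := by
    intro i
    exact zpow_lt_one_of_neg₀ hq1 (by have := hpos i; omega)
  have hge : ∀ i, 0 ≤ q ^ (-Lam (C.a i)) := fun i => (zpow_pos hq0 _).le
  have hf : HasSum (fun ρ : {x : β → ℤ // inBox C ξ x} => q ^ (-Lam ρ.1))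
      (∑ ρ : {x : β → ℤ // inBox C ξ x}, q ^ (-Lam ρ.1)) := hasSum_fintype _
  have hg : HasSum (fun m : β → ℕ => ∏ i, (q ^ (-Lam (C.a i))) ^ m i)
      (∏ i, (1 - q ^ (-Lam (C.a i)))⁻¹) := hasSum_geom_pi _ hge hlt
  have hf0 : 0 ≤ (fun ρ : {x : β → ℤ // inBox C ξ x} => q ^ (-Lam ρ.1)) :=
    fun ρ => (zpow_pos hq0 _).le
  have hg0 : 0 ≤ (fun m : β → ℕ => ∏ i, (q ^ (-Lam (C.a i))) ^ m i) :=
    fun m => Finset.prod_nonneg fun i _ => pow_nonneg (hge i) _
  have h5 := D3_mul hf hg hf0 hg0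
  exact h5

/-- `F = ∑_ρ q^(-L ρ) ∏ (1 - q^(-L(a_i)))^(-1)`, `G` the same with `1/q`; for `-ξ` use
`L(∑ a_i - ρ) = ∑ L(a_i) - L(ρ)`. Use `hPW` with `x₀ = ∑ a_i`. -/
theorem good_base (L : (β → ℕ) → ℤ) (F : Finset (β → ℤ)) (N : ℕ) (hPW : PWwith L F N)
    (hpos : ∀ M : β → ℕ, M ≠ 0 → 0 < L (N • M)) (ξ : β → ℝ) (hξ : Generic ξ) (C : SC β)
    (hN : ∀ i, ∃ M : β → ℕ, C.a i = nz (N • M))
    (hF : ∀ h ∈ F, (∀ i, 0 ≤ dot h (C.a i)) ∨ (∀ i, dot h (C.a i) ≤ 0)) :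
    GoodC L ξ C := by
  classical
  obtain ⟨-, hPW⟩ := hPW
  choose M hM using hN
  have hnz : ∀ M : β → ℕ, nz (N • M) = (N : ℤ) • nz M := by
    intro M
    funext b
    unfold nz
    simp
  have hx0 : nz (∑ i, N • M i) = ∑ i, C.a i := by
    funext b
    rw [Finset.sum_apply]
    unfold nz
    rw [Finset.sum_apply]
    push_cast
    refine Finset.sum_congr rfl fun i _ => ?_
    rw [hM i]
    unfold nz
    rfl
  obtain ⟨Lam, hodd, hq, hL⟩ := hPW (∑ i, N • M i)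
  have hLz := D3_Lz L F N C (fun i => ⟨M i, hM i⟩) hF Lam _ hx0 hL
  have ha : ∀ i, ∃ y : β → ℤ, C.a i = (N : ℤ) • y := fun i => ⟨nz (M i), by rw [hM i, hnz]⟩
  have hcoa : ∀ i j, 0 ≤ C.co i (C.a j) := by
    intro i j
    rw [C.co_a]
    split_ifs
    · exact zero_le_one
    · exact le_refl _
  have hLa : ∀ i, Lam (C.a i) = L (N • M i) := by
    intro i
    rw [← hLz (C.a i) (fun j => hcoa j i)]
    unfold Lz
    congr 1
    funext b
    rw [hM i]
    unfold nz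
    exact Int.toNat_natCast _
  have hM0 : ∀ i, M i ≠ 0 := by
    intro i h0
    have h1 : C.a i = 0 := by
      rw [hM i, h0, smul_zero]
      rfl
    have h2 := C.co_a i i
    rw [h1, D3_co_zero, if_pos rfl] at h2
    exact zero_ne_one h2
  have hLpos : ∀ i, 0 < Lam (C.a i) := by
    intro i
    rw [hLa i]
    exact hpos _ (hM0 i)
  have : Fintype {x : β → ℤ // inBox C ξ x} := (finite_inBox C ξ hξ).fintype
  have : Fintype {x : β → ℤ // inBox C (-ξ) x} := (finite_inBox C (-ξ) hξ.neg).fintype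
  refine ⟨fun q => (∑ ρ : {x : β → ℤ // inBox C ξ x}, q ^ (-Lam ρ.1)) *
      ∏ i, (1 - q ^ (-Lam (C.a i)))⁻¹,
    fun q => (∑ ρ : {x : β → ℤ // inBox C ξ x}, q ^ (Lam ρ.1)) *
      ∏ i, (1 - q ^ (Lam (C.a i)))⁻¹, ?_, fun q hq1 => ⟨?_, ?_⟩⟩
  · refine Dual.mul (Dual.sum Finset.univ _ _ fun ρ _ => ?_)
      (Dual.prod Finset.univ _ _ fun i _ => Dual.inv_one_sub _ (hLpos i).ne')
    have h1 := Dual.zpow (-Lam ρ.1)
    rwa [neg_neg] at h1
  · exact D3_hasSum L C N Lam hq ha hLpos hLz ξ hξ q hq1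
  · have hq0 : 0 < q := by linarith
    have h1 := D3_hasSum L C N Lam hq ha hLpos hLz (-ξ) hξ.neg q hq1
    have hE : ∀ x : β → ℤ, inBox C ξ x ↔ inBox C (-ξ) (∑ i, C.a i - x) :=
      fun x => (inBox_neg_iff C ξ x).symm
    let e : {x : β → ℤ // inBox C ξ x} ≃ {x : β → ℤ // inBox C (-ξ) x} :=
      (Equiv.subLeft (∑ i, C.a i)).subtypeEquiv hE
    have h2 : ∀ ρ : {x : β → ℤ // inBox C ξ x},
        Lam (e ρ).1 = -Lam ρ.1 + ∑ i, Lam (C.a i) := by
      intro ρ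
      have h3 : (e ρ).1 = -ρ.1 + ∑ i, ((1 : ℕ) : ℤ) • C.a i := by
        show ∑ i, C.a i - ρ.1 = _
        simp only [Nat.cast_one, one_smul]
        abel
      rw [h3, D3_Lam_sum Lam N hq C.a ha (-ρ.1) (fun _ => 1), hodd]
      simp
    have h3 : (∑ ρ : {x : β → ℤ // inBox C (-ξ) x}, q ^ (-Lam ρ.1)) =
        ∑ ρ : {x : β → ℤ // inBox C ξ x}, q ^ (Lam ρ.1) * q ^ (-∑ i, Lam (C.a i)) := by
      rw [← e.sum_comp]
      refine Finset.sum_congr rfl fun ρ _ => ?_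
      rw [h2 ρ, ← zpow_add₀ hq0.ne']
      congr 1
      ring
    have h4 : q ^ (-∑ i, Lam (C.a i)) * ∏ i, (1 - q ^ (-Lam (C.a i)))⁻¹ =
        (-1) ^ Fintype.card β * ∏ i, (1 - q ^ (Lam (C.a i)))⁻¹ := by
      have h5 : q ^ (-∑ i, Lam (C.a i)) = ∏ i, q ^ (-Lam (C.a i)) := by
        rw [← Finset.sum_neg_distrib]
        have h6 : ∀ s : Finset β, q ^ (∑ i ∈ s, -Lam (C.a i)) = ∏ i ∈ s, q ^ (-Lam (C.a i)) := by
          intro s
          induction s using Finset.induction_on with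
          | empty => simp
          | insert i s hi ih =>
            rw [Finset.sum_insert hi, Finset.prod_insert hi, zpow_add₀ hq0.ne', ih]
        exact h6 Finset.univ
      have h6 : ((-1 : ℝ)) ^ Fintype.card β = ∏ _i : β, (-1 : ℝ) := by
        rw [Finset.prod_const, Finset.card_univ]
      rw [h5, h6, ← Finset.prod_mul_distrib, ← Finset.prod_mul_distrib]
      refine Finset.prod_congr rfl fun i _ => ?_
      have h7 : 1 < q ^ (Lam (C.a i)) := one_lt_zpow₀ hq1 (hLpos i)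
      rw [zpow_neg]
      have h8 : q ^ (Lam (C.a i)) ≠ 0 := (zpow_pos hq0 _).ne'
      generalize q ^ (Lam (C.a i)) = y at h7 h8 ⊢
      have h9 : 1 - y ≠ 0 := by linarith
      have h10 : y - 1 ≠ 0 := by linarith
      have h11 : 1 - y⁻¹ = (y - 1) / y := by field_simp
      rw [h11, inv_div]
      field_simp
      ring
    rw [h3, ← Finset.sum_mul, mul_assoc, h4] at h1
    convert h1 using 1
    ring

end Pool.Agent.WD
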