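import Pool.Agent.WD.D1
import Pool.Agent.WD.D2

/-! # Splitting a cone (piece D4) -/

namespace Pool.Agent.WD

variable {β : Type} [Fintype β] [DecidableEq β]

omit [DecidableEq β] in
private theorem D4_smul {ξ : β → ℝ} {h k : β → ℚ} {x : β → ℤ} {c : ℚ} (hc : 0 < c)
    (hk : ∀ b, k b = c * h b) (hp : posX ξ h x) : posX ξ k x := by
  have e1 : ∑ b, k b * (x b : ℚ) = c * ∑ b, h b * (x b : ℚ) := by
    rw [Finset.mul_sum]
    refine Finset.sum_congr rfl fun b _ => ?_
    rw [hk b]
    ring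
  have e2 : ∑ b, (k b : ℝ) * ξ b = (c : ℝ) * ∑ b, (h b : ℝ) * ξ b := by
    rw [Finset.mul_sum]
    refine Finset.sum_congr rfl fun b _ => ?_
    rw [hk b]
    push_cast
    ring
  have hc' : (0 : ℝ) < (c : ℝ) := by exact_mod_cast hc
  unfold posX
  rw [e1, e2]
  rcases hp with hp | ⟨hp, hq⟩
  · exact Or.inl (mul_pos hc hp)
  · exact Or.inr ⟨by rw [hp, mul_zero], mul_pos hc' hq⟩

omit [DecidableEq β] in
private theorem D4_add {ξ : β → ℝ} {h k s : β → ℚ} {x : β → ℤ}
    (hs : ∀ b, s b = h b + k b) (hp : posX ξ h x) (hq : posX ξ k x) : posX ξ s x := by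
  have e1 : ∑ b, s b * (x b : ℚ) = ∑ b, h b * (x b : ℚ) + ∑ b, k b * (x b : ℚ) := by
    rw [← Finset.sum_add_distrib]
    refine Finset.sum_congr rfl fun b _ => ?_
    rw [hs b]
    ring
  have e2 : ∑ b, (s b : ℝ) * ξ b = ∑ b, (h b : ℝ) * ξ b + ∑ b, (k b : ℝ) * ξ b := by
    rw [← Finset.sum_add_distrib]
    refine Finset.sum_congr rfl fun b _ => ?_
    rw [hs b]
    push_cast
    ring
  unfold posX
  rw [e1, e2]
  rcases hp with hp | ⟨hp, hp'⟩ <;> rcases hq with hq | ⟨hq, hq'⟩
  · exact Or.inl (add_pos hp hq)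
  · exact Or.inl (by rw [hq]; linarith)
  · exact Or.inl (by rw [hp]; linarith)
  · exact Or.inr ⟨by rw [hp, hq, add_zero], add_pos hp' hq'⟩

omit [DecidableEq β] in
private theorem D4_neg {ξ : β → ℝ} {h k : β → ℚ} {x : β → ℤ}
    (hk : ∀ b, k b = - h b) (hp : posX ξ h x) (hq : posX ξ k x) : False := by
  have e1 : ∑ b, k b * (x b : ℚ) = - ∑ b, h b * (x b : ℚ) := by
    rw [← Finset.sum_neg_distrib]
    refine Finset.sum_congr rfl fun b _ => ?_
    rw [hk b]
    ring
  have e2 : ∑ b, (k b : ℝ) * ξ b = - ∑ b, (h b : ℝ) * ξ b := by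
    rw [← Finset.sum_neg_distrib]
    refine Finset.sum_congr rfl fun b _ => ?_
    rw [hk b]
    push_cast
    ring
  unfold posX at hq
  rw [e1, e2] at hq
  rcases hp with hp | ⟨hp, hp'⟩ <;> rcases hq with hq | ⟨hq, hq'⟩ <;> linarith

omit [DecidableEq β] in
private theorem D4_or {ξ : β → ℝ} (hξ : Generic ξ) {h k : β → ℚ} (x : β → ℤ)
    (hk : ∀ b, k b = - h b) (h0 : h ≠ 0) : posX ξ h x ∨ posX ξ k x := by
  have e1 : ∑ b, k b * (x b : ℚ) = - ∑ b, h b * (x b : ℚ) := by
    rw [← Finset.sum_neg_distrib]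
    refine Finset.sum_congr rfl fun b _ => ?_
    rw [hk b]
    ring
  have e2 : ∑ b, (k b : ℝ) * ξ b = - ∑ b, (h b : ℝ) * ξ b := by
    rw [← Finset.sum_neg_distrib]
    refine Finset.sum_congr rfl fun b _ => ?_
    rw [hk b]
    push_cast
    ring
  have h1 := hξ h h0
  unfold posX
  rw [e1, e2]
  rcases lt_trichotomy (∑ b, h b * (x b : ℚ)) 0 with h2 | h2 | h2
  · exact Or.inr (Or.inl (by linarith))
  · rcases lt_or_gt_of_ne h1 with h3 | h3
    · exact Or.inr (Or.inr ⟨by rw [h2, neg_zero], by linarith⟩)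
    · exact Or.inl (Or.inr ⟨h2, h3⟩)
  · exact Or.inl (Or.inl h2)

/-- With `μ = α λ_j - γ λ_i` (generic), `x` is in the half open cone of `C` if and only if it is in
exactly one of the half open cones of `C1` (then `μ > 0`) and `C2` (then `μ < 0`). -/
theorem inC_split {ξ : β → ℝ} (hξ : Generic ξ) {C C1 C2 : SC β} {i j : β} (hij : i ≠ j)
    {α γ : ℤ} (hα : 0 < α) (hγ : 0 < γ)
    (h1i : ∀ b, C1.lam i b = C.lam i b / α) (h1j : ∀ b, C1.lam j b = C.lam j b - γ / α * C.lam i b)
    (h1 : ∀ l, l ≠ i → l ≠ j → C1.lam l = C.lam l)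
    (h2j : ∀ b, C2.lam j b = C.lam j b / γ) (h2i : ∀ b, C2.lam i b = C.lam i b - α / γ * C.lam j b)
    (h2 : ∀ l, l ≠ i → l ≠ j → C2.lam l = C.lam l) (x : β → ℤ) :
    (inC C ξ x ↔ inC C1 ξ x ∨ inC C2 ξ x) ∧ ¬ (inC C1 ξ x ∧ inC C2 ξ x) := by
  have hα' : (0 : ℚ) < (α : ℚ) := by exact_mod_cast hα
  have hγ' : (0 : ℚ) < (γ : ℚ) := by exact_mod_cast hγ
  have hα0 : (α : ℚ) ≠ 0 := hα'.ne'
  have hγ0 : (γ : ℚ) ≠ 0 := hγ'.ne'
  have hneg : ∀ b, C2.lam i b = -((α / γ : ℚ) * C1.lam j b) := by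
    intro b
    rw [h2i b, h1j b]
    field_simp
    ring
  have hμ : (fun b => (α / γ : ℚ) * C1.lam j b) ≠ 0 := by
    intro h0
    have hp : ∑ b, C1.lam j b * (C1.a j b : ℚ) = 1 := by
      rw [C1.pair j j, if_pos rfl]
    have hz : ∀ b, C1.lam j b = 0 := by
      intro b
      have := congrFun h0 b
      simp only [Pi.zero_apply, mul_eq_zero, div_eq_zero_iff] at this
      rcases this with (h | h) | h
      · exact absurd h hα0
      · exact absurd h hγ0
      · exact h
    rw [Finset.sum_eq_zero fun b _ => by rw [hz b, zero_mul]] at hp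
    exact zero_ne_one hp
  have hag : (0 : ℚ) < α / γ := div_pos hα' hγ'
  have hga : (0 : ℚ) < γ / α := div_pos hγ' hα'
  refine ⟨⟨fun h => ?_, ?_⟩, ?_⟩
  · rcases D4_or hξ (k := C2.lam i) x hneg hμ with hp | hp
    · refine Or.inl fun l => ?_
      by_cases hli : l = i
      · rw [hli]
        refine D4_smul (c := 1 / α) (by positivity) (fun b => ?_) (h i)
        rw [h1i b]
        ring
      · by_cases hlj : l = j
        · rw [hlj]
          refine D4_smul (c := γ / α) hga (fun b => ?_) hp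
          field_simp
        · rw [h1 l hli hlj]
          exact h l
    · refine Or.inr fun l => ?_
      by_cases hli : l = i
      · rw [hli]
        exact hp
      · by_cases hlj : l = j
        · rw [hlj]
          refine D4_smul (c := 1 / γ) (by positivity) (fun b => ?_) (h j)
          rw [h2j b]
          ring
        · rw [h2 l hli hlj]
          exact h l
  · rintro (h | h)
    · have hi : posX ξ (C.lam i) x := by
        refine D4_smul (c := (α : ℚ)) hα' (fun b => ?_) (h i)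
        rw [h1i b]
        field_simp
      intro l
      by_cases hli : l = i
      · rw [hli]
        exact hi
      · by_cases hlj : l = j
        · rw [hlj]
          refine D4_add (h := C1.lam j) (k := fun b => γ / α * C.lam i b) (fun b => ?_) (h j)
            (D4_smul hga (fun b => rfl) hi)
          rw [h1j b]
          ring
        · rw [← h1 l hli hlj]
          exact h l
    · have hj : posX ξ (C.lam j) x := by
        refine D4_smul (c := (γ : ℚ)) hγ' (fun b => ?_) (h j)
        rw [h2j b]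
        field_simp
      intro l
      by_cases hli : l = i
      · rw [hli]
        refine D4_add (h := C2.lam i) (k := fun b => α / γ * C.lam j b) (fun b => ?_) (h i)
          (D4_smul hag (fun b => rfl) hj)
        rw [h2i b]
        ring
      · by_cases hlj : l = j
        · rw [hlj]
          exact hj
        · rw [← h2 l hli hlj]
          exact h l
  · rintro ⟨h, h'⟩
    exact D4_neg (h := fun b => (α / γ : ℚ) * C1.lam j b) (k := C2.lam i) hneg
      (D4_smul hag (fun b => rfl) (h j)) (h' i)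

/-- the sum over a disjoint union of two predicates -/
private theorem D4_hasSum {ι : Type} {p p1 p2 : ι → Prop} (h : ∀ x, p x ↔ p1 x ∨ p2 x)
    (h' : ∀ x, ¬ (p1 x ∧ p2 x)) (f : ι → ℝ) {a b : ℝ}
    (h1 : HasSum (fun x : {x : ι // p1 x} => f x.1) a)
    (h2 : HasSum (fun x : {x : ι // p2 x} => f x.1) b) :
    HasSum (fun x : {x : ι // p x} => f x.1) (a + b) := by
  have e1 : HasSum (Set.indicator {x | p1 x} f) a :=
    (hasSum_subtype_iff_indicator (s := {x | p1 x})).1 h1
  have e2 : HasSum (Set.indicator {x | p2 x} f) b :=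
    (hasSum_subtype_iff_indicator (s := {x | p2 x})).1 h2
  have e3 : HasSum (Set.indicator {x | p x} f) (a + b) := by
    have e4 : Set.indicator {x | p x} f
        = fun x => Set.indicator {x | p1 x} f x + Set.indicator {x | p2 x} f x := by
      funext x
      have hx := h x
      have hx' := h' x
      by_cases q1 : p1 x <;> by_cases q2 : p2 x
      · exact absurd ⟨q1, q2⟩ hx'
      · rw [Set.indicator_of_mem (s := {x | p x}) (hx.2 (Or.inl q1)),
          Set.indicator_of_mem (s := {x | p1 x}) q1,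
          Set.indicator_of_notMem (s := {x | p2 x}) q2, add_zero]
      · rw [Set.indicator_of_mem (s := {x | p x}) (hx.2 (Or.inr q2)),
          Set.indicator_of_notMem (s := {x | p1 x}) q1,
          Set.indicator_of_mem (s := {x | p2 x}) q2, zero_add]
      · rw [Set.indicator_of_notMem (s := {x | p x}) (fun hp => (hx.1 hp).elim q1 q2),
          Set.indicator_of_notMem (s := {x | p1 x}) q1,
          Set.indicator_of_notMem (s := {x | p2 x}) q2, add_zero]
    rw [e4]
    exact e1.add e2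
  exact (hasSum_subtype_iff_indicator (s := {x | p x})).2 e3

theorem good_split (L : (β → ℕ) → ℤ) {ξ : β → ℝ} (hξ : Generic ξ) {C C1 C2 : SC β}
    {i j : β} (hij : i ≠ j) {α γ : ℤ} (hα : 0 < α) (hγ : 0 < γ)
    (h1i : ∀ b, C1.lam i b = C.lam i b / α) (h1j : ∀ b, C1.lam j b = C.lam j b - γ / α * C.lam i b)
    (h1 : ∀ l, l ≠ i → l ≠ j → C1.lam l = C.lam l)
    (h2j : ∀ b, C2.lam j b = C.lam j b / γ) (h2i : ∀ b, C2.lam i b = C.lam i b - α / γ * C.lam j b)
    (h2 : ∀ l, l ≠ i → l ≠ j → C2.lam l = C.lam l)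
    (hC1 : GoodC L ξ C1) (hC2 : GoodC L ξ C2) : GoodC L ξ C := by
  obtain ⟨F1, G1, hD1, hS1⟩ := hC1
  obtain ⟨F2, G2, hD2, hS2⟩ := hC2
  refine ⟨_, _, hD1.add hD2, fun q hq => ?_⟩
  have s1 := fun x => inC_split hξ hij hα hγ h1i h1j h1 h2j h2i h2 x
  have s2 := fun x => inC_split hξ.neg hij hα hγ h1i h1j h1 h2j h2i h2 x
  refine ⟨?_, ?_⟩
  · exact D4_hasSum (fun x => (s1 x).1) (fun x => (s1 x).2) (fun x => q ^ (-Lz L x))
      (hS1 q hq).1 (hS2 q hq).1
  · have := D4_hasSum (fun x => (s2 x).1) (fun x => (s2 x).2) (fun x => q ^ (-Lz L x))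
      (hS1 q hq).2 (hS2 q hq).2
    rw [← mul_add] at this
    exact this

end Pool.Agent.WD
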