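import Pool.Agent.WD.D3
import Pool.Agent.WD.D4

/-! # Reciprocity (piece D5) -/

namespace Pool.Agent.WD

variable {β : Type} [Fintype β] [DecidableEq β]

omit [DecidableEq β] in
private theorem D5_dot_add (h x y : β → ℤ) : dot h (x + y) = dot h x + dot h y := by
  simp only [dot, Pi.add_apply, mul_add, Finset.sum_add_distrib]

omit [DecidableEq β] in
private theorem D5_dot_smul (h : β → ℤ) (z : ℤ) (x : β → ℤ) : dot h (z • x) = z * dot h x := by
  simp only [dot, Pi.smul_apply, smul_eq_mul, Finset.mul_sum]
  exact Finset.sum_congr rfl fun b _ => by ring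

/-- `h` has a constant sign on the generators of `C` -/
private def D5_cs (h : β → ℤ) (C : SC β) : Prop :=
  (∀ i, 0 ≤ dot h (C.a i)) ∨ (∀ i, dot h (C.a i) ≤ 0)

/-- A cone whose generators are generators of `C`, except for one which is replaced by a
positive combination. -/
private theorem D5_cs_update {C C' : SC β} {i j l : β} {α γ : ℤ} (hα : 0 < α) (hγ : 0 < γ)
    (ha : C'.a = Function.update C.a l (α • C.a i + γ • C.a j)) {h : β → ℤ} (hc : D5_cs h C) :
    D5_cs h C' := by
  rcases hc with hc | hc
  · left
    intro m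
    rw [ha]
    by_cases hm : m = l
    · subst hm
      rw [Function.update_self, D5_dot_add, D5_dot_smul, D5_dot_smul]
      exact add_nonneg (mul_nonneg hα.le (hc i)) (mul_nonneg hγ.le (hc j))
    · rw [Function.update_of_ne hm]
      exact hc m
  · right
    intro m
    rw [ha]
    by_cases hm : m = l
    · subst hm
      rw [Function.update_self, D5_dot_add, D5_dot_smul, D5_dot_smul]
      exact add_nonpos (mul_nonpos_of_nonneg_of_nonpos hα.le (hc i))
        (mul_nonpos_of_nonneg_of_nonpos hγ.le (hc j))
    · rw [Function.update_of_ne hm]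
      exact hc m

private theorem D5_N_update {N : ℕ} {C C' : SC β} {i j l : β} {α γ : ℤ} (hα : 0 < α)
    (hγ : 0 < γ) (ha : C'.a = Function.update C.a l (α • C.a i + γ • C.a j))
    (hN : ∀ i, ∃ M : β → ℕ, C.a i = nz (N • M)) : ∀ i, ∃ M : β → ℕ, C'.a i = nz (N • M) := by
  intro m
  rw [ha]
  by_cases hm : m = l
  · subst hm
    rw [Function.update_self]
    obtain ⟨Mi, hMi⟩ := hN i
    obtain ⟨Mj, hMj⟩ := hN j
    refine ⟨fun b => α.toNat * Mi b + γ.toNat * Mj b, ?_⟩
    rw [hMi, hMj]
    funext b
    have h1 : ((α.toNat : ℕ) : ℤ) = α := Int.toNat_of_nonneg hα.le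
    have h2 : ((γ.toNat : ℕ) : ℤ) = γ := Int.toNat_of_nonneg hγ.le
    simp only [Pi.add_apply, Pi.smul_apply, nz, smul_eq_mul]
    push_cast
    rw [h1, h2]
    ring
  · rw [Function.update_of_ne hm]
    exact hN m

/-- the number of generators on which `h` does not vanish -/
private def D5_cnt (h : β → ℤ) (C : SC β) : ℕ :=
  (Finset.univ.filter fun i => dot h (C.a i) ≠ 0).card

private theorem D5_cnt_update {C C' : SC β} {i j l : β} {α γ : ℤ}
    (ha : C'.a = Function.update C.a l (α • C.a i + γ • C.a j)) {h : β → ℤ}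
    (h0 : α * dot h (C.a i) + γ * dot h (C.a j) = 0) (hl : dot h (C.a l) ≠ 0) :
    D5_cnt h C' < D5_cnt h C := by
  unfold D5_cnt
  apply Finset.card_lt_card
  rw [Finset.ssubset_iff_of_subset]
  · refine ⟨l, Finset.mem_filter.2 ⟨Finset.mem_univ _, hl⟩, ?_⟩
    rw [Finset.mem_filter, not_and, not_not]
    intro _
    rw [ha, Function.update_self, D5_dot_add, D5_dot_smul, D5_dot_smul]
    exact h0
  · intro m hm
    rw [Finset.mem_filter] at hm ⊢
    refine ⟨hm.1, ?_⟩
    by_cases hml : m = l
    · rw [hml]
      exact hl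
    · have := hm.2
      rwa [ha, Function.update_of_ne hml] at this

/-- Induction over the functionals in `F` that do not yet have a constant sign on the generators,
and for one functional `h` induction over the number of the generators with `h(a_i) ≠ 0`:
if `h(a_i) > 0 > h(a_j)`, split at `(-h(a_j)) a_i + h(a_i) a_j`. -/
theorem good_all (L : (β → ℕ) → ℤ) (F : Finset (β → ℤ)) (N : ℕ) (hPW : PWwith L F N)
    (hpos : ∀ M : β → ℕ, M ≠ 0 → 0 < L (N • M)) (ξ : β → ℝ) (hξ : Generic ξ) (C : SC β)
    (hN : ∀ i, ∃ M : β → ℕ, C.a i = nz (N • M)) : GoodC L ξ C := by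
  have main : ∀ G : Finset (β → ℤ), ∀ C : SC β, (∀ i, ∃ M : β → ℕ, C.a i = nz (N • M)) →
      (∀ h ∈ F, h ∉ G → D5_cs h C) → GoodC L ξ C := by
    intro G
    induction G using Finset.induction_on with
    | empty =>
      intro C hN hF
      exact good_base L F N hPW hpos ξ hξ C hN fun h hh => hF h hh (Finset.notMem_empty h)
    | insert h G hG ih =>
      have inner : ∀ n : ℕ, ∀ C : SC β, D5_cnt h C = n →
          (∀ i, ∃ M : β → ℕ, C.a i = nz (N • M)) →
          (∀ h' ∈ F, h' ∉ insert h G → D5_cs h' C) → GoodC L ξ C := by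
        intro n
        induction n using Nat.strong_induction_on with
        | _ n ihn =>
          intro C hn hN hF
          by_cases hcs : D5_cs h C
          · refine ih C hN fun h' hh' hh'G => ?_
            by_cases he : h' = h
            · rw [he]
              exact hcs
            · exact hF h' hh' (by
                rw [Finset.mem_insert, not_or]
                exact ⟨he, hh'G⟩)
          · unfold D5_cs at hcs
            push Not at hcs
            obtain ⟨⟨j, hj⟩, ⟨i, hi⟩⟩ := hcs
            have hij : i ≠ j := by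
              rintro rfl
              exact absurd hi (not_lt.2 hj.le)
            have hα : 0 < -dot h (C.a j) := neg_pos.2 hj
            obtain ⟨C1, C2, h1a, h2a, h1i, h1j, h1, h2j, h2i, h2⟩ :=
              exists_split C i j hij (-dot h (C.a j)) (dot h (C.a i)) hα hi
            have h0 : -dot h (C.a j) * dot h (C.a i) + dot h (C.a i) * dot h (C.a j) = 0 := by
              ring
            have g1 : GoodC L ξ C1 := by
              refine ihn _ ?_ C1 rfl (D5_N_update hα hi h1a hN)
                fun h' hh' hh'G => D5_cs_update hα hi h1a (hF h' hh' hh'G)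
              rw [← hn]
              exact D5_cnt_update h1a h0 hi.ne'
            have g2 : GoodC L ξ C2 := by
              refine ihn _ ?_ C2 rfl (D5_N_update hα hi h2a hN)
                fun h' hh' hh'G => D5_cs_update hα hi h2a (hF h' hh' hh'G)
              rw [← hn]
              exact D5_cnt_update h2a h0 hj.ne
            exact good_split L hξ hij hα hi h1i h1j h1 h2j h2i h2 g1 g2
      intro C hN hF
      exact inner _ C rfl hN hF
  exact main F C hN fun h hh hh' => absurd hh hh'

/-- The cone spanned by the `N e_b`, with `ξ > 0`. -/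
theorem reciprocity (L : (β → ℕ) → ℤ) (h : PWpos L) :
    ∃ F G : ℝ → ℝ, Dual F G ∧ ∀ q : ℝ, 1 < q →
      HasSum (fun M : β → ℕ => q ^ (-L M)) (F q) ∧
      HasSum (fun M : {M : β → ℕ // ∀ b, 0 < M b} => q ^ (-L M.1))
        ((-1) ^ Fintype.card β * G q) := by
  obtain ⟨F, N, hPW, hpos⟩ := h
  have hN : 0 < N := hPW.1
  obtain ⟨ξ, hξ0, hξ⟩ := exists_generic β
  obtain ⟨C, hCa, hCl⟩ := exists_std (β := β) N hN
  have hNa : ∀ i, ∃ M : β → ℕ, C.a i = nz (N • M) := by
    intro i
    refine ⟨fun b => if i = b then 1 else 0, ?_⟩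
    rw [hCa]
    funext b
    simp only [nz, Pi.smul_apply, smul_eq_mul]
    by_cases hb : i = b
    · rw [if_pos hb, if_pos hb, mul_one]
    · rw [if_neg hb, if_neg hb, mul_zero, Nat.cast_zero]
  obtain ⟨F', G', hD, hs⟩ := good_all L F N hPW hpos ξ hξ C hNa
  have hNq : (0 : ℚ) < N := by exact_mod_cast hN
  have e1 : ∀ (i : β) (x : β → ℤ), ∑ b, C.lam i b * (x b : ℚ) = 1 / (N : ℚ) * x i := by
    intro i x
    rw [Finset.sum_eq_single i]
    · rw [hCl, if_pos rfl]
    · intro b _ hb
      rw [hCl, if_neg (Ne.symm hb), zero_mul]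
    · intro hi
      exact absurd (Finset.mem_univ i) hi
  have e2 : ∀ (i : β) (y : β → ℝ), ∑ b, (C.lam i b : ℝ) * y b = 1 / (N : ℝ) * y i := by
    intro i y
    rw [Finset.sum_eq_single i]
    · rw [hCl, if_pos rfl]
      push_cast
      rfl
    · intro b _ hb
      rw [hCl, if_neg (Ne.symm hb), Rat.cast_zero, zero_mul]
    · intro hi
      exact absurd (Finset.mem_univ i) hi
  have hNr : (0 : ℝ) < 1 / (N : ℝ) := by positivity
  have hNq' : (0 : ℚ) < 1 / (N : ℚ) := by positivity
  have p1 : ∀ x : β → ℤ, inC C ξ x ↔ ∀ i, 0 ≤ x i := by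
    intro x
    unfold inC posX
    refine forall_congr' fun i => ?_
    rw [e1, e2]
    constructor
    · rintro (h | ⟨h, _⟩)
      · have := (mul_pos_iff_of_pos_left hNq').1 h
        exact_mod_cast this.le
      · have := (mul_eq_zero.1 h).resolve_left hNq'.ne'
        exact_mod_cast this.ge
    · intro h
      rcases h.eq_or_lt with h0 | h0
      · right
        refine ⟨by rw [← h0, Int.cast_zero, mul_zero], mul_pos hNr (hξ0 i)⟩
      · left
        exact mul_pos hNq' (by exact_mod_cast h0)
  have p2 : ∀ x : β → ℤ, inC C (-ξ) x ↔ ∀ i, 0 < x i := by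
    intro x
    unfold inC posX
    refine forall_congr' fun i => ?_
    rw [e1, e2]
    constructor
    · rintro (h | ⟨_, h⟩)
      · have := (mul_pos_iff_of_pos_left hNq').1 h
        exact_mod_cast this
      · have h3 := (mul_pos_iff_of_pos_left hNr).1 h
        rw [Pi.neg_apply] at h3
        exact absurd (hξ0 i) (not_lt.2 (neg_pos.1 h3).le)
    · intro h
      left
      exact mul_pos hNq' (by exact_mod_cast h)
  refine ⟨F', G', hD, fun q hq => ⟨?_, ?_⟩⟩
  · let E : (β → ℕ) ≃ {x : β → ℤ // inC C ξ x} :=
      { toFun := fun M => ⟨nz M, (p1 _).2 fun i => Int.natCast_nonneg _⟩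
        invFun := fun x => fun b => (x.1 b).toNat
        left_inv := fun M => by
          funext b
          exact Int.toNat_natCast _
        right_inv := fun x => by
          apply Subtype.ext
          funext b
          exact Int.toNat_of_nonneg ((p1 _).1 x.2 b) }
    have h1 := (hs q hq).1
    rw [← E.hasSum_iff] at h1
    exact h1
  · let E : {M : β → ℕ // ∀ b, 0 < M b} ≃ {x : β → ℤ // inC C (-ξ) x} :=
      { toFun := fun M => ⟨nz M.1, (p2 _).2 fun i => Int.natCast_pos.2 (M.2 i)⟩
        invFun := fun x => ⟨fun b => (x.1 b).toNat, fun b => by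
          have h3 : 0 < x.1 b := (p2 _).1 x.2 b
          change 0 < (x.1 b).toNat
          omega⟩
        left_inv := fun M => by
          apply Subtype.ext
          funext b
          exact Int.toNat_natCast _
        right_inv := fun x => by
          apply Subtype.ext
          funext b
          exact Int.toNat_of_nonneg ((p2 _).1 x.2 b).le }
    have h1 := (hs q hq).2
    rw [← E.hasSum_iff] at h1
    exact h1

end Pool.Agent.WD
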