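import Mathlib

/-!
# MP_827cb6_ag : wild duality, definitions

`k` is a field of characteristic `p` (algebraically closed in the theorem), `K = k((t))` is
`LaurentSeries k`, and `Om k = k((t^ℚ))` is the field of Hahn series with exponents in `ℚ`;
it contains `K`.
-/

namespace Pool.Agent.WD

open Polynomial

noncomputable section

universe u

/-- The field `k((t^ℚ))` of Hahn series. -/
abbrev Om (k : Type u) [Field k] : Type u := HahnSeries ℚ k

/-- The inclusion of `k((t))` into `k((t^ℚ))`. -/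
def toOm (k : Type u) [Field k] : LaurentSeries k →+* Om k :=
  HahnSeries.embDomainRingHom (Int.castAddHom ℚ)
    (show Function.Injective (Int.castAddHom ℚ) from Int.cast_injective)
    (fun _ _ => Int.cast_le)

theorem toOm_coeff_int {k : Type u} [Field k] (x : LaurentSeries k) (j : ℤ) :
    (toOm k x).coeff (j : ℚ) = x.coeff j := by
  change (HahnSeries.embDomain _ x).coeff _ = _
  exact HahnSeries.embDomain_coeff (f := ⟨⟨Int.castAddHom ℚ, Int.cast_injective⟩, Int.cast_le⟩)
    (a := j)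

theorem toOm_coeff_not {k : Type u} [Field k] (x : LaurentSeries k) (q : ℚ)
    (hq : ∀ j : ℤ, q ≠ j) : (toOm k x).coeff q = 0 := by
  change (HahnSeries.embDomain _ x).coeff _ = _
  apply HahnSeries.embDomain_of_notMem_range
  rintro ⟨j, hj⟩
  exact hq j hj.symm

instance instAlgOm (k : Type u) [Field k] : Algebra (LaurentSeries k) (Om k) :=
  (toOm k).toAlgebra

instance instTower (k : Type u) [Field k] :
    IsScalarTower (PowerSeries k) (LaurentSeries k) (Om k) := by
  refine IsScalarTower.of_algebraMap_eq ?_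
  intro x
  ext q
  change (HahnSeries.ofPowerSeries ℚ k x).coeff q =
    (toOm k (HahnSeries.ofPowerSeries ℤ k x)).coeff q
  by_cases hq : ∃ j : ℤ, q = j
  · obtain ⟨j, rfl⟩ := hq
    rw [toOm_coeff_int]
    by_cases hj : 0 ≤ j
    · lift j to ℕ using hj
      have h1 := HahnSeries.ofPowerSeries_apply_coeff (Γ := ℤ) x j
      have h2 := HahnSeries.ofPowerSeries_apply_coeff (Γ := ℚ) x j
      rw [Int.cast_natCast, h1, h2]
    · rw [HahnSeries.ofPowerSeries_apply, HahnSeries.ofPowerSeries_apply,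
        HahnSeries.embDomain_of_notMem_range, HahnSeries.embDomain_of_notMem_range]
      · rintro ⟨i, hi⟩
        apply hj
        have : ((i : ℕ) : ℤ) = j := hi
        omega
      · rintro ⟨i, hi⟩
        apply hj
        have : ((i : ℕ) : ℚ) = (j : ℚ) := hi
        have h3 : ((i : ℕ) : ℤ) = j := by exact_mod_cast this
        omega
  · push Not at hq
    rw [toOm_coeff_not _ _ hq, HahnSeries.ofPowerSeries_apply,
      HahnSeries.embDomain_of_notMem_range]
    rintro ⟨i, hi⟩
    exact hq i (by rw [← hi]; simp)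

/-- exponents prime to `p` (in particular nonzero) -/
abbrev Jp (p : ℕ) : Type := {j : ℕ // ¬ p ∣ j}

/-- Parameter space of the `(ℤ/p)^r`-torsors over `k((t))`: the tuples `(f_1, ..., f_r)` of
Laurent polynomials in which only exponents `-j` with `j` prime to `p` occur. -/
abbrev Par (p r : ℕ) (k : Type u) [Zero k] : Type u := (Fin r × Jp p) →₀ k

/-- `f_s = ∑_j c_{s,j} t^{-j}` -/
def polar {p r : ℕ} {k : Type u} [Field k] (c : Par p r k) (s : Fin r) : LaurentSeries k :=
  c.sum fun x a => if x.1 = s then HahnSeries.single (-(x.2.1 : ℤ)) a else 0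

section Root

variable (p : ℕ) [Fact p.Prime] {k : Type u} [Field k] [CharP k p] [PerfectRing k p]

/-- the coefficient at `t^q` of `∑_{n ≥ 1} a^{1/p^n} t^{-j/p^n}` -/
def asCoeff (j : ℕ) (a : k) (q : ℚ) : k :=
  open Classical in
  if h : ∃ n : ℕ, q = -(j : ℚ) / (p : ℚ) ^ (n + 1) then
    (fun x : k => (frobeniusEquiv k p).symm x)^[Nat.find h + 1] a
  else 0

omit [CharP k p] [PerfectRing k p] [Field k] in
theorem asPWO (j : ℕ) : Set.IsPWO (Set.range fun n : ℕ => -(j : ℚ) / (p : ℚ) ^ (n + 1)) := by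
  rw [← Set.image_univ]
  have hp : (1 : ℚ) ≤ p := by exact_mod_cast (Fact.out : p.Prime).one_lt.le
  apply Set.IsPWO.image_of_monotone
  · exact Set.isPWO_of_wellQuasiOrderedLE _
  · intro a b hab
    have h0 : (0 : ℚ) < (p : ℚ) ^ (a + 1) := by positivity
    have h1 : (p : ℚ) ^ (a + 1) ≤ (p : ℚ) ^ (b + 1) := pow_le_pow_right₀ hp (by omega)
    have h2 : (j : ℚ) / (p : ℚ) ^ (b + 1) ≤ (j : ℚ) / (p : ℚ) ^ (a + 1) := by
      gcongr
    simp only [neg_div]
    linarith

/-- `∑_{n ≥ 1} a^{1/p^n} t^{-j/p^n}`, a root of `X^p - X = a t^{-j}` -/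
def asSeries (j : ℕ) (a : k) : Om k where
  coeff := asCoeff p j a
  isPWO_support' := by
    apply (asPWO p j).mono
    intro q hq
    by_contra hne
    apply hq
    unfold asCoeff
    rw [dif_neg]
    rintro ⟨n, hn⟩
    exact hne ⟨n, hn.symm⟩

/-- the root `z_s` of `X^p - X = f_s` in `k((t^ℚ))`  -/
def root {r : ℕ} (c : Par p r k) (s : Fin r) : Om k :=
  c.sum fun x a => if x.1 = s then asSeries p x.2.1 a else 0

end Root

section Torsor

variable {p : ℕ} [Fact p.Prime] {k : Type u} [Field k] [CharP k p] [PerfectRing k p] {r : ℕ}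

/-- The extension `L_c = K(z_1, ..., z_r)` of `K = k((t))` -/
def Lc (c : Par p r k) : IntermediateField (LaurentSeries k) (Om k) :=
  IntermediateField.adjoin (LaurentSeries k) (Set.range (root p c))

/-- `z_s` as an element of `L_c` -/
def rootL (c : Par p r k) (s : Fin r) : Lc c :=
  ⟨root p c s, IntermediateField.subset_adjoin _ _ ⟨s, rfl⟩⟩

/-- the map `ℤ/p → k`  -/
def fp (p : ℕ) [Fact p.Prime] (k : Type u) [Field k] [CharP k p] : ZMod p →+* k :=
  ZMod.castHom (dvd_refl p) k

/-- constants `k → L_c` -/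
def cst (c : Par p r k) : k →+* Lc c :=
  (algebraMap (LaurentSeries k) (Lc c)).comp HahnSeries.C

/-- the relation between `σ ∈ Gal(L_c / K)` and `g ∈ (ℤ/p)^r` : `σ(z_s) = z_s + g_s` -/
def Corr (c : Par p r k) (σ : Lc c ≃ₐ[LaurentSeries k] Lc c) (g : Fin r → ZMod p) : Prop :=
  ∀ s, σ (rootL c s) = rootL c s + cst c (fp p k (g s))

end Torsor

section Rep

variable {p : ℕ} [Fact p.Prime] {k : Type u} [Field k] [CharP k p] {r n : ℕ}

/-- index set of the basis of `V = ⊕_B Sym^{m_B - 1}(U_B)` -/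
abbrev Ix (n : ℕ) (m : Fin n → ℕ) : Type := Σ B : Fin n, Fin (m B)

/-- the additive character `ℓ_B : (ℤ/p)^r → k` -/
def ell (ℓ : Fin n → Fin r → k) (B : Fin n) (g : Fin r → ZMod p) : k :=
  ∑ s, fp p k (g s) * ℓ B s

/-- the matrix of `g` on `V`: on the block `B` this is the `(m_B - 1)`-st symmetric power of
`[[1, ℓ_B(g)], [0, 1]]`, i.e. `X^i ↦ (X + ℓ_B(g))^i` for `i < m_B`. -/
def rho (ℓ : Fin n → Fin r → k) (m : Fin n → ℕ) (g : Fin r → ZMod p) :
    Matrix (Ix n m) (Ix n m) k :=
  fun a b => if a.1 = b.1 then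
    ((b.2 : ℕ).choose (a.2 : ℕ) : k) * ell ℓ a.1 g ^ ((b.2 : ℕ) - (a.2 : ℕ)) else 0

end Rep

section Tuning

variable {p : ℕ} [Fact p.Prime] {k : Type u} [Field k] [CharP k p] [PerfectRing k p] {r n : ℕ}

/-- The tuning module `Ξ_c`: integral vectors `x` over `L_c` with `σ(x) = ρ(g) x` whenever
`g` corresponds to `σ`. -/
def Tuning (ℓ : Fin n → Fin r → k) (m : Fin n → ℕ) (c : Par p r k) :
    Submodule (PowerSeries k) (Ix n m → Lc c) where
  carrier := {x | (∀ a, IsIntegral (PowerSeries k) (x a)) ∧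
    ∀ (σ : Lc c ≃ₐ[LaurentSeries k] Lc c) (g : Fin r → ZMod p), Corr c σ g →
      ∀ a, σ (x a) = ∑ b, cst c (rho ℓ m g a b) * x b}
  add_mem' := by
    rintro x y ⟨hx1, hx2⟩ ⟨hy1, hy2⟩
    refine ⟨fun a => (hx1 a).add (hy1 a), fun σ g h a => ?_⟩
    rw [Pi.add_apply, map_add, hx2 σ g h a, hy2 σ g h a, ← Finset.sum_add_distrib]
    exact Finset.sum_congr rfl fun b _ => by rw [Pi.add_apply, mul_add]
  zero_mem' := by
    refine ⟨fun a => isIntegral_zero, fun σ g h a => ?_⟩
    simp
  smul_mem' := by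
    rintro u x ⟨hx1, hx2⟩
    refine ⟨fun a => ?_, fun σ g h a => ?_⟩
    · rw [Pi.smul_apply, Algebra.smul_def]
      exact isIntegral_algebraMap.mul (hx1 a)
    · rw [Pi.smul_apply, Algebra.smul_def, map_mul, hx2 σ g h a, Finset.mul_sum,
        IsScalarTower.algebraMap_apply (PowerSeries k) (LaurentSeries k) (Lc c), σ.commutes]
      refine Finset.sum_congr rfl fun b _ => ?_
      rw [Pi.smul_apply, Algebra.smul_def,
        IsScalarTower.algebraMap_apply (PowerSeries k) (LaurentSeries k) (Lc c)]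
      ring

/-- `IsV c a`: for some `k[[t]]`-basis of `Ξ_c` the determinant of the basis is `t^a` times a
unit of `k[[t]]`. -/
def IsV (ℓ : Fin n → Fin r → k) (m : Fin n → ℕ) (c : Par p r k) (a : ℕ) : Prop :=
  ∃ (b : Module.Basis (Ix n m) (PowerSeries k) (Tuning ℓ m c)) (v : (PowerSeries k)ˣ),
    Matrix.det (fun i a => (b i : Ix n m → Lc c) a) =
      algebraMap (PowerSeries k) (Lc c) ((v : PowerSeries k) * PowerSeries.X ^ a)

/-- the `v`-function -/
def vfun (ℓ : Fin n → Fin r → k) (m : Fin n → ℕ) (c : Par p r k) : ℕ :=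
  sInf {a | IsV ℓ m c a}

/-- the image `H_c ⊆ (ℤ/p)^r` of the Galois group -/
def Hc (c : Par p r k) : Set (Fin r → ZMod p) :=
  {g | ∃ σ : Lc c ≃ₐ[LaurentSeries k] Lc c, Corr c σ g}

/-- the fixed space `V^{H_c}` -/
def fixedSp (ℓ : Fin n → Fin r → k) (m : Fin n → ℕ) (c : Par p r k) :
    Submodule k (Ix n m → k) where
  carrier := {x | ∀ g ∈ Hc c, (rho ℓ m g).mulVec x = x}
  add_mem' := by
    intro x y hx hy g hg
    rw [Matrix.mulVec_add, hx g hg, hy g hg]
  zero_mem' := by
    intro g _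
    rw [Matrix.mulVec_zero]
  smul_mem' := by
    intro a x hx g hg
    rw [Matrix.mulVec_smul, hx g hg]

/-- the dimension `d` of `V`  -/
def dimV (m : Fin n → ℕ) : ℕ := ∑ B, m B

/-- the `w`-function `w(c) = codim V^{H_c} - v(c)` -/
def wfun (ℓ : Fin n → Fin r → k) (m : Fin n → ℕ) (c : Par p r k) : ℤ :=
  (dimV m : ℤ) - Module.finrank k (fixedSp ℓ m c) - vfun ℓ m c

end Tuning

section Realization

/-- constructible subsets of the affine space `k^ι` -/
inductive IsConstr {k : Type u} [Field k] {ι : Type} : Set (ι → k) → Prop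
  | zeros (P : MvPolynomial ι k) : IsConstr {x | MvPolynomial.eval x P = 0}
  | compl {S : Set (ι → k)} : IsConstr S → IsConstr Sᶜ
  | inter {S T : Set (ι → k)} : IsConstr S → IsConstr T → IsConstr (S ∩ T)

/-- A realization: it assigns to the constructible subsets of the affine spaces over `k`
polynomials in `ℤ[T]`; the axioms are properties of the (virtual) Poincare polynomial. -/
structure Realization (k : Type u) [Field k] where
  /-- the class of a subset of `k^ι` -/
  cls : ∀ {ι : Type} [Fintype ι], Set (ι → k) → ℤ[X]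
  cls_union : ∀ {ι : Type} [Fintype ι] {S T : Set (ι → k)}, IsConstr S → IsConstr T →
    Disjoint S T → cls (S ∪ T) = cls S + cls T
  cls_prod : ∀ {ι κ : Type} [Fintype ι] [Fintype κ] {S : Set (ι → k)} {T : Set (κ → k)},
    IsConstr S → IsConstr T →
    cls {x : ι ⊕ κ → k | (x ∘ Sum.inl) ∈ S ∧ (x ∘ Sum.inr) ∈ T} = cls S * cls T
  cls_inj : ∀ {ι κ : Type} [Fintype ι] [Fintype κ] (A : (ι → k) →ₗ[k] (κ → k)),
    Function.Injective A → ∀ {S : Set (ι → k)}, IsConstr S → cls (A '' S) = cls S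
  cls_line : cls (Set.univ : Set (Unit → k)) = X ^ 2
  cls_point : cls (Set.univ : Set (Empty → k)) = 1
  cls_deg : ∀ {ι : Type} [Fintype ι] {S T : Set (ι → k)}, IsConstr S → IsConstr T →
    S ⊆ T → (cls S).natDegree ≤ (cls T).natDegree

/-- coordinates of the finite dimensional piece of `Par p r k` given by pole orders `≤ N` -/
abbrev Co (p r N : ℕ) : Type := Fin r × {j : Fin (N + 1) // ¬ p ∣ (j : ℕ)}

/-- the coordinates of the piece among all coordinates -/
def coEmb (p r N : ℕ) : Co p r N ↪ Fin r × Jp p where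
  toFun x := (x.1, ⟨x.2.1, x.2.2⟩)
  inj' := by
    rintro ⟨a, ⟨b, hb⟩⟩ ⟨a', ⟨b', hb'⟩⟩ h
    simp only [Prod.mk.injEq, Subtype.mk.injEq] at h
    obtain ⟨h1, h2⟩ := h
    have h3 : b = b' := Fin.ext h2
    subst h1
    subst h3
    rfl

/-- the inclusion of the finite dimensional piece -/
def ext {p r N : ℕ} {k : Type u} [Field k] (x : Co p r N → k) : Par p r k :=
  (Finsupp.equivFunOnFinite.symm x).embDomain (coEmb p r N)

/-- `HasClass e S P`: the set `S` of parameters has bounded pole orders, and its class is `P` -/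
def HasClass {p r : ℕ} {k : Type u} [Field k] (e : Realization k) (S : Set (Par p r k))
    (P : ℤ[X]) : Prop :=
  ∃ N₀ : ℕ, (∀ c ∈ S, ∀ s (j : Jp p), N₀ < j.1 → c (s, j) = 0) ∧
    ∀ N, N₀ ≤ N → IsConstr {x : Co p r N → k | ext x ∈ S} ∧
      e.cls {x : Co p r N → k | ext x ∈ S} = P

end Realization

end

end Pool.Agent.WD
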