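import Pool.Agent.WD.A9
import Pool.Agent.WD.A10
import Pool.Agent.WD.B5
import Pool.Agent.WD.B6
import Pool.Agent.WD.C1
import Pool.Agent.WD.C2
import Pool.Agent.WD.D5

/-! # Assembly -/

namespace Pool.Agent.WD

open Polynomial Filter

universe u

theorem final (p : ℕ) [Fact p.Prime] (k : Type u) [Field k] [IsAlgClosed k] [CharP k p]
    {r n : ℕ} (ℓ : Fin n → Fin r → k) (m : Fin n → ℕ) (hm : ∀ B, m B ≤ p)
    (hf : Faithful p ℓ m) (e : Realization k) :
    (∀ c : Par p r k, ∃! a, IsV ℓ m c a) ∧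
    ∃ (P : ℕ → ℤ[X]) (Q : ℤ → ℤ[X]),
      (∀ a, HasClass e {c : Par p r k | vfun ℓ m c = a} (P a)) ∧
      (∀ b, HasClass e {c : Par p r k | wfun ℓ m c = b} (Q b)) ∧
      (Tendsto (fun a : ℕ => 2 * (a : ℤ) - ((P a).natDegree : ℤ)) atTop atTop →
        ∃ A B : ℤ[X], (∀ x : ℝ, 0 < x → x ≠ 1 → aeval x B ≠ 0) ∧ ∀ T : ℝ, 1 < T →
          HasSum (fun a : ℕ => aeval T (P a) * T ^ (2 * ((dimV m : ℤ) - a)))
            (aeval T A / aeval T B) ∧
          HasSum (fun b : ℤ => aeval T (Q b) * T ^ (2 * b))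
            (T ^ (2 * dimV m) * (aeval T⁻¹ A / aeval T⁻¹ B))) := by
  classical
  refine ⟨fun c => ⟨_, (isV_iff ℓ hm c _).mpr rfl, fun a ha => (isV_iff ℓ hm c a).mp ha⟩, ?_⟩
  refine ⟨Pv (nu p ℓ m), Qw (nu p ℓ m), ?_, ?_, ?_⟩
  · intro a
    have h := hasClass_v e ℓ m hf a
    have h2 : {c : Par p r k | vfun ℓ m c = a} =
        {c : Par p r k | ∑ b : Bx n m, lev ℓ c b.1.1 b.1.2 = a} := by
      ext c
      change vfun ℓ m c = a ↔ _
      rw [vfun_eq ℓ hm c]
      rfl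
    rw [h2]
    exact h
  · intro b
    have h := hasClass_w e ℓ m hf b
    have h2 : {c : Par p r k | wfun ℓ m c = b} = {c : Par p r k |
      ((Finset.univ.filter fun b : Bx n m => lev ℓ c b.1.1 b.1.2 ≠ 0).card : ℤ) -
        ((∑ b : Bx n m, lev ℓ c b.1.1 b.1.2 : ℕ) : ℤ) = b} := by
      ext c
      change wfun ℓ m c = b ↔ _
      rw [wfun, codim_eq ℓ hm c, vfun_eq ℓ hm c]
      rfl
    rw [h2]
    convert h
  · intro hconv
    obtain ⟨F₀, N, hPW⟩ := pw_Lf ℓ m hm hf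
    have hpos := pwpos_of_conv (nu p ℓ m) F₀ N hPW (cell_deg_le e ℓ m hf) hconv
    obtain ⟨F, G, hFG, hrec⟩ := reciprocity (Lf (nu p ℓ m)) hpos
    -- the two functions of `T`
    have h1 : Dual (fun T => T ^ (2 * (dimV m : ℤ)) *
          ((1 - T ^ (-2 : ℤ)) ^ Fintype.card (Bx n m) * F (T ^ 2)))
        (fun T => T ^ (-(2 * (dimV m : ℤ))) *
          ((1 - T ^ (2 : ℤ)) ^ Fintype.card (Bx n m) * G (T ^ 2))) := by
      have ha := (Dual.const 1).add ((Dual.const (-1)).mul (Dual.zpow (-2)))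
      have hb := Dual.prod (Finset.univ : Finset (Bx n m))
        (fun _ q => ((1 : ℤ) : ℝ) + ((-1 : ℤ) : ℝ) * q ^ (-2 : ℤ))
        (fun _ q => ((1 : ℤ) : ℝ) + ((-1 : ℤ) : ℝ) * q ^ (-(-2 : ℤ))) (fun _ _ => ha)
      refine ((Dual.zpow (2 * (dimV m : ℤ))).mul (hb.mul hFG.comp_sq)).congr ?_ ?_
      · intro q hq
        simp only [Finset.prod_const, Finset.card_univ]
        push_cast
        ring
      · intro q hq
        simp only [Finset.prod_const, Finset.card_univ, neg_neg]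
        push_cast
        ring
    obtain ⟨A, B, hB, hAB⟩ := h1
    refine ⟨A, B, hB, fun T hT => ?_⟩
    have hT0 : (0 : ℝ) < T := by linarith
    have hT2 : 1 < T ^ 2 := by nlinarith
    obtain ⟨hs1, hs2⟩ := hrec (T ^ 2) hT2
    obtain ⟨hA1, hA2⟩ := hAB T hT
    constructor
    · rw [← hA1]
      have h3 := (hasSum_Pv (nu p ℓ m) T hT hs1.summable).mul_left (T ^ (2 * (dimV m : ℤ)))
      rw [hs1.tsum_eq] at h3
      have h4 : (fun a : ℕ => aeval T (Pv (nu p ℓ m) a) * T ^ (2 * ((dimV m : ℤ) - a))) =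
          fun a : ℕ => T ^ (2 * (dimV m : ℤ)) *
            (aeval T (Pv (nu p ℓ m) a) * T ^ (-(2 * (a : ℤ)))) := by
        funext a
        rw [mul_left_comm, ← zpow_add₀ hT0.ne']
        congr 2
        ring
      rw [h4]
      exact h3
    · rw [← hA2]
      have h3 := hasSum_Qw (nu p ℓ m) T hT hs1.summable
      rw [hs2.tsum_eq] at h3
      have h5 : (T : ℝ) ^ (2 * dimV m) = T ^ (2 * (dimV m : ℤ)) := by
        rw [← zpow_natCast]
        push_cast
        rfl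
      have h4 : T ^ (2 * dimV m) * (T ^ (-(2 * (dimV m : ℤ))) *
          ((1 - T ^ (2 : ℤ)) ^ Fintype.card (Bx n m) * G (T ^ 2))) =
          (T ^ 2 - 1) ^ Fintype.card (Bx n m) *
            ((-1) ^ Fintype.card (Bx n m) * G (T ^ 2)) := by
        rw [h5, ← mul_assoc, ← zpow_add₀ hT0.ne', add_neg_cancel, zpow_zero, one_mul,
          ← mul_assoc, ← mul_pow]
        congr 2
        rw [zpow_ofNat]
        ring
      rw [h4]
      exact h3

end Pool.Agent.WD
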