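import Pool.Agent.WD.Defs

/-!
# MP_827cb6_ag : the levels

`lev ℓ c B i` is `⌈i x_B(c)⌉`, where `x_B(c)` is the maximum of `j / p^e` over all `e ≥ 1` and all
`j` with `∑_s ℓ_{B,s}^{p^e} c_{s,j} ≠ 0`.
-/

namespace Pool.Agent.WD

noncomputable section

universe u

variable {p : ℕ} {k : Type u} [Field k] {r n : ℕ}

/-- `∑_s ℓ_{B,s}^{p^e} x_s` -/
def tst (p : ℕ) (ℓ : Fin n → Fin r → k) (B : Fin n) (e : ℕ) (x : Fin r → k) : k :=
  ∑ s, ℓ B s ^ (p ^ e) * x s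

/-- `i x_B(c) ≤ M` -/
def Below (ℓ : Fin n → Fin r → k) (c : Par p r k) (B : Fin n) (i M : ℕ) : Prop :=
  ∀ e, 1 ≤ e → ∀ j : Jp p, p ^ e * M < i * j.1 → tst p ℓ B e (fun s => c (s, j)) = 0

/-- `⌈i x_B(c)⌉` -/
def lev (ℓ : Fin n → Fin r → k) (c : Par p r k) (B : Fin n) (i : ℕ) : ℕ :=
  sInf {M | Below ℓ c B i M}

theorem Below.mono {ℓ : Fin n → Fin r → k} {c : Par p r k} {B : Fin n} {i M M' : ℕ}
    (h : Below ℓ c B i M) (hM : M ≤ M') : Below ℓ c B i M' := by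
  intro e he j hj
  exact h e he j (lt_of_le_of_lt (Nat.mul_le_mul_left _ hM) hj)

theorem exists_below (hp : 1 ≤ p) (ℓ : Fin n → Fin r → k) (c : Par p r k) (B : Fin n) (i : ℕ) :
    ∃ M, Below ℓ c B i M := by
  refine ⟨i * c.support.sup fun x => x.2.1, ?_⟩
  intro e he j hj
  have h1 : ∀ s, c (s, j) = 0 := by
    intro s
    by_contra hne
    have h2 : j.1 ≤ c.support.sup fun x => x.2.1 :=
      Finset.le_sup (f := fun x : Fin r × Jp p => x.2.1) (Finsupp.mem_support_iff.mpr hne)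
    have h3 : i * j.1 ≤ i * c.support.sup fun x => x.2.1 := Nat.mul_le_mul_left _ h2
    have h4 : 1 ≤ p ^ e := Nat.one_le_pow _ _ hp
    have h5 : i * c.support.sup (fun x => x.2.1) ≤ p ^ e * (i * c.support.sup fun x => x.2.1) :=
      Nat.le_mul_of_pos_left _ h4
    omega
  simp [tst, h1]

theorem below_lev (hp : 1 ≤ p) (ℓ : Fin n → Fin r → k) (c : Par p r k) (B : Fin n) (i : ℕ) :
    Below ℓ c B i (lev ℓ c B i) :=
  Nat.sInf_mem (exists_below hp ℓ c B i)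

theorem lev_le_iff (hp : 1 ≤ p) {ℓ : Fin n → Fin r → k} {c : Par p r k} {B : Fin n} {i M : ℕ} :
    lev ℓ c B i ≤ M ↔ Below ℓ c B i M :=
  ⟨fun h => (below_lev hp ℓ c B i).mono h, fun h => Nat.sInf_le h⟩

theorem lev_zero (ℓ : Fin n → Fin r → k) (c : Par p r k) (B : Fin n) : lev ℓ c B 0 = 0 := by
  apply Nat.le_zero.mp
  apply Nat.sInf_le
  intro e he j hj
  omega

/-- the indices of the nontrivial levels -/
abbrev Bx (n : ℕ) (m : Fin n → ℕ) : Type := {a : Ix n m // (a.2 : ℕ) ≠ 0}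

/-- the conditions on the coefficients at `t^{-j}` given by `lev ≤ M` -/
def Wj (p : ℕ) (ℓ : Fin n → Fin r → k) (m : Fin n → ℕ) (M : Bx n m → ℕ) (j : ℕ) :
    Submodule k (Fin r → k) where
  carrier := {x | ∀ b : Bx n m, ∀ e, 1 ≤ e → p ^ e * M b < (b.1.2 : ℕ) * j →
    tst p ℓ b.1.1 e x = 0}
  add_mem' := by
    intro x y hx hy b e he h
    have h1 := hx b e he h
    have h2 := hy b e he h
    simp only [tst, Pi.add_apply, mul_add, Finset.sum_add_distrib] at h1 h2 ⊢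
    rw [h1, h2, add_zero]
  zero_mem' := by
    intro b e he h
    simp [tst]
  smul_mem' := by
    intro a x hx b e he h
    have h1 := hx b e he h
    simp only [tst, Pi.smul_apply, smul_eq_mul] at h1 ⊢
    have h2 : ∀ s, ℓ b.1.1 s ^ p ^ e * (a * x s) = a * (ℓ b.1.1 s ^ p ^ e * x s) := by
      intro s
      ring
    simp only [h2, ← Finset.mul_sum, h1, mul_zero]

/-- the bound for the pole orders -/
def bd (p r : ℕ) {m : Fin n → ℕ} (M : Bx n m → ℕ) : ℕ := p ^ r * ∑ b, M b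

/-- the dimension of the space of all parameters with levels `≤ M` -/
def nu (p : ℕ) (ℓ : Fin n → Fin r → k) (m : Fin n → ℕ) (M : Bx n m → ℕ) : ℕ :=
  ∑ j ∈ (Finset.range (bd p r M + 1)).filter (fun j => ¬ p ∣ j),
    Module.finrank k (Wj p ℓ m M j)

/-- `V` is a faithful representation -/
def Faithful (p : ℕ) [Fact p.Prime] [CharP k p] (ℓ : Fin n → Fin r → k) (m : Fin n → ℕ) : Prop :=
  ∀ g : Fin r → ZMod p, g ≠ 0 → rho ℓ m g ≠ 1

variable [Fact p.Prime] [CharP k p] [PerfectRing k p]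

/-- `h_B = ∑_s ℓ_{B,s} z_s` -/
def hB (ℓ : Fin n → Fin r → k) (c : Par p r k) (B : Fin n) : Om k :=
  ∑ s, HahnSeries.C (ℓ B s) * root p c s

/-- the same in `L_c` -/
def hL (ℓ : Fin n → Fin r → k) (c : Par p r k) (B : Fin n) : Lc c :=
  ∑ s, cst c (ℓ B s) * rootL c s

end

end Pool.Agent.WD
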