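import Pool.Agent.WD.St

/-! # The statement of `St` follows from `final` -/

namespace Pool.Agent.WD

open Polynomial Filter

universe u

variable {p : ℕ} [Fact p.Prime] {k : Type u} [Field k] [CharP k p] [PerfectRing k p] {r n : ℕ}

theorem tuned_iff (ℓ : Fin n → Fin r → k) (m : Fin n → ℕ) (c : Par p r k) (x : Ix n m → LT c) :
    Tuned ℓ m c x ↔ (x : Ix n m → Lc c) ∈ Tuning ℓ m c := Iff.rfl

theorem vT_iff (ℓ : Fin n → Fin r → k) (m : Fin n → ℕ) (c : Par p r k) (a : ℕ) :
    VT ℓ m c a ↔ IsV ℓ m c a := by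
  classical
  constructor
  · rintro ⟨b, v, ⟨hb1, hb2⟩, hdet⟩
    let b' : Ix n m → Tuning ℓ m c := fun i => ⟨b i, hb1 i⟩
    have hcoe : ∀ (u : Ix n m → PowerSeries k) (a : Ix n m),
        ((∑ i, u i • b' i : Tuning ℓ m c) : Ix n m → Lc c) a =
          ∑ i, algebraMap (PowerSeries k) (Lc c) (u i) * (b' i : Ix n m → Lc c) a := by
      intro u a
      rw [Submodule.coe_sum, Finset.sum_apply]
      refine Finset.sum_congr rfl fun i _ => ?_
      rw [Submodule.coe_smul, Pi.smul_apply, Algebra.smul_def]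
    have hli : LinearIndependent (PowerSeries k) b' := by
      rw [Fintype.linearIndependent_iff]
      intro g hg i
      obtain ⟨u, hu, huu⟩ := hb2 (fun _ => 0) (Tuning ℓ m c).zero_mem
      have h1 : g = u := by
        apply huu
        intro a
        have h2 := hcoe g a
        rw [hg] at h2
        exact h2
      have h3 : (fun _ => 0 : Ix n m → PowerSeries k) = u := by
        apply huu
        intro a
        simp
      rw [h1, ← h3]
    have hsp : ⊤ ≤ Submodule.span (PowerSeries k) (Set.range b') := by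
      rintro ⟨x, hx⟩ _
      obtain ⟨u, hu, -⟩ := hb2 x hx
      have h1 : (⟨x, hx⟩ : Tuning ℓ m c) = ∑ i, u i • b' i := by
        apply Subtype.ext
        funext a
        rw [hcoe u a]
        exact hu a
      rw [h1]
      exact Submodule.sum_mem _ fun i _ =>
        Submodule.smul_mem _ _ (Submodule.subset_span ⟨i, rfl⟩)
    refine ⟨Module.Basis.mk hli hsp, v, ?_⟩
    have h2 : (fun i a => ((Module.Basis.mk hli hsp i : Tuning ℓ m c) : Ix n m → Lc c) a) = b := by
      funext i a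
      rw [Module.Basis.mk_apply]
    rw [h2]
    exact hdet
  · rintro ⟨b, v, hdet⟩
    refine ⟨fun i => (b i : Ix n m → Lc c), v, ⟨fun i => (b i).2, ?_⟩, hdet⟩
    intro x hx
    have hcoe : ∀ (u : Ix n m → PowerSeries k) (a : Ix n m),
        ((∑ i, u i • b i : Tuning ℓ m c) : Ix n m → Lc c) a =
          ∑ i, algebraMap (PowerSeries k) (Lc c) (u i) * (b i : Ix n m → Lc c) a := by
      intro u a
      rw [Submodule.coe_sum, Finset.sum_apply]
      refine Finset.sum_congr rfl fun i _ => ?_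
      rw [Submodule.coe_smul, Pi.smul_apply, Algebra.smul_def]
    refine ⟨fun i => b.repr ⟨x, hx⟩ i, fun a => ?_, fun u hu => ?_⟩
    · have h1 := hcoe (fun i => b.repr ⟨x, hx⟩ i) a
      rw [b.sum_repr] at h1
      exact h1
    · have h1 : (⟨x, hx⟩ : Tuning ℓ m c) = ∑ i, u i • b i := by
        apply Subtype.ext
        funext a
        rw [hcoe u a]
        exact hu a
      funext i
      rw [h1, b.repr_sum_self]

theorem fixT_eq (ℓ : Fin n → Fin r → k) (m : Fin n → ℕ) (c : Par p r k) :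
    FixT ℓ m c = fixedSp ℓ m c := by
  have h : {x : Ix n m → k | ∀ (σ : GalT c) (g : Fin r → ZMod p), CorrT c σ g →
      (rho ℓ m g).mulVec x = x} = (fixedSp ℓ m c : Set (Ix n m → k)) := by
    ext x
    constructor
    · rintro h g ⟨σ, hσ⟩
      exact h σ g hσ
    · intro h σ g hσ
      exact h g ⟨σ, hσ⟩
  rw [FixT, h, Submodule.span_eq]

theorem final' (p : ℕ) [Fact p.Prime] (k : Type u) [Field k] [IsAlgClosed k] [CharP k p]
    {r n : ℕ} (ℓ : Fin n → Fin r → k) (m : Fin n → ℕ) (hm : ∀ B, m B ≤ p)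
    (hf : Faithful p ℓ m) (e : Realization k) :
    (∀ c : Par p r k, ∃! a, VT ℓ m c a) ∧
    ∃ (P : ℕ → ℤ[X]) (Q : ℤ → ℤ[X]),
      (∀ a, HasClass e {c : Par p r k | VT ℓ m c a} (P a)) ∧
      (∀ b, HasClass e {c : Par p r k | WT ℓ m c b} (Q b)) ∧
      (Converges P → DualSums (dimV m) P Q) := by
  obtain ⟨h1, P, Q, hP, hQ, h⟩ := final p k ℓ m hm hf e
  have h0 : ∀ (c : Par p r k) (a : ℕ), VT ℓ m c a ↔ vfun ℓ m c = a := by
    intro c a
    have h2 : {a | IsV ℓ m c a} = {∑ x : Ix n m, lev ℓ c x.1 x.2} := by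
      ext a
      rw [Set.mem_singleton_iff]
      exact isV_iff ℓ hm c a
    have h3 : vfun ℓ m c = ∑ x : Ix n m, lev ℓ c x.1 x.2 := by
      rw [vfun, h2, csInf_singleton]
    rw [vT_iff, h3, isV_iff ℓ hm c a]
    exact eq_comm
  refine ⟨fun c => ?_, P, Q, fun a => ?_, fun b => ?_, h⟩
  · obtain ⟨a, ha, hu⟩ := h1 c
    exact ⟨a, (vT_iff ℓ m c a).mpr ha, fun y hy => hu y ((vT_iff ℓ m c y).mp hy)⟩
  · have h2 : {c : Par p r k | VT ℓ m c a} = {c : Par p r k | vfun ℓ m c = a} := by
      ext c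
      exact h0 c a
    rw [h2]
    exact hP a
  · have h2 : {c : Par p r k | WT ℓ m c b} = {c : Par p r k | wfun ℓ m c = b} := by
      ext c
      constructor
      · rintro ⟨a, ha, hb⟩
        change wfun ℓ m c = b
        rw [wfun, hb, fixT_eq, (h0 c a).mp ha]
      · intro hb
        refine ⟨vfun ℓ m c, (h0 c _).mpr rfl, ?_⟩
        rw [fixT_eq]
        exact hb.symm
    rw [h2]
    exact hQ b

end Pool.Agent.WD
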